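import Mathlib

set_option autoImplicit false

namespace Pool.Agent.R337.VG

open Polynomial Finset Module

/-- If the polynomials `b i` of degree at most `r` span a space of codimension `c < r` which
contains an irreducible polynomial of degree `r`, then the products `X ^ j * b i`, `j ≤ c`, span
all polynomials of degree at most `r + c` (stated dually). -/
theorem surj (r c : ℕ) (hc : c < r) {ι : Type*} [Fintype ι] (b : ι → ℚ[X])
    (hb : LinearIndependent ℚ b) (hdeg : ∀ i, (b i).natDegree ≤ r)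
    (hcard : r + 1 ≤ Fintype.card ι + c) (f : ℚ[X]) (hf : Irreducible f) (hfd : f.natDegree = r)
    (hfb : f ∈ Submodule.span ℚ (Set.range b)) (φ : ℚ[X] →ₗ[ℚ] ℚ)
    (hφ : ∀ i, ∀ j ≤ c, φ (X ^ j * b i) = 0) : ∀ p : ℚ[X], p.natDegree ≤ r + c → φ p = 0 := by
  classical
  have hf0 : f ≠ 0 := hf.ne_zero
  -- the functionals on `degreeLT`
  let Ψ : degreeLT ℚ (r + 1) →ₗ[ℚ] (Fin (c + 1) → ℚ) :=
    LinearMap.pi fun j => φ ∘ₗ (LinearMap.mulLeft ℚ (X ^ (j : ℕ) : ℚ[X])) ∘ₗ
      (degreeLT ℚ (r + 1)).subtype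
  have hΨ : ∀ (g : degreeLT ℚ (r + 1)) (j : Fin (c + 1)), Ψ g j = φ (X ^ (j : ℕ) * (g : ℚ[X])) :=
    fun g j => rfl
  have hbm : ∀ i, b i ∈ degreeLT ℚ (r + 1) := by
    intro i
    rw [mem_degreeLT]
    refine lt_of_le_of_lt degree_le_natDegree ?_
    exact_mod_cast Nat.lt_succ_of_le (hdeg i)
  have hker : Fintype.card ι ≤ finrank ℚ (LinearMap.ker Ψ) := by
    let b' : ι → LinearMap.ker Ψ := fun i => ⟨⟨b i, hbm i⟩, by
      rw [LinearMap.mem_ker]
      ext j
      rw [hΨ]
      exact hφ i j (Nat.lt_succ_iff.1 j.2)⟩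
    have hb' : LinearIndependent ℚ b' := by
      have : LinearIndependent ℚ (((degreeLT ℚ (r + 1)).subtype ∘ₗ (LinearMap.ker Ψ).subtype) ∘ b') := hb
      exact LinearIndependent.of_comp _ this
    exact hb'.fintype_card_le_finrank
  have hfr : finrank ℚ (degreeLT ℚ (r + 1)) = r + 1 := by
    rw [(degreeLTEquiv ℚ (r + 1)).finrank_eq]; simp
  have hrn := LinearMap.finrank_range_add_finrank_ker Ψ
  rw [hfr] at hrn
  have hlt : LinearMap.range Ψ < ⊤ := by
    refine lt_top_iff_ne_top.2 fun h => ?_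
    have h1 : finrank ℚ (LinearMap.range Ψ) = c + 1 := by
      rw [h, finrank_top]; simp
    omega
  obtain ⟨g, hg0, hg⟩ := Submodule.exists_le_ker_of_lt_top _ hlt
  have hgΨ : ∀ x, g (Ψ x) = 0 := fun x => hg (LinearMap.mem_range_self Ψ x)
  set B : ℚ[X] := ∑ j : Fin (c + 1), C (g (Pi.single j 1)) * X ^ (j : ℕ) with hB
  have hBc : ∀ j : Fin (c + 1), B.coeff j = g (Pi.single j 1) := by
    intro j
    rw [hB, finsetSum_coeff, Finset.sum_eq_single j]
    · simp
    · intro i _ hij
      rw [coeff_C_mul_X_pow, if_neg]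
      intro h
      exact hij (Fin.ext h.symm)
    · intro h; exact absurd (mem_univ _) h
  have hB0 : B ≠ 0 := by
    intro h0
    apply hg0
    refine LinearMap.pi_ext' fun j => ?_
    ext
    have := hBc j
    rw [h0, coeff_zero] at this
    simp [← this]
  have hBd : B.natDegree ≤ c := by
    refine natDegree_sum_le_of_forall_le _ _ fun j _ => ?_
    refine (natDegree_C_mul_X_pow_le _ _).trans ?_
    exact Nat.lt_succ_iff.1 j.2
  have hgsum : ∀ w : Fin (c + 1) → ℚ, g w = ∑ j, g (Pi.single j 1) * w j := by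
    intro w
    have h1 : w = ∑ j, w j • (Pi.single j (1 : ℚ) : Fin (c + 1) → ℚ) := by
      ext i; simp [Finset.sum_apply, Pi.single_apply]
    conv_lhs => rw [h1]
    rw [map_sum]
    refine Finset.sum_congr rfl fun j _ => ?_
    rw [map_smul, smul_eq_mul, mul_comm]
  have hBφ : ∀ p : ℚ[X], p.natDegree ≤ r → φ (B * p) = 0 := by
    intro p hp
    have hpm : p ∈ degreeLT ℚ (r + 1) := by
      rw [mem_degreeLT]
      refine lt_of_le_of_lt degree_le_natDegree ?_
      exact_mod_cast Nat.lt_succ_of_le hp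
    have h1 := hgΨ ⟨p, hpm⟩
    rw [hgsum] at h1
    rw [hB, Finset.sum_mul, map_sum, ← h1]
    refine Finset.sum_congr rfl fun j _ => ?_
    rw [hΨ, mul_assoc, ← smul_eq_C_mul, map_smul, smul_eq_mul]
  have hfφ : ∀ W : ℚ[X], W.natDegree ≤ c → φ (W * f) = 0 := by
    intro W hW
    have h1 : ∀ j ≤ c, φ (X ^ j * f) = 0 := by
      intro j hj
      refine Submodule.span_induction (p := fun x _ => φ (X ^ j * x) = 0) ?_ ?_ ?_ ?_ hfb
      · rintro x ⟨i, rfl⟩; exact hφ i j hj
      · rw [mul_zero, map_zero]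
      · intro x y _ _ hx hy; rw [mul_add, map_add, hx, hy, add_zero]
      · intro a x _ hx; rw [mul_smul_comm, map_smul, hx, smul_zero]
    rw [W.as_sum_range' (c + 1) (Nat.lt_succ_of_le hW), Finset.sum_mul, map_sum]
    refine Finset.sum_eq_zero fun j hj => ?_
    rw [← C_mul_X_pow_eq_monomial, mul_assoc, ← smul_eq_C_mul, map_smul,
      h1 j (Nat.lt_succ_iff.1 (Finset.mem_range.1 hj)), smul_zero]
  have hcop : IsCoprime f B := by
    rw [hf.coprime_iff_not_dvd]
    intro hdvd
    have := natDegree_le_of_dvd hdvd hB0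
    omega
  obtain ⟨U, V, hUV⟩ := hcop
  intro p hp
  set R := (p * V) % f with hR
  set Q := (p * V) / f with hQ
  have hdiv : f * Q + R = p * V := EuclideanDomain.div_add_mod _ _
  have hRd : R.natDegree < r := by
    have h1 : R.degree < f.degree := EuclideanDomain.mod_lt _ hf0
    by_cases hR0 : R = 0
    · rw [hR0, natDegree_zero]; omega
    · have := (natDegree_lt_natDegree_iff hR0).2 h1
      omega
  set W := p * U + Q * B with hW
  have hpe : p = B * R + W * f := by
    have h1 : p = p * (U * f + V * B) := by rw [hUV, mul_one]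
    rw [hW]
    linear_combination h1 - B * hdiv
  have hWd : W.natDegree ≤ c := by
    by_cases hW0 : W = 0
    · rw [hW0, natDegree_zero]; omega
    have h1 : W * f = p - B * R := by rw [hpe]; ring
    have h2 : (W * f).natDegree ≤ r + c := by
      rw [h1]
      refine (natDegree_sub_le _ _).trans (max_le hp ?_)
      refine natDegree_mul_le.trans ?_
      omega
    rw [natDegree_mul hW0 hf0] at h2
    omega
  rw [hpe, map_add, hBφ R hRd.le, hfφ W hWd, add_zero]

end Pool.Agent.R337.VG
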