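import Mathlib
import Pool.Agent.R337.VG.Surj

set_option autoImplicit false

namespace Pool.Agent.R337.VG

open Polynomial Finset Module

/-- The linear form with index `κ` in the block `j`: for `κ = Sum.inl l` the coefficient `l` of
`X ^ j * f`, for `κ = Sum.inr (a, i)` the coefficient `a` of `f` if `i = j` and zero otherwise. -/
noncomputable def cl (R : Type*) [CommRing R] (r c : ℕ)
    (κ : Fin (r + c + 1) ⊕ (Fin (r + 1) × Fin (c + 1))) (j : Fin (c + 1)) : R[X] →ₗ[R] R :=
  Sum.elim (fun l : Fin (r + c + 1) => (lcoeff R (l : ℕ)) ∘ₗ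
      (LinearMap.mulLeft R (X ^ (j : ℕ) : R[X])))
    (fun a : Fin (r + 1) × Fin (c + 1) => if j = a.2 then lcoeff R (a.1 : ℕ) else 0) κ

lemma cl_inl (R : Type*) [CommRing R] (r c : ℕ) (l : Fin (r + c + 1)) (j : Fin (c + 1))
    (f : R[X]) : cl R r c (Sum.inl l) j f = (X ^ (j : ℕ) * f).coeff l := rfl

lemma cl_inr (R : Type*) [CommRing R] (r c : ℕ) (a : Fin (r + 1) × Fin (c + 1)) (j : Fin (c + 1))
    (f : R[X]) : cl R r c (Sum.inr a) j f = if j = a.2 then f.coeff a.1 else 0 := by
  unfold cl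
  simp only [Sum.elim_inr]
  split_ifs <;> rfl

/-- The square matrix of a family of polynomials. -/
noncomputable def BM (R : Type*) [CommRing R] (r c k : ℕ) {T : Finset (Fin (r + 1) × Fin (c + 1))}
    (e : (Fin k × Fin (c + 1)) ≃ (Fin (r + c + 1) ⊕ T)) (b : Fin k → R[X]) :
    Matrix (Fin k × Fin (c + 1)) (Fin k × Fin (c + 1)) R :=
  Matrix.of fun x y => cl R r c (Sum.map id Subtype.val (e y)) x.2 (b x.1)

theorem sel (r c k : ℕ) (hc : c < r) (hk : k + c = r + 1) (b : Fin k → ℚ[X])
    (hb : LinearIndependent ℚ b) (hdeg : ∀ i, (b i).natDegree ≤ r)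
    (f : ℚ[X]) (hf : Irreducible f) (hfd : f.natDegree = r)
    (hfb : f ∈ Submodule.span ℚ (Set.range b)) :
    ∃ (T : Finset (Fin (r + 1) × Fin (c + 1)))
      (e : (Fin k × Fin (c + 1)) ≃ (Fin (r + c + 1) ⊕ T)), (BM ℚ r c k e b).det ≠ 0 := by
  classical
  set u : (Fin (r + c + 1) ⊕ (Fin (r + 1) × Fin (c + 1))) → ((Fin k × Fin (c + 1)) → ℚ) :=
    fun κ x => cl ℚ r c κ x.2 (b x.1) with hu
  -- the first block of columns is independent
  have h1 : LinearIndepOn ℚ u (Set.range Sum.inl) := by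
    rw [linearIndepOn_range_iff Sum.inl_injective, Fintype.linearIndependent_iff]
    intro g hg l
    let φ : ℚ[X] →ₗ[ℚ] ℚ := ∑ l : Fin (r + c + 1), g l • lcoeff ℚ (l : ℕ)
    have hφ : ∀ p : ℚ[X], φ p = ∑ l : Fin (r + c + 1), g l * p.coeff l := by
      intro p
      simp only [φ, LinearMap.sum_apply, LinearMap.smul_apply, lcoeff_apply, smul_eq_mul]
    have h2 := surj r c hc b hb hdeg (by simp; omega) f hf hfd hfb φ (by
      intro i j hj
      have h3 := congrFun hg (i, ⟨j, Nat.lt_succ_of_le hj⟩)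
      simp only [Finset.sum_apply, Pi.smul_apply, Function.comp_apply, hu, cl_inl, smul_eq_mul,
        Pi.zero_apply] at h3
      rw [hφ]; exact h3) (X ^ (l : ℕ)) (by
        rw [natDegree_X_pow]; exact Nat.lt_succ_iff.1 l.2)
    rw [hφ, Finset.sum_eq_single l] at h2
    · simpa using h2
    · intro l' _ hl'
      rw [coeff_X_pow, if_neg (fun h => hl' (Fin.ext h)), mul_zero]
    · intro h; exact absurd (mem_univ _) h
  -- all columns span
  have h2 : Submodule.span ℚ (Set.range u) = ⊤ := by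
    by_contra hne
    obtain ⟨g, hg0, hg⟩ := Submodule.exists_le_ker_of_lt_top _ (lt_top_iff_ne_top.2 hne)
    apply hg0
    have hgu : ∀ κ, g (u κ) = 0 := fun κ => hg (Submodule.subset_span ⟨κ, rfl⟩)
    have hgs : ∀ w : (Fin k × Fin (c + 1)) → ℚ, g w = ∑ x, g (Pi.single x 1) * w x := by
      intro w
      have h1 : w = ∑ x, w x • (Pi.single x (1 : ℚ) : (Fin k × Fin (c + 1)) → ℚ) := by
        ext i; simp [Finset.sum_apply, Pi.single_apply]
      conv_lhs => rw [h1]
      rw [map_sum]
      refine Finset.sum_congr rfl fun j _ => ?_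
      rw [map_smul, smul_eq_mul, mul_comm]
    have hz : ∀ x, g (Pi.single x 1) = 0 := by
      rintro ⟨i, j⟩
      have h3 : ∑ i, g (Pi.single (i, j) 1) • b i = 0 := by
        ext a
        rw [finsetSum_coeff, coeff_zero]
        by_cases ha : a ≤ r
        · have h4 := hgu (Sum.inr (⟨a, Nat.lt_succ_of_le ha⟩, j))
          rw [hgs, Fintype.sum_prod_type] at h4
          rw [← h4]
          refine Finset.sum_congr rfl fun i _ => ?_
          rw [Finset.sum_eq_single j]
          · simp [hu, cl_inr]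
          · intro j' _ hj'
            simp only [hu, cl_inr]
            rw [if_neg hj', mul_zero]
          · intro h; exact absurd (mem_univ _) h
        · refine Finset.sum_eq_zero fun i _ => ?_
          rw [coeff_smul, coeff_eq_zero_of_natDegree_lt (lt_of_le_of_lt (hdeg i) (by omega)),
            smul_zero]
      exact (Fintype.linearIndependent_iff.1 hb) _ h3 i
    refine LinearMap.ext fun w => ?_
    rw [hgs]
    simp [hz]
  obtain ⟨s, -, hs1, hs2, hs3⟩ := exists_linearIndepOn_extension h1 (Set.subset_univ _)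
  rw [Set.image_univ] at hs2
  set T : Finset (Fin (r + 1) × Fin (c + 1)) := Finset.univ.filter fun a => Sum.inr a ∈ s with hT
  set em : Fin (r + c + 1) ⊕ T → Fin (r + c + 1) ⊕ (Fin (r + 1) × Fin (c + 1)) :=
    Sum.map id Subtype.val with hem
  have hems : ∀ x, em x ∈ s := by
    rintro (x | x)
    · exact hs1 ⟨x, rfl⟩
    · exact (Finset.mem_filter.1 x.2).2
  have heminj : Function.Injective em := Sum.map_injective.2 ⟨Function.injective_id,
    Subtype.val_injective⟩
  have hrange : Set.range em = s := by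
    ext y
    constructor
    · rintro ⟨x, rfl⟩; exact hems x
    · intro hy
      rcases y with y | y
      · exact ⟨Sum.inl y, rfl⟩
      · exact ⟨Sum.inr ⟨y, Finset.mem_filter.2 ⟨mem_univ _, hy⟩⟩, rfl⟩
  have hli : LinearIndependent ℚ (u ∘ em) := by
    rw [← hrange] at hs3
    exact (linearIndepOn_range_iff heminj u).1 hs3
  have hsp : ⊤ ≤ Submodule.span ℚ (Set.range (u ∘ em)) := by
    rw [Set.range_comp, hrange, ← h2]
    exact Submodule.span_le.2 hs2
  have hcard : Fintype.card (Fin k × Fin (c + 1)) = Fintype.card (Fin (r + c + 1) ⊕ T) := by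
    have h3 := finrank_eq_card_basis (Basis.mk hli hsp)
    rw [finrank_fintype_fun_eq_card] at h3
    exact h3
  let e : (Fin k × Fin (c + 1)) ≃ (Fin (r + c + 1) ⊕ T) := Fintype.equivOfCardEq hcard
  refine ⟨T, e, ?_⟩
  have hli2 : LinearIndependent ℚ (fun y => u (em (e y))) := hli.comp e e.injective
  have h5 : IsUnit (BM ℚ r c k e b) := by
    rw [← Matrix.linearIndependent_cols_iff_isUnit]
    exact hli2
  rw [Matrix.isUnit_iff_isUnit_det] at h5
  exact h5.ne_zero

/-- Change of basis. -/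
theorem det_BM (r c k : ℕ) {T : Finset (Fin (r + 1) × Fin (c + 1))}
    (e : (Fin k × Fin (c + 1)) ≃ (Fin (r + c + 1) ⊕ T)) (b v : Fin k → ℤ[X])
    (g : Matrix (Fin k) (Fin k) ℤ) (hg : ∀ i, v i = ∑ i', g i i' • b i') :
    (BM ℤ r c k e v).det = g.det ^ (c + 1) * (BM ℤ r c k e b).det := by
  classical
  have h1 : BM ℤ r c k e v = (Matrix.kronecker g (1 : Matrix (Fin (c + 1)) (Fin (c + 1)) ℤ)) *
      BM ℤ r c k e b := by
    ext x y
    rw [Matrix.mul_apply, Fintype.sum_prod_type]
    simp only [Matrix.kronecker, Matrix.kroneckerMap_apply, Matrix.one_apply, BM, Matrix.of_apply]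
    rw [hg, map_sum]
    refine Finset.sum_congr rfl fun i _ => ?_
    rw [Finset.sum_eq_single x.2]
    · rw [map_smul, smul_eq_mul, if_pos rfl, mul_one]
    · intro j _ hj
      rw [if_neg (Ne.symm hj)]; ring
    · intro h; exact absurd (mem_univ _) h
  rw [h1, Matrix.det_mul]
  congr 1
  have := Matrix.det_kronecker g (1 : Matrix (Fin (c + 1)) (Fin (c + 1)) ℤ)
  rw [Matrix.det_one, one_pow, mul_one, Fintype.card_fin] at this
  exact this

lemma cl_map (r c : ℕ) (κ : Fin (r + c + 1) ⊕ (Fin (r + 1) × Fin (c + 1))) (j : Fin (c + 1))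
    {R S : Type*} [CommRing R] [CommRing S] (φ : R →+* S) (f : R[X]) :
    cl S r c κ j (f.map φ) = φ (cl R r c κ j f) := by
  rcases κ with l | a
  · rw [cl_inl, cl_inl, ← Polynomial.map_X φ, ← Polynomial.map_pow, ← Polynomial.map_mul, coeff_map]
  · rw [cl_inr, cl_inr]
    split_ifs
    · rw [coeff_map]
    · rw [map_zero]

lemma det_BM_map (r c k : ℕ) {T : Finset (Fin (r + 1) × Fin (c + 1))}
    (e : (Fin k × Fin (c + 1)) ≃ (Fin (r + c + 1) ⊕ T))
    {R S : Type*} [CommRing R] [CommRing S] (φ : R →+* S) (b : Fin k → R[X]) :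
    (BM S r c k e fun i => (b i).map φ).det = φ (BM R r c k e b).det := by
  rw [RingHom.map_det]
  congr 1
  ext x y
  simp only [BM, Matrix.of_apply, RingHom.mapMatrix_apply, Matrix.map_apply]
  exact cl_map r c _ _ φ _

end Pool.Agent.R337.VG
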