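import Mathlib
import Pool.Agent.R337.VG.Sel
import Pool.Agent.H990R4.VJ.O

set_option autoImplicit false

namespace Pool.Agent.R337.VG

open Polynomial Finset Module
open Pool.Agent.H990R4.VJ.Red (fm exists_upper)

section field

variable {F : Type*} [NormedField F]

lemma norm_det_le {ρ : Type*} [Fintype ρ] [DecidableEq ρ] (W : Matrix ρ ρ F) (B : ρ → ℝ)
    (hB : ∀ x y, ‖W x y‖ ≤ B y) : ‖W.det‖ ≤ (Fintype.card ρ).factorial * ∏ y, B y := by
  rw [Matrix.det_apply]
  refine (norm_sum_le _ _).trans ?_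
  have h1 : ∀ σ : Equiv.Perm ρ, ‖Equiv.Perm.sign σ • ∏ i, W (σ i) i‖ ≤ ∏ y, B y := by
    intro σ
    have h2 : ‖Equiv.Perm.sign σ • ∏ i, W (σ i) i‖ = ‖∏ i, W (σ i) i‖ := by
      rcases Int.units_eq_one_or (Equiv.Perm.sign σ) with h | h <;> rw [h]
      · rw [one_smul]
      · rw [Units.neg_smul, one_smul, norm_neg]
    rw [h2, norm_prod]
    exact Finset.prod_le_prod (fun _ _ => norm_nonneg _) fun i _ => hB _ _
  refine (Finset.sum_le_sum fun σ _ => h1 σ).trans (le_of_eq ?_)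
  rw [Finset.sum_const, Finset.card_univ, Fintype.card_perm, nsmul_eq_mul]

/-- finitely many points can be completed to any number of different points -/
lemma exists_extend [CharZero F] {q : ℕ} (P : Fin q → F × F) (hP0 : ∀ i, P i ≠ 0)
    (hdist : ∀ i j, i ≠ j → (P i).1 * (P j).2 ≠ (P j).1 * (P i).2) (J : Finset (Fin q)) (m : ℕ)
    (hJ : J.card ≤ m) :
    ∃ (Q : Fin m → F × F) (E : (J ⊕ Fin (m - J.card)) ≃ Fin m),
      (∀ i j, i ≠ j → (Q i).1 * (Q j).2 ≠ (Q j).1 * (Q i).2) ∧ ∀ j : J, Q (E (Sum.inl j)) = P j := by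
  classical
  set Bad : Set ℕ := {n | ∃ j, (n : F) * (P j).2 = (P j).1} with hBad
  have hfin : Bad.Finite := by
    have h1 : Bad = ⋃ j, {n : ℕ | (n : F) * (P j).2 = (P j).1} := by
      ext n; simp [hBad]
    rw [h1]
    refine Set.finite_iUnion fun j => Set.Subsingleton.finite ?_
    intro n hn n' hn'
    simp only [Set.mem_ofPred_eq] at hn hn'
    have h2 : ((n : F) - n') * (P j).2 = 0 := by rw [sub_mul, hn, hn', sub_self]
    rcases mul_eq_zero.1 h2 with h3 | h3
    · exact_mod_cast sub_eq_zero.1 h3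
    · exfalso
      apply hP0 j
      refine Prod.ext ?_ h3
      rw [← hn, h3, mul_zero]; rfl
  have hinf : Set.Infinite (Badᶜ) := hfin.infinite_compl
  let g : ℕ ↪ (Badᶜ : Set ℕ) := hinf.natEmbedding
  have hcard : Fintype.card (J ⊕ Fin (m - J.card)) = Fintype.card (Fin m) := by
    rw [Fintype.card_sum, Fintype.card_coe, Fintype.card_fin, Fintype.card_fin]; omega
  let E : (J ⊕ Fin (m - J.card)) ≃ Fin m := Fintype.equivOfCardEq hcard
  let R : J ⊕ Fin (m - J.card) → F × F := Sum.elim (fun j => P j) (fun n => (((g n : ℕ) : F), 1))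
  have hgn : ∀ (n : Fin (m - J.card)) (j : Fin q), ((g n : ℕ) : F) * (P j).2 ≠ (P j).1 := by
    intro n j h
    exact (g n).2 ⟨j, h⟩
  have hR : ∀ x y, x ≠ y → (R x).1 * (R y).2 ≠ (R y).1 * (R x).2 := by
    rintro (x | x) (y | y) hxy
    · exact hdist x y fun h => hxy (by rw [Subtype.ext h])
    · simp only [R, Sum.elim_inl, Sum.elim_inr, mul_one]
      exact fun h => hgn y x h.symm
    · simp only [R, Sum.elim_inl, Sum.elim_inr, mul_one]
      exact hgn x y
    · simp only [R, Sum.elim_inr, mul_one]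
      intro h
      have h1 : ((g x : ℕ)) = (g y : ℕ) := by exact_mod_cast h
      exact hxy (by rw [Fin.ext (g.injective (Subtype.ext h1))])
  refine ⟨fun i => R (E.symm i), E, fun i j hij => hR _ _ fun h => hij (E.symm.injective h), ?_⟩
  intro j
  simp only [Equiv.symm_apply_apply, R, Sum.elim_inl]

lemma fm_shift (r c j : ℕ) (hj : j ≤ c) (f : ℤ[X]) (hf : f.natDegree ≤ r) (Q : F × F) :
    fm (r + c) (X ^ j * f) Q = (Q.1 ^ j * Q.2 ^ (c - j)) * fm r f Q := by
  unfold fm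
  have h1 : ∀ (n : ℕ) (g : ℤ[X]), ∑ i : Fin (n + 1), (g.coeff i : F) *
      (Q.1 ^ (i : ℕ) * Q.2 ^ (i.rev : ℕ)) =
      ∑ i ∈ Finset.range (n + 1), (g.coeff i : F) * (Q.1 ^ i * Q.2 ^ (n - i)) := by
    intro n g
    rw [← Fin.sum_univ_eq_sum_range (fun i => (g.coeff i : F) * (Q.1 ^ i * Q.2 ^ (n - i))) (n + 1)]
    refine Finset.sum_congr rfl fun i _ => ?_
    rw [Fin.val_rev]
    congr 3
    omega
  rw [h1, h1, Finset.mul_sum]
  have h2 : ∀ i ∈ Finset.range (r + c + 1), i ∉ (Finset.range (r + 1)).image (fun a => a + j) →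
      (((X ^ j * f).coeff i : ℤ) : F) * (Q.1 ^ i * Q.2 ^ (r + c - i)) = 0 := by
    intro i _ hi
    have h3 : (X ^ j * f).coeff i = 0 := by
      rw [coeff_X_pow_mul']
      split_ifs with h
      · apply coeff_eq_zero_of_natDegree_lt
        by_contra hcon
        push Not at hcon
        exact hi (Finset.mem_image.2 ⟨i - j, Finset.mem_range.2 (by omega), by omega⟩)
      · rfl
    rw [h3, Int.cast_zero, zero_mul]
  rw [← Finset.sum_subset (s₁ := (Finset.range (r + 1)).image (fun a => a + j)) ?_ h2]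
  · rw [Finset.sum_image (fun a _ b _ hab => by simpa using hab)]
    refine Finset.sum_congr rfl fun a ha => ?_
    rw [coeff_X_pow_mul]
    have h4 : r + c - (a + j) = (c - j) + (r - a) := by
      have := Finset.mem_range.1 ha
      omega
    rw [h4, pow_add, pow_add]
    ring
  · intro i hi
    obtain ⟨a, ha, rfl⟩ := Finset.mem_image.1 hi
    have := Finset.mem_range.1 ha
    exact Finset.mem_range.2 (by omega)

theorem local_det [CharZero F] {q : ℕ} (P : Fin q → F × F) (hP0 : ∀ i, P i ≠ 0)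
    (hdist : ∀ i j, i ≠ j → (P i).1 * (P j).2 ≠ (P j).1 * (P i).2) (r c k : ℕ)
    (J : Finset (Fin q)) (hJ : J.card ≤ r + c + 1) :
    ∃ C : ℝ, 1 ≤ C ∧ ∀ (T : Finset (Fin (r + 1) × Fin (c + 1)))
      (e : (Fin k × Fin (c + 1)) ≃ (Fin (r + c + 1) ⊕ T)) (b : Fin k → ℤ[X]) (Y : ℝ)
      (t : Fin q → ℝ), 0 ≤ Y → (∀ j, 0 ≤ t j) → (∀ i, (b i).natDegree ≤ r) →
      (∀ i a, ‖((b i).coeff a : F)‖ ≤ Y) → (∀ i, ∀ j ∈ J, ‖fm r (b i) (P j)‖ ≤ Y * t j) →
      ‖((BM ℤ r c k e b).det : F)‖ ≤ C * (Y ^ (k * (c + 1)) * ∏ j ∈ J, t j) := by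
  classical
  obtain ⟨Q, E, hQ, hQE⟩ := exists_extend P hP0 hdist J (r + c + 1) hJ
  obtain ⟨U, hU1, hU⟩ := exists_upper (F := F) r (r + c + 1) Q
  set A : Matrix (Fin (r + c + 1)) (Fin (r + c + 1)) F :=
    Matrix.projVandermonde (fun j => (Q j).1) (fun j => (Q j).2) with hA
  have hdet : A.det ≠ 0 := by
    rw [hA, Matrix.det_projVandermonde]
    refine Finset.prod_ne_zero_iff.2 fun i _ => Finset.prod_ne_zero_iff.2 fun j hj => ?_
    rw [Finset.mem_Ioi] at hj
    have h1 := hQ j i hj.ne'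
    rw [sub_ne_zero]
    intro h2
    exact h1 (by linear_combination h2)
  set U₂ : ℝ := 1 + ∑ l, (1 + ‖(Q l).1‖ + ‖(Q l).2‖) ^ c with hU₂
  have hU₂1 : 1 ≤ U₂ := by
    have : 0 ≤ ∑ l, (1 + ‖(Q l).1‖ + ‖(Q l).2‖) ^ c := by positivity
    linarith
  have hU₂b : ∀ (l : Fin (r + c + 1)) (j : ℕ), j ≤ c → ‖(Q l).1 ^ j * (Q l).2 ^ (c - j)‖ ≤ U₂ := by
    intro l j hj
    have h1 : (1 + ‖(Q l).1‖ + ‖(Q l).2‖) ^ c ≤ ∑ l, (1 + ‖(Q l).1‖ + ‖(Q l).2‖) ^ c :=
      Finset.single_le_sum (f := fun l => (1 + ‖(Q l).1‖ + ‖(Q l).2‖) ^ c)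
        (fun _ _ => by positivity) (mem_univ l)
    have h0 := norm_nonneg (Q l).1
    have h0' := norm_nonneg (Q l).2
    have h2 : ‖(Q l).1 ^ j * (Q l).2 ^ (c - j)‖ ≤ (1 + ‖(Q l).1‖ + ‖(Q l).2‖) ^ c := by
      rw [norm_mul, norm_pow, norm_pow]
      calc ‖(Q l).1‖ ^ j * ‖(Q l).2‖ ^ (c - j)
          ≤ (1 + ‖(Q l).1‖ + ‖(Q l).2‖) ^ j * (1 + ‖(Q l).1‖ + ‖(Q l).2‖) ^ (c - j) := by
            gcongr <;> linarith
        _ = _ := by rw [← pow_add]; congr 1; omega
    linarith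
  set N := k * (c + 1) with hN
  have hdet0 : 0 < ‖A.det‖ := norm_pos_iff.2 hdet
  refine ⟨1 + (N.factorial * (U₂ * U) ^ N) / ‖A.det‖, by
    have : 0 ≤ (N.factorial * (U₂ * U) ^ N) / ‖A.det‖ := by positivity
    linarith, ?_⟩
  intro T e b Y t hY ht hbd hbY hbJ
  have hUU : 1 ≤ U₂ * U := by nlinarith
  -- the transition matrix
  set Z : Matrix (Fin (r + c + 1) ⊕ T) (Fin (r + c + 1) ⊕ T) F :=
    Matrix.fromBlocks A.transpose 0 0 1 with hZ
  have hZdet : Z.det = A.det := by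
    rw [hZ, Matrix.det_fromBlocks_zero₂₁, Matrix.det_one, mul_one, Matrix.det_transpose]
  set M' : Matrix (Fin k × Fin (c + 1)) (Fin (r + c + 1) ⊕ T) F := Matrix.of fun x κ =>
    ((cl ℤ r c (Sum.map id Subtype.val κ) x.2 (b x.1) : ℤ) : F) with hM'
  set W : Matrix (Fin k × Fin (c + 1)) (Fin k × Fin (c + 1)) F := (M' * Z).submatrix id e with hW
  have hWdet : W.det = ((BM ℤ r c k e b).det : F) * A.det := by
    have h1 : W = M'.submatrix id e * Z.submatrix e e := by
      rw [hW, Matrix.submatrix_mul_equiv]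
    rw [h1, Matrix.det_mul, Matrix.det_submatrix_equiv_self, hZdet]
    congr 1
    have h2 : M'.submatrix id e = (Int.castRingHom F).mapMatrix (BM ℤ r c k e b) := by
      ext x y; rfl
    rw [h2, ← RingHom.map_det]; rfl
  let s : Fin (r + c + 1) → ℝ := fun l => Sum.elim (fun j : J => t j) (fun _ => 1) (E.symm l)
  let B : (Fin (r + c + 1) ⊕ T) → ℝ := Sum.elim (fun l => (U₂ * U) * Y * s l)
    (fun _ => (U₂ * U) * Y)
  have hs0 : ∀ l, 0 ≤ s l := by
    intro l
    simp only [s]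
    rcases E.symm l with j | j
    · exact ht _
    · exact zero_le_one
  have hWB : ∀ x y, ‖W x y‖ ≤ B (e y) := by
    rintro ⟨i, j⟩ y
    have hjc : (j : ℕ) ≤ c := Nat.lt_succ_iff.1 j.2
    rw [hW, Matrix.submatrix_apply, id, Matrix.mul_apply, Fintype.sum_sum_type]
    rcases e y with l | a
    · have h1 : (∑ κ, M' (i, j) (Sum.inl κ) * Z (Sum.inl κ) (Sum.inl l)) +
          ∑ κ, M' (i, j) (Sum.inr κ) * Z (Sum.inr κ) (Sum.inl l) =
          (Q l).1 ^ (j : ℕ) * (Q l).2 ^ (c - j) * fm r (b i) (Q l) := by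
        have h2 : ∑ κ, M' (i, j) (Sum.inr κ) * Z (Sum.inr κ) (Sum.inl l) = 0 := by
          refine Finset.sum_eq_zero fun κ _ => ?_
          rw [hZ, Matrix.fromBlocks_apply₂₁, Matrix.zero_apply, mul_zero]
        rw [h2, add_zero, ← fm_shift r c j hjc (b i) (hbd i)]
        unfold fm
        refine Finset.sum_congr rfl fun κ _ => ?_
        rw [hZ, Matrix.fromBlocks_apply₁₁, Matrix.transpose_apply, hA,
          Matrix.projVandermonde_apply]
        rfl
      rw [h1, norm_mul]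
      have h3 : ‖fm r (b i) (Q l)‖ ≤ U * (Y * s l) := by
        rcases hE : E.symm l with j' | j'
        · have hl : l = E (Sum.inl j') := by rw [← hE, Equiv.apply_symm_apply]
          have h4 : s l = t j' := by simp only [s, hE, Sum.elim_inl]
          rw [h4, hl, hQE]
          have h5 := hbJ i j' j'.2
          have h6 : 0 ≤ Y * t j' := mul_nonneg hY (ht _)
          nlinarith
        · have h4 : s l = 1 := by simp only [s, hE, Sum.elim_inr]
          rw [h4, mul_one]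
          exact hU (b i) Y (fun a => hbY i a) l
      calc ‖(Q l).1 ^ (j : ℕ) * (Q l).2 ^ (c - j)‖ * ‖fm r (b i) (Q l)‖
          ≤ U₂ * (U * (Y * s l)) := mul_le_mul (hU₂b l j hjc) h3 (norm_nonneg _) (by linarith)
        _ = B (Sum.inl l) := by simp only [B, Sum.elim_inl]; ring
    · have h1 : (∑ κ, M' (i, j) (Sum.inl κ) * Z (Sum.inl κ) (Sum.inr a)) +
          ∑ κ, M' (i, j) (Sum.inr κ) * Z (Sum.inr κ) (Sum.inr a) = M' (i, j) (Sum.inr a) := by
        have h2 : ∑ κ, M' (i, j) (Sum.inl κ) * Z (Sum.inl κ) (Sum.inr a) = 0 := by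
          refine Finset.sum_eq_zero fun κ _ => ?_
          rw [hZ, Matrix.fromBlocks_apply₁₂, Matrix.zero_apply, mul_zero]
        rw [h2, zero_add, Finset.sum_eq_single a]
        · rw [hZ, Matrix.fromBlocks_apply₂₂, Matrix.one_apply_eq, mul_one]
        · intro κ _ hκ
          rw [hZ, Matrix.fromBlocks_apply₂₂, Matrix.one_apply_ne hκ, mul_zero]
        · intro h; exact absurd (mem_univ _) h
      rw [h1]
      have h3 : M' (i, j) (Sum.inr a) = ((if j = (a : Fin (r + 1) × Fin (c + 1)).2 then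
          (b i).coeff (a : Fin (r + 1) × Fin (c + 1)).1 else 0 : ℤ) : F) := by
        rw [hM', Matrix.of_apply, Sum.map_inr, cl_inr]
      have h4 : ‖M' (i, j) (Sum.inr a)‖ ≤ Y := by
        rw [h3]
        split_ifs
        · exact hbY i _
        · rw [Int.cast_zero, norm_zero]; exact hY
      have h5 : B (Sum.inr a) = (U₂ * U) * Y := rfl
      rw [h5]
      nlinarith
  have h1 := norm_det_le W (fun y => B (e y)) hWB
  rw [hWdet, norm_mul] at h1
  have h2 : ∏ y, B (e y) = (U₂ * U) ^ N * (Y ^ N * ∏ j ∈ J, t j) := by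
    rw [Equiv.prod_comp e B, Fintype.prod_sum_type]
    simp only [B, Sum.elim_inl, Sum.elim_inr]
    rw [Finset.prod_mul_distrib, Finset.prod_const, Finset.prod_const]
    have h3 : ∏ l, s l = ∏ j ∈ J, t j := by
      rw [← Equiv.prod_comp E s, Fintype.prod_sum_type]
      simp only [s, Equiv.symm_apply_apply, Sum.elim_inl, Sum.elim_inr, Finset.prod_const_one,
        mul_one]
      exact Finset.prod_coe_sort J t
    rw [h3]
    have h4 : N = (Finset.univ : Finset (Fin (r + c + 1))).card + (Finset.univ : Finset T).card := by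
      have h5 := Fintype.card_congr e
      rw [Fintype.card_prod, Fintype.card_fin, Fintype.card_fin, Fintype.card_sum] at h5
      exact h5
    rw [h4, pow_add, pow_add, mul_pow, mul_pow]
    ring_nf
  have h3 : Fintype.card (Fin k × Fin (c + 1)) = N := by
    rw [Fintype.card_prod, Fintype.card_fin, Fintype.card_fin]
  rw [h2, h3] at h1
  have h4 : 0 ≤ Y ^ N * ∏ j ∈ J, t j := mul_nonneg (pow_nonneg hY _)
    (Finset.prod_nonneg fun j _ => ht j)
  have h5 : ‖((BM ℤ r c k e b).det : F)‖ ≤ (N.factorial * (U₂ * U) ^ N) / ‖A.det‖ *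
      (Y ^ N * ∏ j ∈ J, t j) := by
    rw [div_mul_eq_mul_div, le_div_iff₀ hdet0]
    calc _ ≤ _ := h1
      _ = _ := by ring
  linarith

end field

end Pool.Agent.R337.VG
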