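import Mathlib
import Pool.Agent.R337.VG.Loc
import Pool.Agent.W226.VQ.Lat
import Pool.Agent.W226.VQ.Key

set_option autoImplicit false

namespace Pool.Agent.R337.VG

open Polynomial Finset Module
open Pool.Agent.W226.VQ (av av_nonneg av_le_one prod_formula' card_le_of_det exists_not_dvd)

/-- bound for the determinants `BM` at one place, for the points in `J` -/
def Good (r : ℕ) {q : ℕ} (nv : ℤ → ℝ) (ν : ℤ[X] → Fin q → ℝ) (J : Finset (Fin q)) : Prop :=
  ∀ c k : ℕ, ∃ C : ℝ, 1 ≤ C ∧ ∀ (T : Finset (Fin (r + 1) × Fin (c + 1)))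
      (e : (Fin k × Fin (c + 1)) ≃ (Fin (r + c + 1) ⊕ T)) (b : Fin k → ℤ[X]) (Y : ℝ)
      (t : Fin q → ℝ), 0 ≤ Y → (∀ j, 0 ≤ t j) → (∀ i, (b i).natDegree ≤ r) →
      (∀ i a, nv ((b i).coeff a) ≤ Y) → (∀ i, ∀ j ∈ J, ν (b i) j ≤ Y * t j) →
      nv (BM ℤ r c k e b).det ≤ C * (Y ^ (k * (c + 1)) * ∏ j ∈ J, t j)

/-- a finite set of irreducible polynomials all of which are multiples of one polynomial -/
lemma card_le_two (K : Finset ℤ[X]) (hK : ∀ f ∈ K, Irreducible f ∧ 1 ≤ f.natDegree) (g : ℤ[X])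
    (hg : ∀ f ∈ K, ∃ n : ℤ, f = n • g) : K.card ≤ 2 := by
  classical
  have h1 : K ⊆ {g, -g} := by
    intro f hf
    obtain ⟨n, hn⟩ := hg f hf
    obtain ⟨hirr, hdeg⟩ := hK f hf
    have h2 : f = C n * g := by rw [hn, zsmul_eq_mul, ← C_eq_intCast]; rfl
    have h3 : IsUnit (C n : ℤ[X]) := by
      rcases hirr.isUnit_or_isUnit h2 with h | h
      · exact h
      · exfalso
        have h4 : g.natDegree = 0 := natDegree_eq_zero_of_isUnit h
        have h5 : f.natDegree ≤ 0 := by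
          rw [h2]; exact (natDegree_C_mul_le _ _).trans h4.le
        omega
    rw [isUnit_C, Int.isUnit_iff] at h3
    rcases h3 with rfl | rfl
    · simp [h2]
    · simp [h2]
  refine (Finset.card_le_card h1).trans ?_
  exact Finset.card_le_two

lemma irr_map {f : ℤ[X]} (hf : Irreducible f) (hd : 1 ≤ f.natDegree) :
    Irreducible (f.map (Int.castRingHom ℚ)) := by
  have hprim : f.IsPrimitive := hf.isPrimitive (by omega)
  exact (hprim.irreducible_iff_irreducible_map_fraction_map).1 hf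

theorem lc (r q : ℕ) (hr : 1 ≤ r) (S : Finset ℕ) (hS : ∀ p ∈ S, p.Prime)
    (ν : ℤ[X] → Fin q → ℝ) (J : Finset (Fin q)) (hν : Good r (fun n => |(n : ℝ)|) ν J)
    (νp : ℕ → ℤ[X] → Fin q → ℝ) (Jp : ℕ → Finset (Fin q))
    (hνp : ∀ p ∈ S, Good r (av p) (νp p) (Jp p))
    (hadd : ∀ p ∈ S, ∀ (f g : ℤ[X]) (j : Fin q), νp p (f + g) j ≤ max (νp p f j) (νp p g j))
    (hmul : ∀ p ∈ S, ∀ (n : ℤ) (f : ℤ[X]) (j : Fin q), νp p (n • f) j ≤ νp p f j)
    (hzero : ∀ p ∈ S, ∀ (j : Fin q), νp p 0 j ≤ 0) :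
    ∃ C : ℝ, 1 ≤ C ∧ ∀ (K : Finset ℤ[X]) (Y : ℝ) (t : Fin q → ℝ) (tp : ℕ → Fin q → ℝ), 0 ≤ Y →
      (∀ j, 0 ≤ t j) → (∀ p j, 0 ≤ tp p j) →
      (∀ f ∈ K, Irreducible f ∧ f.natDegree = r ∧ (∀ a, |((f.coeff a : ℤ) : ℝ)| ≤ Y) ∧
        (∀ j ∈ J, ν f j ≤ Y * t j) ∧ ∀ p ∈ S, ∀ j ∈ Jp p, νp p f j ≤ tp p j) →
      K.card ≤ 2 ∨ ∃ c, c < r ∧ (K.card : ℝ) ^ (c + 1) ≤
        C * (Y ^ ((r + 1 - c) * (c + 1)) * ((∏ j ∈ J, t j) * ∏ p ∈ S, ∏ j ∈ Jp p, tp p j)) := by
  classical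
  choose C₀ hC₀1 hC₀ using hν
  choose! Cp hCp1 hCp using hνp
  -- the constant
  set K₀ : ℕ → ℝ := fun c => (5 : ℝ) ^ ((r + 1 - c) * (c + 1)) * (C₀ c (r + 1 - c) *
    ∏ p ∈ S, Cp p c (r + 1 - c)) with hK₀
  have hK₀1 : ∀ c, 0 ≤ K₀ c := by
    intro c
    have h1 : 0 ≤ ∏ p ∈ S, Cp p c (r + 1 - c) :=
      Finset.prod_nonneg fun p hp => by linarith [hCp1 p hp c (r + 1 - c)]
    have h2 : 0 ≤ C₀ c (r + 1 - c) := by linarith [hC₀1 c (r + 1 - c)]
    positivity
  refine ⟨1 + ∑ c ∈ Finset.range r, K₀ c, by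
    have : 0 ≤ ∑ c ∈ Finset.range r, K₀ c := Finset.sum_nonneg fun c _ => hK₀1 c
    linarith, ?_⟩
  intro K Y t tp hY ht htp hK
  rcases K.eq_empty_or_nonempty with rfl | hne
  · left; simp
  set Λ : Submodule ℤ ℤ[X] := Submodule.span ℤ (K : Set ℤ[X]) with hΛ
  have hfin : Module.Finite ℤ Λ := Module.Finite.span_of_finite ℤ K.finite_toSet
  have hΛdeg : ∀ f ∈ Λ, f.natDegree ≤ r := by
    intro f hf
    refine Submodule.span_induction (p := fun x _ => x.natDegree ≤ r) ?_ ?_ ?_ ?_ hf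
    · intro x hx; exact (hK x hx).2.1.le
    · simp
    · intro x y _ _ hx hy; exact (natDegree_add_le _ _).trans (max_le hx hy)
    · intro a x _ hx; exact (natDegree_smul_le _ _).trans hx
  set k := finrank ℤ Λ with hk
  let b : Basis (Fin k) ℤ Λ := Module.finBasis ℤ Λ
  set E : Finset Λ := Finset.image (fun f : {x // x ∈ K} =>
    (⟨(f : ℤ[X]), Submodule.subset_span f.2⟩ : Λ)) K.attach with hE
  have hEcard : E.card = K.card := by
    rw [hE, Finset.card_image_of_injective _ (fun a b hab => by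
      have := congrArg (fun x : Λ => (x : ℤ[X])) hab
      exact Subtype.ext this), Finset.card_attach]
  have hEK : ∀ x ∈ E, (x : ℤ[X]) ∈ K := by
    intro x hx
    obtain ⟨f, _, rfl⟩ := Finset.mem_image.1 hx
    exact f.2
  have hspan : Submodule.span ℤ (E : Set Λ) = ⊤ := by
    rw [eq_top_iff]
    rintro ⟨x, hx⟩ -
    refine Submodule.span_induction (p := fun x hx => (⟨x, hx⟩ : Λ) ∈
      Submodule.span ℤ (E : Set Λ)) ?_ ?_ ?_ ?_ hx
    · intro x hxK
      refine Submodule.subset_span ?_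
      rw [hE, Finset.mem_coe, Finset.mem_image]
      exact ⟨⟨x, hxK⟩, Finset.mem_attach _ _, rfl⟩
    · exact Submodule.zero_mem _
    · intro x y hx hy h1 h2; exact Submodule.add_mem _ h1 h2
    · intro a x hx h1; exact Submodule.smul_mem _ a h1
  obtain ⟨v₀, hv₀, hv₀d⟩ := exists_not_dvd b (E : Set Λ) hspan 2 Nat.prime_two
  have hv₀' : b.det v₀ ≠ 0 := fun h => hv₀d (by rw [h]; exact dvd_zero _)
  -- independence over `ℚ`
  have hbZ : LinearIndependent ℤ (fun i => ((b i : Λ) : ℤ[X])) :=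
    b.linearIndependent.map' Λ.subtype (Submodule.ker_subtype _)
  have hbQ : LinearIndependent ℚ (fun i => ((b i : Λ) : ℤ[X]).map (Int.castRingHom ℚ)) := by
    rw [← LinearIndependent.iff_fractionRing ℤ ℚ]
    have h1 := hbZ.map' ((Polynomial.mapRingHom (Int.castRingHom ℚ)).toAddMonoidHom.toIntLinearMap)
      (LinearMap.ker_eq_bot.2 (Polynomial.map_injective _ Int.cast_injective))
    exact h1
  have hbdeg : ∀ i, ((b i : Λ) : ℤ[X]).natDegree ≤ r := fun i => hΛdeg _ (b i).2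
  have hkr : k ≤ r + 1 := by
    have h1 : ∀ i, ((b i : Λ) : ℤ[X]).map (Int.castRingHom ℚ) ∈ degreeLT ℚ (r + 1) := by
      intro i
      rw [mem_degreeLT]
      refine lt_of_le_of_lt degree_le_natDegree ?_
      exact_mod_cast Nat.lt_succ_of_le (natDegree_map_le.trans (hbdeg i))
    have h2 : LinearIndependent ℚ (fun i => (⟨((b i : Λ) : ℤ[X]).map (Int.castRingHom ℚ), h1 i⟩ :
        degreeLT ℚ (r + 1))) :=
      LinearIndependent.of_comp (degreeLT ℚ (r + 1)).subtype hbQ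
    have h3 := h2.fintype_card_le_finrank
    rw [Fintype.card_fin, (degreeLTEquiv ℚ (r + 1)).finrank_eq] at h3
    simpa using h3
  have hrepr : ∀ x : Λ, (x : ℤ[X]) = ∑ i, b.repr x i • ((b i : Λ) : ℤ[X]) := by
    intro x
    conv_lhs => rw [← b.sum_repr x]
    simp only [AddSubmonoidClass.coe_finsetSum, SetLike.val_smul]
  rcases Nat.lt_or_ge k 2 with hk2 | hk2
  · left
    rcases Nat.lt_or_ge k 1 with hk1 | hk1
    · refine card_le_two K (fun f hf => ⟨(hK f hf).1, by rw [(hK f hf).2.1]; exact hr⟩) 0 ?_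
      intro f hf
      have h1 := hrepr ⟨f, Submodule.subset_span hf⟩
      refine ⟨0, ?_⟩
      have h2 : IsEmpty (Fin k) := by
        rw [show k = 0 by omega]; infer_instance
      rw [Finset.univ_eq_empty, Finset.sum_empty] at h1
      simpa using h1
    · have hk1' : k = 1 := by omega
      let i₀ : Fin k := ⟨0, by omega⟩
      have huniq : ∀ i : Fin k, i = i₀ := fun i => Fin.ext (by
        have := i.2
        show (i : ℕ) = 0
        omega)
      refine card_le_two K (fun f hf => ⟨(hK f hf).1, by rw [(hK f hf).2.1]; exact hr⟩)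
        ((b i₀ : Λ) : ℤ[X]) ?_
      intro f hf
      have h1 := hrepr ⟨f, Submodule.subset_span hf⟩
      refine ⟨b.repr ⟨f, Submodule.subset_span hf⟩ i₀, ?_⟩
      rw [Finset.sum_eq_single i₀ (fun i _ hi => absurd (huniq i) hi)
        (fun h => absurd (mem_univ _) h)] at h1
      exact h1
  · right
    set c := r + 1 - k with hc
    have hcr : c < r := by omega
    have hkc : k + c = r + 1 := by omega
    have hkc' : r + 1 - c = k := by omega
    obtain ⟨f₀, hf₀⟩ := hne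
    obtain ⟨T, e, hdet⟩ := sel r c k hcr hkc
      (fun i => ((b i : Λ) : ℤ[X]).map (Int.castRingHom ℚ)) hbQ
      (fun i => natDegree_map_le.trans (hbdeg i)) (f₀.map (Int.castRingHom ℚ))
      (irr_map (hK f₀ hf₀).1 (by rw [(hK f₀ hf₀).2.1]; exact hr))
      (by rw [natDegree_map_eq_of_injective Int.cast_injective]; exact (hK f₀ hf₀).2.1)
      (by
        have h1 := hrepr ⟨f₀, Submodule.subset_span hf₀⟩
        have h2 : f₀.map (Int.castRingHom ℚ) = ∑ i, ((b.repr ⟨f₀, Submodule.subset_span hf₀⟩ i : ℤ)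
            : ℚ) • ((b i : Λ) : ℤ[X]).map (Int.castRingHom ℚ) := by
          have h3 := congrArg (Polynomial.map (Int.castRingHom ℚ)) h1
          rw [Polynomial.map_sum] at h3
          rw [show f₀.map (Int.castRingHom ℚ) = _ from h3]
          refine Finset.sum_congr rfl fun i _ => ?_
          rw [zsmul_eq_mul, Polynomial.map_mul, Polynomial.map_intCast, smul_eq_C_mul]
          congr 1
        rw [h2]
        exact Submodule.sum_mem _ fun i _ => Submodule.smul_mem _ _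
          (Submodule.subset_span ⟨i, rfl⟩))
    rw [det_BM_map r c k e (Int.castRingHom ℚ) (fun i => ((b i : Λ) : ℤ[X]))] at hdet
    set D : ℤ := (BM ℤ r c k e fun i => ((b i : Λ) : ℤ[X])).det with hD
    have hD0 : D ≠ 0 := by
      intro h; exact hdet (by rw [h]; simp)
    -- the primes
    have hp1 : ∀ p ∈ S, av p D ≤ Cp p c k * ∏ j ∈ Jp p, tp p j := by
      intro p hp
      have h1 := hCp p hp c k T e (fun i => ((b i : Λ) : ℤ[X])) 1 (tp p) zero_le_one (htp p)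
        hbdeg (fun i a => av_le_one p (hS p hp) _) (by
          intro i j hj
          rw [one_mul]
          refine Submodule.span_induction (p := fun x _ => νp p x j ≤ tp p j) ?_ ?_ ?_ ?_ (b i).2
          · intro x hx; exact (hK x hx).2.2.2.2 p hp j hj
          · exact (hzero p hp j).trans (htp p j)
          · intro x y _ _ hx hy; exact (hadd p hp x y j).trans (max_le hx hy)
          · intro a x _ hx; exact (hmul p hp a x j).trans hx)
      rwa [one_pow, one_mul] at h1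
    have hpf := prod_formula' S hS D hD0 (fun p => Cp p c k * ∏ j ∈ Jp p, tp p j) hp1
    -- the determinants
    set Z : ℝ := (C₀ c k * ∏ p ∈ S, Cp p c k) * (Y ^ (k * (c + 1)) *
      ((∏ j ∈ J, t j) * ∏ p ∈ S, ∏ j ∈ Jp p, tp p j)) with hZ
    have hprodt : 0 ≤ ∏ j ∈ J, t j := Finset.prod_nonneg fun j _ => ht j
    have hprodtp : 0 ≤ ∏ p ∈ S, ∏ j ∈ Jp p, tp p j :=
      Finset.prod_nonneg fun p _ => Finset.prod_nonneg fun j _ => htp p j
    have hprodC : 0 ≤ ∏ p ∈ S, Cp p c k :=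
      Finset.prod_nonneg fun p hp => by linarith [hCp1 p hp c k]
    have hC₀0 : 0 ≤ C₀ c k := by linarith [hC₀1 c k]
    have hZ0 : 0 ≤ Z := by rw [hZ]; positivity
    have hdetv : ∀ v : Fin k → Λ, (∀ i, v i ∈ E) → |(b.det v : ℝ)| ^ (c + 1) ≤ Z := by
      intro v hv
      have h1 := det_BM r c k e (fun i => ((b i : Λ) : ℤ[X])) (fun i => ((v i : Λ) : ℤ[X]))
        (b.toMatrix v).transpose (by
          intro i
          rw [hrepr (v i)]
          refine Finset.sum_congr rfl fun i' _ => ?_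
          rw [Matrix.transpose_apply, Basis.toMatrix_apply])
      rw [Matrix.det_transpose, ← Basis.det_apply, ← hD] at h1
      have h2 := hC₀ c k T e (fun i => ((v i : Λ) : ℤ[X])) Y t hY ht (fun i => hΛdeg _ (v i).2)
        (fun i a => (hK _ (hEK _ (hv i))).2.2.1 a)
        (fun i j hj => (hK _ (hEK _ (hv i))).2.2.2.1 j hj)
      rw [h1] at h2
      push_cast at h2
      rw [abs_mul, abs_pow] at h2
      have h3 : 0 ≤ ∏ p ∈ S, Cp p c k * ∏ j ∈ Jp p, tp p j :=
        Finset.prod_nonneg fun p hp => mul_nonneg (by linarith [hCp1 p hp c k])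
          (Finset.prod_nonneg fun j _ => htp p j)
      calc |(b.det v : ℝ)| ^ (c + 1) ≤ |(b.det v : ℝ)| ^ (c + 1) *
            (|(D : ℝ)| * ∏ p ∈ S, (Cp p c k * ∏ j ∈ Jp p, tp p j)) :=
            le_mul_of_one_le_right (by positivity) hpf
        _ = (|(b.det v : ℝ)| ^ (c + 1) * |(D : ℝ)|) *
            ∏ p ∈ S, (Cp p c k * ∏ j ∈ Jp p, tp p j) := by ring
        _ ≤ (C₀ c k * (Y ^ (k * (c + 1)) * ∏ j ∈ J, t j)) *
            ∏ p ∈ S, (Cp p c k * ∏ j ∈ Jp p, tp p j) := mul_le_mul_of_nonneg_right h2 h3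
        _ = Z := by rw [Finset.prod_mul_distrib, hZ]; ring
    set M : ℝ := Z ^ (1 / ((c + 1 : ℕ) : ℝ)) with hM
    have hMZ : M ^ (c + 1) = Z := by
      rw [hM, one_div]; exact Real.rpow_inv_natCast_pow hZ0 (by omega)
    have hM0 : 0 ≤ M := Real.rpow_nonneg hZ0 _
    have h1 := card_le_of_det b E M (fun v hv => by
      refine le_of_pow_le_pow_left₀ (n := c + 1) (by omega) hM0 ?_
      rw [hMZ]; exact hdetv v hv) ⟨v₀, hv₀, hv₀'⟩
    rw [hEcard] at h1
    refine ⟨c, hcr, ?_⟩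
    have h2 : (K.card : ℝ) ^ (c + 1) ≤ (5 ^ k * M) ^ (c + 1) :=
      pow_le_pow_left₀ (Nat.cast_nonneg _) h1 _
    rw [mul_pow, hMZ, ← pow_mul] at h2
    refine h2.trans ?_
    rw [hkc']
    have h3 : 0 ≤ Y ^ (k * (c + 1)) * ((∏ j ∈ J, t j) * ∏ p ∈ S, ∏ j ∈ Jp p, tp p j) := by
      positivity
    have h4 : 5 ^ (k * (c + 1)) * Z = K₀ c * (Y ^ (k * (c + 1)) *
        ((∏ j ∈ J, t j) * ∏ p ∈ S, ∏ j ∈ Jp p, tp p j)) := by
      rw [hZ, hK₀]
      simp only [hkc']
      ring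
    rw [h4]
    refine mul_le_mul_of_nonneg_right ?_ h3
    have h5 : K₀ c ≤ ∑ c ∈ Finset.range r, K₀ c :=
      Finset.single_le_sum (f := K₀) (fun c _ => hK₀1 c) (Finset.mem_range.2 hcr)
    linarith

end Pool.Agent.R337.VG
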