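import Mathlib
import Pool.Agent.R337.VG.LC

set_option autoImplicit false

namespace Pool.Agent.R337.VG

open Polynomial Finset Module
open Pool.Agent.H990R4.VJ.Red (fm exists_upper exists_gp norm_int_padic)
open Pool.Agent.W226.VQ (av av_nonneg av_le_one)

section field

variable {F : Type*} [NormedField F]

lemma fm_add (r : ℕ) (f g : ℤ[X]) (P : F × F) : fm r (f + g) P = fm r f P + fm r g P := by
  unfold fm
  rw [← Finset.sum_add_distrib]
  refine Finset.sum_congr rfl fun i _ => ?_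
  rw [coeff_add]; push_cast; ring

lemma fm_smul (r : ℕ) (n : ℤ) (f : ℤ[X]) (P : F × F) : fm r (n • f) P = (n : F) * fm r f P := by
  unfold fm
  rw [Finset.mul_sum]
  refine Finset.sum_congr rfl fun i _ => ?_
  rw [coeff_smul, smul_eq_mul]; push_cast; ring

lemma fm_zero (r : ℕ) (P : F × F) : fm r 0 P = 0 := by
  unfold fm
  simp

/-- approximation class of a polynomial at a place -/
lemma class_at (r q : ℕ) (P : Fin q → F × F)
    (hdist : ∀ i j, i ≠ j → (P i).1 * (P j).2 ≠ (P j).1 * (P i).2) :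
    ∃ W : ℝ, 0 ≤ W ∧ ∀ (f : ℤ[X]) (s : ℝ), 0 < s → (∀ i : Fin (r + 1), ‖(f.coeff i : F)‖ ≤ s) →
      (∃ i : Fin (r + 1), s ≤ ‖(f.coeff i : F)‖) → (∀ j, fm r f (P j) ≠ 0) →
      ∀ (lam : ℝ) (N₀ : ℕ), 0 < lam → ∃ (J : Finset (Fin q)) (a : Fin q → ℕ), J.card ≤ r ∧
        (∀ j, a j ≤ N₀) ∧ (∀ j ∈ J, ‖fm r f (P j)‖ ≤ s * Real.exp (-(lam * a j))) ∧
        min (N₀ * lam) (q * Real.log s - ∑ j, Real.log ‖fm r f (P j)‖ - q * lam - W) ≤
          ∑ j ∈ J, lam * a j := by
  classical
  obtain ⟨K, hK1, hK⟩ := exists_gp r q P hdist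
  have hK0 : 0 < K := by linarith
  refine ⟨q * Real.log (2 * K), mul_nonneg (Nat.cast_nonneg _) (Real.log_nonneg (by linarith)), ?_⟩
  intro f s hs0 hs1 hs2 hne lam N₀ hlam
  set η : ℝ := s / (2 * K) with hη
  have hη0 : 0 < η := by positivity
  set J : Finset (Fin q) := Finset.univ.filter fun j => ‖fm r f (P j)‖ ≤ η with hJ
  have hJr : J.card ≤ r := by
    by_contra hcon
    push Not at hcon
    obtain ⟨J', hJ', hJ'c⟩ := Finset.exists_subset_card_eq (n := r + 1) hcon
    obtain ⟨i₀, hi₀⟩ := hs2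
    have h1 := hK f (fun k => (J'.orderEmbOfFin hJ'c k)) (fun a b hab => by simpa using hab) η (by
      intro j
      have h2 := hJ' (Finset.orderEmbOfFin_mem J' hJ'c j)
      exact (Finset.mem_filter.1 h2).2) i₀
    have h3 : K * η = s / 2 := by
      rw [hη]; field_simp
    rw [h3] at h1
    linarith
  have hpos : ∀ j, 0 < ‖fm r f (P j)‖ := fun j => norm_pos_iff.2 (hne j)
  set y : Fin q → ℝ := fun j => Real.log s - Real.log ‖fm r f (P j)‖ with hy
  set a : Fin q → ℕ := fun j => min N₀ ⌊y j / lam⌋₊ with ha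
  have hyJ : ∀ j ∈ J, 0 ≤ y j := by
    intro j hj
    have h1 := (Finset.mem_filter.1 hj).2
    have h2 : ‖fm r f (P j)‖ ≤ s := h1.trans (by
      rw [hη, div_le_iff₀ (by positivity)]; nlinarith)
    have := Real.log_le_log (hpos j) h2
    simp only [hy]; linarith
  refine ⟨J, a, hJr, fun j => min_le_left _ _, ?_, ?_⟩
  · intro j hj
    have h1 : lam * a j ≤ y j := by
      have h2 : (a j : ℝ) ≤ y j / lam := by
        refine le_trans ?_ (Nat.floor_le (div_nonneg (hyJ j hj) hlam.le))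
        exact_mod_cast min_le_right _ _
      rw [le_div_iff₀ hlam] at h2
      linarith
    have h3 : Real.log ‖fm r f (P j)‖ ≤ Real.log (s * Real.exp (-(lam * a j))) := by
      rw [Real.log_mul hs0.ne' (Real.exp_pos _).ne', Real.log_exp]
      simp only [hy] at h1
      linarith
    exact (Real.log_le_log_iff (hpos j) (by positivity)).1 h3
  · have hsum0 : ∀ j ∈ J, 0 ≤ lam * a j := fun j _ => by positivity
    by_cases hcap : ∃ j ∈ J, a j = N₀
    · obtain ⟨j, hj, hja⟩ := hcap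
      refine (min_le_left _ _).trans ?_
      have h1 := Finset.single_le_sum hsum0 hj
      rw [hja] at h1
      linarith
    · push Not at hcap
      refine (min_le_right _ _).trans ?_
      have h1 : ∀ j ∈ J, y j - lam ≤ lam * a j := by
        intro j hj
        have h2 : a j = ⌊y j / lam⌋₊ := by
          have := hcap j hj
          simp only [ha] at this ⊢
          omega
        have h3 := Nat.lt_floor_add_one (y j / lam)
        rw [← h2, div_lt_iff₀ hlam] at h3
        linarith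
      have h2 : ∑ j ∈ J, (y j - lam) ≤ ∑ j ∈ J, lam * a j := Finset.sum_le_sum h1
      have h3 : ∀ j ∈ (Finset.univ \ J), y j ≤ Real.log (2 * K) := by
        intro j hj
        have h4 : η < ‖fm r f (P j)‖ := by
          by_contra hcon
          push Not at hcon
          exact (Finset.mem_sdiff.1 hj).2 (Finset.mem_filter.2 ⟨mem_univ _, hcon⟩)
        have h5 := Real.log_le_log hη0 h4.le
        rw [hη, Real.log_div hs0.ne' (by positivity)] at h5
        simp only [hy]; linarith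
      have hlogK : 0 ≤ Real.log (2 * K) := Real.log_nonneg (by linarith)
      have h5 : ∑ j ∈ Finset.univ \ J, y j ≤ q * Real.log (2 * K) := by
        refine (Finset.sum_le_card_nsmul _ _ _ h3).trans ?_
        rw [nsmul_eq_mul]
        refine mul_le_mul_of_nonneg_right ?_ hlogK
        have := Finset.card_le_univ (Finset.univ \ J)
        rw [Fintype.card_fin] at this
        exact_mod_cast this
      have h6 : ∑ j, y j = ∑ j ∈ Finset.univ \ J, y j + ∑ j ∈ J, y j :=
        (Finset.sum_sdiff (Finset.subset_univ J)).symm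
      have h7 : ∑ j, y j = q * Real.log s - ∑ j, Real.log ‖fm r f (P j)‖ := by
        simp only [hy]
        rw [Finset.sum_sub_distrib, Finset.sum_const, Finset.card_univ, Fintype.card_fin,
          nsmul_eq_mul]
      have h8 : ∑ j ∈ J, (y j - lam) = ∑ j ∈ J, y j - J.card * lam := by
        rw [Finset.sum_sub_distrib, Finset.sum_const, nsmul_eq_mul]
      have h9 : (J.card : ℝ) ≤ q := by
        have := Finset.card_le_univ J
        rw [Fintype.card_fin] at this
        exact_mod_cast this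
      nlinarith

lemma ne_zero_of_dist {q : ℕ} (hq : 2 ≤ q) (P : Fin q → F × F)
    (hdist : ∀ i j, i ≠ j → (P i).1 * (P j).2 ≠ (P j).1 * (P i).2) (i : Fin q) : P i ≠ 0 := by
  intro h
  have : ∃ j : Fin q, i ≠ j := by
    by_cases h0 : i = ⟨0, by omega⟩
    · refine ⟨⟨1, by omega⟩, ?_⟩
      rw [h0]; intro h1; simp at h1
    · exact ⟨_, h0⟩
  obtain ⟨j, hj⟩ := this
  apply hdist i j hj
  rw [h]; simp

end field

lemma good_complex (r : ℕ) {q : ℕ} (P : Fin q → ℂ × ℂ) (hP0 : ∀ i, P i ≠ 0)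
    (hdist : ∀ i j, i ≠ j → (P i).1 * (P j).2 ≠ (P j).1 * (P i).2) (J : Finset (Fin q))
    (hJ : J.card ≤ r) : Good r (fun n => |(n : ℝ)|) (fun f j => ‖fm r f (P j)‖) J := by
  intro c k
  obtain ⟨C, hC1, hC⟩ := local_det P hP0 hdist r c k J (by omega)
  refine ⟨C, hC1, fun T e b Y t hY ht hb hbY hbJ => ?_⟩
  have h1 := hC T e b Y t hY ht hb (fun i a => by rw [Complex.norm_intCast]; exact hbY i a) hbJ
  rwa [Complex.norm_intCast] at h1

lemma norm_eq_av (p : ℕ) [hp : Fact p.Prime] (n : ℤ) : ‖(n : PadicAlgCl p)‖ = av p n := by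
  rw [norm_int_padic]
  unfold av
  rw [← Padic.eq_padicNorm]
  push_cast; rfl

lemma good_padic (p : ℕ) [hp : Fact p.Prime] (r : ℕ) {q : ℕ}
    (P : Fin q → PadicAlgCl p × PadicAlgCl p) (hP0 : ∀ i, P i ≠ 0)
    (hdist : ∀ i j, i ≠ j → (P i).1 * (P j).2 ≠ (P j).1 * (P i).2) (J : Finset (Fin q))
    (hJ : J.card ≤ r) : Good r (av p) (fun f j => ‖fm r f (P j)‖) J := by
  intro c k
  obtain ⟨C, hC1, hC⟩ := local_det P hP0 hdist r c k J (by omega)
  refine ⟨C, hC1, fun T e b Y t hY ht hb hbY hbJ => ?_⟩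
  have h1 := hC T e b Y t hY ht hb (fun i a => by rw [norm_eq_av]; exact hbY i a) hbJ
  rwa [norm_eq_av] at h1

lemma padic_add (p : ℕ) [hp : Fact p.Prime] (r : ℕ) (P : PadicAlgCl p × PadicAlgCl p)
    (f g : ℤ[X]) : ‖fm r (f + g) P‖ ≤ max ‖fm r f P‖ ‖fm r g P‖ := by
  rw [fm_add]
  exact IsUltrametricDist.norm_add_le_max _ _

lemma padic_smul (p : ℕ) [hp : Fact p.Prime] (r : ℕ) (P : PadicAlgCl p × PadicAlgCl p)
    (n : ℤ) (f : ℤ[X]) : ‖fm r (n • f) P‖ ≤ ‖fm r f P‖ := by
  rw [fm_smul, norm_mul, norm_eq_av]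
  exact mul_le_of_le_one_left (norm_nonneg _) (av_le_one p hp.out n)

end Pool.Agent.R337.VG
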