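import Mathlib
import Pool.Agent.R337.VG.Place

set_option autoImplicit false

namespace Pool.Agent.R337.VG

open Polynomial Finset Module
open Pool.Agent.H990R4.VJ.Red (fm exists_points)
open Pool.Agent.W226.VQ (av av_nonneg av_le_one)

/-- The data of a place: `nv` is the absolute value, `ν f j` the absolute value of `f` at the `j`-th
point. -/
def PlaceData (r q : ℕ) (G : ℤ[X]) (nv : ℤ → ℝ) (ν : ℤ[X] → Fin q → ℝ) (W : ℝ) : Prop :=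
  0 ≤ W ∧ (∀ J : Finset (Fin q), J.card ≤ r → Good r nv ν J) ∧
  ∀ f : ℤ[X], f.natDegree ≤ r → resultant f G r q ≠ 0 → ∀ s : ℝ, 0 < s →
    (∀ i : Fin (r + 1), nv (f.coeff i) ≤ s) → (∃ i : Fin (r + 1), s ≤ nv (f.coeff i)) →
    ∀ (lam : ℝ) (N₀ : ℕ), 0 < lam → ∃ (J : Finset (Fin q)) (a : Fin q → ℕ), J.card ≤ r ∧
        (∀ j, a j ≤ N₀) ∧ (∀ j ∈ J, ν f j ≤ s * Real.exp (-(lam * a j))) ∧
        min (N₀ * lam) (q * Real.log s - Real.log (nv (resultant f G r q)) - q * lam - W) ≤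
          ∑ j ∈ J, lam * a j

lemma class_field {F : Type*} [NormedField F] [IsAlgClosed F] [CharZero F] (r q : ℕ)
    (G : ℤ[X]) (P : Fin q → F × F)
    (hdist : ∀ i j, i ≠ j → (P i).1 * (P j).2 ≠ (P j).1 * (P i).2) (c : F) (hc : c ≠ 0)
    (hres : ∀ f : ℤ[X], f.natDegree ≤ r →
        ((resultant f G r q : ℤ) : F) = c * ∏ j, fm r f (P j)) :
    ∃ W : ℝ, 0 ≤ W ∧ ∀ f : ℤ[X], f.natDegree ≤ r → resultant f G r q ≠ 0 → ∀ s : ℝ, 0 < s →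
    (∀ i : Fin (r + 1), ‖(f.coeff i : F)‖ ≤ s) → (∃ i : Fin (r + 1), s ≤ ‖(f.coeff i : F)‖) →
    ∀ (lam : ℝ) (N₀ : ℕ), 0 < lam → ∃ (J : Finset (Fin q)) (a : Fin q → ℕ), J.card ≤ r ∧
        (∀ j, a j ≤ N₀) ∧ (∀ j ∈ J, ‖fm r f (P j)‖ ≤ s * Real.exp (-(lam * a j))) ∧
        min (N₀ * lam) (q * Real.log s - Real.log ‖((resultant f G r q : ℤ) : F)‖ - q * lam - W) ≤
          ∑ j ∈ J, lam * a j := by
  obtain ⟨W, hW0, hW⟩ := class_at r q P hdist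
  refine ⟨W + |Real.log ‖c‖|, by positivity, ?_⟩
  intro f hf hR s hs0 hs1 hs2 lam N₀ hlam
  have hR' : ((resultant f G r q : ℤ) : F) ≠ 0 := by exact_mod_cast hR
  rw [hres f hf] at hR'
  have hprod : ∏ j, fm r f (P j) ≠ 0 := right_ne_zero_of_mul hR'
  have hne : ∀ j, fm r f (P j) ≠ 0 := fun j => (Finset.prod_ne_zero_iff.1 hprod) j (mem_univ _)
  obtain ⟨J, a, h1, h2, h3, h4⟩ := hW f s hs0 hs1 hs2 hne lam N₀ hlam
  refine ⟨J, a, h1, h2, h3, le_trans (min_le_min le_rfl ?_) h4⟩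
  rw [hres f hf, norm_mul, norm_prod, Real.log_mul (norm_pos_iff.2 hc).ne'
    (Finset.prod_ne_zero_iff.2 fun j _ => (norm_pos_iff.2 (hne j)).ne'),
    Real.log_prod fun j _ => (norm_pos_iff.2 (hne j)).ne']
  have := neg_abs_le (Real.log ‖c‖)
  linarith

lemma data_complex (r q : ℕ) (hq : 2 ≤ q) (G : ℤ[X]) (hG : G ≠ 0)
    (hsep : (G.map (Int.castRingHom ℚ)).Separable) (h1 : G.natDegree ≤ q)
    (h2 : q ≤ G.natDegree + 1) :
    ∃ (ν : ℤ[X] → Fin q → ℝ) (W : ℝ), PlaceData r q G (fun n => |(n : ℝ)|) ν W := by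
  obtain ⟨P, hdist, c, hc, hres⟩ := exists_points (F := ℂ) G hG hsep q h1 h2 r
  obtain ⟨W, hW0, hW⟩ := class_field r q G P hdist c hc hres
  refine ⟨fun f j => ‖fm r f (P j)‖, W, hW0, fun J hJ =>
    good_complex r P (ne_zero_of_dist hq P hdist) hdist J hJ, ?_⟩
  intro f hf hR s hs0 hs1 hs2 lam N₀ hlam
  have h3 := hW f hf hR s hs0 (fun i => by rw [Complex.norm_intCast]; exact hs1 i) (by
    obtain ⟨i, hi⟩ := hs2
    exact ⟨i, by rw [Complex.norm_intCast]; exact hi⟩) lam N₀ hlam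
  rw [Complex.norm_intCast] at h3
  exact h3

lemma data_padic (p : ℕ) (hp : p.Prime) (r q : ℕ) (hq : 2 ≤ q) (G : ℤ[X]) (hG : G ≠ 0)
    (hsep : (G.map (Int.castRingHom ℚ)).Separable) (h1 : G.natDegree ≤ q)
    (h2 : q ≤ G.natDegree + 1) :
    ∃ (ν : ℤ[X] → Fin q → ℝ) (W : ℝ), PlaceData r q G (av p) ν W ∧
      (∀ (f g : ℤ[X]) (j : Fin q), ν (f + g) j ≤ max (ν f j) (ν g j)) ∧
      (∀ (n : ℤ) (f : ℤ[X]) (j : Fin q), ν (n • f) j ≤ ν f j) ∧ (∀ j : Fin q, ν 0 j ≤ 0) := by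
  have : Fact p.Prime := ⟨hp⟩
  obtain ⟨P, hdist, c, hc, hres⟩ := exists_points (F := PadicAlgCl p) G hG hsep q h1 h2 r
  obtain ⟨W, hW0, hW⟩ := class_field r q G P hdist c hc hres
  refine ⟨fun f j => ‖fm r f (P j)‖, W, ⟨hW0, fun J hJ =>
    good_padic p r P (ne_zero_of_dist hq P hdist) hdist J hJ, ?_⟩, fun f g j =>
    padic_add p r (P j) f g, fun n f j => padic_smul p r (P j) n f, fun j => ?_⟩
  · intro f hf hR s hs0 hs1 hs2 lam N₀ hlam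
    have h3 := hW f hf hR s hs0 (fun i => by rw [norm_eq_av]; exact hs1 i) (by
      obtain ⟨i, hi⟩ := hs2
      exact ⟨i, by rw [norm_eq_av]; exact hi⟩) lam N₀ hlam
    rw [norm_eq_av] at h3
    exact h3
  · show ‖fm r 0 (P j)‖ ≤ 0
    rw [fm_zero, norm_zero]

end Pool.Agent.R337.VG
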