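import Mathlib
import Pool.Agent.H990R4.VJ.D

set_option autoImplicit false

namespace Pool.Agent.R337.VG

open Polynomial Finset Module NumberField NumberField.InfinitePlace NumberField.mixedEmbedding
open scoped NNReal ENNReal IntermediateField
open Pool.Agent.H990R4.VJ (mm one_le_mm mm_eq coeff_le)

section

variable (K : Type*) [Field K] [NumberField K]

lemma mink_le (r : ℕ) (hr : finrank ℚ K = r) (Y : ℝ≥0) (hY : |(discr K : ℝ)| ≤ Y) :
    minkowskiBound K ↑1 ≤ ((2 ^ r * NNReal.sqrt Y : ℝ≥0) : ℝ≥0∞) := by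
  classical
  rw [minkowskiBound, volume_fundamentalDomain_fractionalIdealLatticeBasis,
    Units.val_one, FractionalIdeal.absNorm_one, Rat.cast_one,
    ENNReal.ofReal_one, one_mul, mixedEmbedding.finrank, volume_fundamentalDomain_latticeBasis,
    ENNReal.coe_mul, ENNReal.coe_pow, ENNReal.coe_ofNat, hr, mul_comm]
  gcongr
  rw [show NNReal.sqrt Y = (1 : ℝ≥0∞) * NNReal.sqrt Y by rw [one_mul]]
  gcongr
  · exact pow_le_one₀ (by positivity) (by simp)
  · rw [← NNReal.coe_le_coe, coe_nnnorm, Int.norm_eq_abs]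
    exact_mod_cast hY

lemma box_one (w₀ : InfinitePlace K) (B : ℝ≥0) (hB : minkowskiBound K ↑1 < B) :
    ∃ a : 𝓞 K, a ≠ 0 ∧ (∀ w : InfinitePlace K, w ≠ w₀ → w a < 1) ∧ w₀ a ^ mult w₀ < B := by
  classical
  obtain ⟨g, hg1, hg2⟩ := adjust_f K (f := fun _ => 1) (w₁ := w₀) B (fun _ _ => one_ne_zero)
  have h1 : minkowskiBound K ↑1 < MeasureTheory.volume (convexBodyLT K g) := by
    rw [convexBodyLT_volume, hg2]
    refine hB.trans_le ?_
    conv_lhs => rw [← one_mul (B : ℝ≥0∞)]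
    gcongr
    exact_mod_cast one_le_convexBodyLTFactor K
  obtain ⟨a, ha0, ha⟩ := exists_ne_zero_mem_ringOfIntegers_lt K h1
  refine ⟨a, ha0, fun w hw => ?_, ?_⟩
  · have := ha w
    rw [hg1 w hw] at this
    simpa using this
  · have h2 : (g w₀ : ℝ≥0) ^ mult w₀ = B := by
      rw [← hg2, ← Finset.mul_prod_erase _ _ (Finset.mem_univ w₀), Finset.prod_eq_one, mul_one]
      intro w hw
      rw [hg1 w (Finset.ne_of_mem_erase hw), one_pow]
    rw [← h2, NNReal.coe_pow]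
    exact pow_lt_pow_left₀ (ha w₀) (apply_nonneg _ _) (mult_ne_zero)

lemma box_two (w₀ : InfinitePlace K) (hw₀ : IsComplex w₀) (r : ℕ) (hr : finrank ℚ K = r)
    (B : ℝ≥0) (hB : minkowskiBound K ↑1 < B) :
    ∃ a : 𝓞 K, a ≠ 0 ∧ (∀ w : InfinitePlace K, w ≠ w₀ → w a < 1 / 2) ∧
      |(w₀.embedding a).re| < 1 ∧ |(w₀.embedding a).im| < 2 ^ r * B := by
  classical
  obtain ⟨g, hg1, hg2⟩ := adjust_f K (f := fun _ => 2⁻¹) (w₁ := w₀) B
    (fun _ _ => by norm_num)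
  have h1 : minkowskiBound K ↑1 < MeasureTheory.volume (convexBodyLT' K g ⟨w₀, hw₀⟩) := by
    rw [convexBodyLT'_volume, hg2]
    refine hB.trans_le ?_
    conv_lhs => rw [← one_mul (B : ℝ≥0∞)]
    gcongr
    exact_mod_cast one_le_convexBodyLT'Factor K
  obtain ⟨a, ha0, ha1, ha2, ha3⟩ := exists_ne_zero_mem_ringOfIntegers_lt' K ⟨w₀, hw₀⟩ h1
  refine ⟨a, ha0, fun w hw => ?_, ha2, ha3.trans_le ?_⟩
  · have := ha1 w hw
    rw [hg1 w hw] at this
    simpa using this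
  · have h2 : (g w₀ : ℝ≥0) ^ 2 * ∏ w ∈ Finset.univ.erase w₀, (2⁻¹ : ℝ≥0) ^ mult w = B := by
      rw [← hg2, ← Finset.mul_prod_erase _ _ (Finset.mem_univ w₀)]
      congr 1
      · rw [mult, if_neg (not_isReal_iff_isComplex.2 hw₀)]
      · refine Finset.prod_congr rfl fun w hw => ?_
        rw [hg1 w (Finset.ne_of_mem_erase hw)]
    have h3 : (2⁻¹ : ℝ≥0) ^ r ≤ ∏ w ∈ Finset.univ.erase w₀, (2⁻¹ : ℝ≥0) ^ mult w := by
      rw [Finset.prod_pow_eq_pow_sum]
      refine pow_le_pow_of_le_one (by positivity) (by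
        rw [← NNReal.coe_le_coe]; norm_num) ?_
      rw [← hr, ← sum_mult_eq]
      exact Finset.sum_le_sum_of_subset (Finset.erase_subset _ _)
    have h4 : (g w₀ : ℝ≥0) ^ 2 * (2⁻¹ : ℝ≥0) ^ r ≤ B := by
      rw [← h2]; gcongr
    have h5 : ((g w₀ : ℝ≥0) : ℝ) ^ 2 * (2⁻¹ : ℝ) ^ r ≤ B := by exact_mod_cast h4
    have h6 : (0 : ℝ) < 2 ^ r := by positivity
    rw [inv_pow, ← div_eq_mul_inv, div_le_iff₀ h6] at h5
    rw [mul_comm]; exact h5

lemma prim_nonreal {x : 𝓞 K} {w : InfinitePlace K} (h₁ : x ≠ 0)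
    (h₂ : ∀ ⦃w' : InfinitePlace K⦄, w' ≠ w → w' x < 1)
    (h₃ : (w.embedding x).im ≠ 0) : ℚ⟮(x : K)⟯ = ⊤ := by
  rw [Field.primitive_element_iff_algHom_eq_of_eval ℚ ℂ ?_ _ w.embedding.toRatAlgHom]
  · intro ψ hψ
    have h : 1 ≤ w x := one_le_of_lt_one h₁ h₂
    have main : w = InfinitePlace.mk ψ.toRingHom := by
      simp at hψ
      rw [← norm_embedding_eq, hψ] at h
      contrapose! h
      exact h₂ h.symm
    rw [(mk_embedding w).symm, mk_eq_iff] at main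
    refine congr_arg RingHom.toRatAlgHom (main.resolve_right fun h' ↦ h₃ ?_)
    rw [← Complex.conj_eq_iff_im]
    have := RingHom.congr_fun h' x
    simp at this
    rw [this]
    exact hψ.symm
  · exact fun x ↦ IsAlgClosed.splits _

end

end Pool.Agent.R337.VG
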