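import Mathlib
import Pool.Agent.R337.VG.FieldBox

set_option autoImplicit false

namespace Pool.Agent.R337.VG

open Polynomial Finset Module NumberField NumberField.InfinitePlace NumberField.mixedEmbedding
open scoped NNReal ENNReal IntermediateField
open Pool.Agent.H990R4.VJ (mm one_le_mm mm_eq coeff_le)

section

variable (K : Type*) [Field K] [NumberField K]

lemma minpoly_map (a : 𝓞 K) :
    (minpoly ℤ (a : K)).map (algebraMap ℤ ℚ) = minpoly ℚ (a : K) :=
  (minpoly.isIntegrallyClosed_eq_field_fractions' ℚ a.isIntegral_coe).symm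

lemma minpoly_natDegree (r : ℕ) (hr : finrank ℚ K = r) (a : 𝓞 K) (h : ℚ⟮(a : K)⟯ = ⊤) :
    natDegree (minpoly ℤ (a : K)) = r := by
  rw [Field.primitive_element_iff_minpoly_natDegree_eq,
    minpoly.isIntegrallyClosed_eq_field_fractions' ℚ a.isIntegral_coe,
    (minpoly.monic a.isIntegral_coe).natDegree_map] at h
  rw [h, hr]

lemma mm_minpoly_le (a : 𝓞 K) (w₀ : InfinitePlace K)
    (h : ∀ w : InfinitePlace K, w ≠ w₀ → w a ≤ 1) :
    mm (minpoly ℤ (a : K)) ≤ max 1 (w₀ a) ^ mult w₀ := by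
  classical
  have hmon : (minpoly ℤ (a : K)).Monic := minpoly.monic a.isIntegral_coe
  have hsep : ((minpoly ℤ (a : K)).map (Int.castRingHom ℂ)).Separable := by
    have h1 : (minpoly ℤ (a : K)).map (Int.castRingHom ℂ) =
        (minpoly ℚ (a : K)).map (algebraMap ℚ ℂ) := by
      rw [← minpoly_map, Polynomial.map_map]
      congr 1
    rw [h1]
    exact (Irreducible.separable (minpoly.irreducible
      (IsIntegral.of_finite ℚ (a : K)))).map
  have hroot : ∀ z ∈ ((minpoly ℤ (a : K)).map (Int.castRingHom ℂ)).roots,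
      ∃ σ : K →+* ℂ, σ a = z := by
    intro z hz
    have h1 : (minpoly ℤ (a : K)).map (Int.castRingHom ℂ) =
        (minpoly ℚ (a : K)).map (algebraMap ℚ ℂ) := by
      rw [← minpoly_map, Polynomial.map_map]
      congr 1
    rw [h1] at hz
    have h2 : z ∈ (minpoly ℚ (a : K)).rootSet ℂ := by
      rw [mem_rootSet']
      have h3 := (mem_roots'.1 hz)
      exact ⟨h3.1, by rw [← eval_map_algebraMap]; exact h3.2⟩
    rw [← NumberField.Embeddings.range_eval_eq_rootSet_minpoly K ℂ (a : K)] at h2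
    obtain ⟨σ, hσ⟩ := h2
    exact ⟨σ, hσ⟩
  have hnd : ((minpoly ℤ (a : K)).map (Int.castRingHom ℂ)).roots.Nodup := nodup_roots hsep
  rw [mm_eq, hmon.leadingCoeff]
  set R := ((minpoly ℤ (a : K)).map (Int.castRingHom ℂ)).roots with hR
  have h3 : (R.map fun z => max 1 ‖z‖).prod = ∏ z ∈ R.toFinset, max 1 ‖z‖ := by
    rw [Finset.prod_multiset_map_count]
    refine Finset.prod_congr rfl fun z hz => ?_
    rw [Multiset.count_eq_one_of_mem hnd (Multiset.mem_toFinset.1 hz), pow_one]
  rw [h3]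
  set A : Finset ℂ := (Finset.univ.filter fun σ : K →+* ℂ => mk σ = w₀).image fun σ => σ a with hA
  have hAc : A.card ≤ mult w₀ := by
    rw [← card_filter_mk_eq w₀]
    exact Finset.card_image_le
  have hout : ∀ z ∈ R.toFinset, z ∉ A → max 1 ‖z‖ = 1 := by
    intro z hz hzA
    obtain ⟨σ, hσ⟩ := hroot z (Multiset.mem_toFinset.1 hz)
    have h4 : mk σ ≠ w₀ := by
      intro h4
      exact hzA (Finset.mem_image.2 ⟨σ, by simp [h4], hσ⟩)
    have h5 := h _ h4
    rw [NumberField.InfinitePlace.apply, hσ] at h5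
    exact max_eq_left h5
  have hin : ∀ z ∈ A, max 1 ‖z‖ = max 1 (w₀ a) := by
    intro z hz
    obtain ⟨σ, hσ1, hσ2⟩ := Finset.mem_image.1 hz
    rw [Finset.mem_filter] at hσ1
    rw [← hσ2, ← hσ1.2, NumberField.InfinitePlace.apply]
  have h6 : ∏ z ∈ R.toFinset, max 1 ‖z‖ = ∏ z ∈ R.toFinset ∩ A, max 1 ‖z‖ := by
    symm
    refine Finset.prod_subset Finset.inter_subset_left fun z hz hz2 => hout z hz ?_
    intro h7
    exact hz2 (Finset.mem_inter.2 ⟨hz, h7⟩)
  rw [h6, Finset.prod_congr rfl fun z hz => hin z (Finset.mem_inter.1 hz).2, Finset.prod_const]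
  simp only [Int.cast_one, abs_one, one_mul]
  exact pow_le_pow_right₀ (le_max_left _ _)
    ((Finset.card_le_card Finset.inter_subset_right).trans hAc)

/-- an algebraic integer that is conjugate to its negative has an even or odd minimal
polynomial -/
lemma minpoly_parity (b : 𝓞 K) (c : K →+* K) (hc : c b = - (b : K)) (i : ℕ)
    (hi : Odd ((minpoly ℤ (b : K)).natDegree + i)) : (minpoly ℤ (b : K)).coeff i = 0 := by
  have h1 : minpoly ℚ (-(b : K)) = minpoly ℚ (b : K) := by
    rw [← hc]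
    exact minpoly.algHom_eq c.toRatAlgHom c.injective (b : K)
  rw [minpoly.neg] at h1
  have h2 := congrArg (fun p => coeff p i) h1
  have h3 : ((-1 : ℚ[X]) ^ (minpoly ℚ (b : K)).natDegree * (minpoly ℚ (b : K)).comp (-X)).coeff i =
      (-1) ^ ((minpoly ℚ (b : K)).natDegree + i) * (minpoly ℚ (b : K)).coeff i := by
    rw [show (-1 : ℚ[X]) = C (-1) by simp, ← C_pow, coeff_C_mul, pow_add, mul_assoc]
    congr 1
    rw [show (-X : ℚ[X]) = C (-1) * X by simp, comp_C_mul_X_coeff, mul_comm]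
  rw [h3] at h2
  have h4 : (minpoly ℚ (b : K)).natDegree = (minpoly ℤ (b : K)).natDegree := by
    rw [← minpoly_map, (minpoly.monic b.isIntegral_coe).natDegree_map]
  rw [h4, hi.neg_one_pow] at h2
  have h5 : (minpoly ℚ (b : K)).coeff i = 0 := by linarith
  rw [← minpoly_map, coeff_map] at h5
  simpa using h5

end

end Pool.Agent.R337.VG
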