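import Mathlib
import Pool.Agent.R337.VG.FieldPoly

set_option autoImplicit false

namespace Pool.Agent.R337.VG

open Polynomial Finset Module NumberField NumberField.InfinitePlace NumberField.mixedEmbedding
open scoped NNReal ENNReal IntermediateField
open Pool.Agent.H990R4.VJ (mm one_le_mm mm_eq coeff_le)

set_option backward.isDefEq.respectTransparency false in
lemma adjoin_coe (K : IntermediateField ℚ ℂ) [NumberField K] (a : 𝓞 K) (h : ℚ⟮(a : K)⟯ = ⊤) :
    K = ℚ⟮((a : K) : ℂ)⟯ := by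
  rw [← (IntermediateField.lift_injective _).eq_iff, eq_comm] at h
  convert! h
  · simp only [IntermediateField.lift_top]
  · simp only [IntermediateField.lift_adjoin, Set.image_singleton]

lemma real_of_adjoin (K : Type*) [Field K] [NumberField K] (φ : K →+* ℂ) (a : K)
    (ha : (φ a).im = 0) (x : K) (hx : x ∈ ℚ⟮a⟯) : (φ x).im = 0 := by
  induction hx using IntermediateField.adjoin_induction with
  | mem x hx => rw [Set.mem_singleton_iff] at hx; rw [hx, ha]
  | algebraMap x => simp
  | add x y hx hy h1 h2 => rw [map_add, Complex.add_im, h1, h2, add_zero]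
  | inv x hx h1 => rw [map_inv₀, Complex.inv_im, h1]; simp
  | mul x y hx hy h1 h2 => rw [map_mul, Complex.mul_im, h1, h2]; simp

/-- a field with at most two embeddings over a real element is stable under conjugation -/
lemma conj_stable (K : Type*) [Field K] [NumberField K] (φ : K →+* ℂ) (a : K)
    (ha : (φ a).im = 0)
    (h : ∀ τ : K →+* ℂ, τ a = φ a → τ = φ ∨ τ = (starRingEnd ℂ).comp φ) (y : K) :
    ∃ y' : K, φ y' = (starRingEnd ℂ) (φ y) := by
  classical
  let _ : Algebra ℚ⟮a⟯ ℂ := (φ.comp (algebraMap ℚ⟮a⟯ K)).toAlgebra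
  have hinj : Function.Injective (fun τ : K →ₐ[ℚ⟮a⟯] ℂ => (τ : K →+* ℂ)) := by
    intro τ τ' h1
    exact AlgHom.coe_ringHom_injective h1
  have hcard : Fintype.card (K →ₐ[ℚ⟮a⟯] ℂ) ≤ 2 := by
    have h1 : (Finset.univ.image (fun τ : K →ₐ[ℚ⟮a⟯] ℂ => (τ : K →+* ℂ))) ⊆
        {φ, (starRingEnd ℂ).comp φ} := by
      intro τ hτ
      obtain ⟨σ, -, rfl⟩ := Finset.mem_image.1 hτ
      have h2 := h (σ : K →+* ℂ) (by
        have := σ.commutes ⟨a, IntermediateField.mem_adjoin_simple_self ℚ a⟩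
        exact this)
      rw [Finset.mem_insert, Finset.mem_singleton]
      exact h2
    have h2 := Finset.card_le_card h1
    rw [Finset.card_image_of_injective _ hinj, Finset.card_univ] at h2
    exact h2.trans Finset.card_le_two
  rw [AlgHom.card] at hcard
  have hint : IsIntegral ℚ⟮a⟯ y := IsIntegral.of_finite _ _
  have hdeg : (minpoly ℚ⟮a⟯ y).natDegree ≤ 2 := (minpoly.natDegree_le y).trans hcard
  have hpos : 0 < (minpoly ℚ⟮a⟯ y).natDegree := minpoly.natDegree_pos hint
  have hmon := minpoly.monic hint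
  have heq := minpoly.aeval ℚ⟮a⟯ y
  have hre : ∀ i, (φ ((minpoly ℚ⟮a⟯ y).coeff i : K)).im = 0 := fun i =>
    real_of_adjoin K φ a ha _ ((minpoly ℚ⟮a⟯ y).coeff i).2
  rw [aeval_eq_sum_range] at heq
  obtain hd | hd : (minpoly ℚ⟮a⟯ y).natDegree = 1 ∨ (minpoly ℚ⟮a⟯ y).natDegree = 2 := by omega
  · have h1 : (minpoly ℚ⟮a⟯ y).coeff 1 = 1 := by
      have := hmon.coeff_natDegree; rwa [hd] at this
    rw [hd, Finset.sum_range_succ, Finset.sum_range_one, h1, pow_zero, pow_one, one_smul,
      Algebra.smul_def, mul_one] at heq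
    have h2 := congrArg φ heq
    rw [map_add, map_zero] at h2
    have h3 := congrArg Complex.im h2
    have h4 : (φ ((algebraMap ℚ⟮a⟯ K) ((minpoly ℚ⟮a⟯ y).coeff 0))).im = 0 := hre 0
    rw [Complex.add_im, h4, zero_add, Complex.zero_im] at h3
    exact ⟨y, (Complex.conj_eq_iff_im.2 h3).symm⟩
  · have h1 : (minpoly ℚ⟮a⟯ y).coeff 2 = 1 := by
      have := hmon.coeff_natDegree; rwa [hd] at this
    rw [hd, Finset.sum_range_succ, Finset.sum_range_succ, Finset.sum_range_one, h1, pow_zero,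
      pow_one, one_smul, Algebra.smul_def, Algebra.smul_def, mul_one] at heq
    have h2 := congrArg φ heq
    rw [map_add, map_add, map_mul, map_pow, map_zero] at h2
    have h4 : (φ ((algebraMap ℚ⟮a⟯ K) ((minpoly ℚ⟮a⟯ y).coeff 0))).im = 0 := hre 0
    have h5 : (φ ((algebraMap ℚ⟮a⟯ K) ((minpoly ℚ⟮a⟯ y).coeff 1))).im = 0 := hre 1
    set u := φ ((algebraMap ℚ⟮a⟯ K) ((minpoly ℚ⟮a⟯ y).coeff 1)) with hu
    have h3 := congrArg Complex.im h2
    rw [Complex.add_im, Complex.add_im, h4, Complex.mul_im, h5, pow_two, Complex.mul_im,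
      Complex.zero_im] at h3
    have h6 : (φ y).im * (u.re + 2 * (φ y).re) = 0 := by linarith
    rcases mul_eq_zero.1 h6 with h7 | h7
    · exact ⟨y, (Complex.conj_eq_iff_im.2 h7).symm⟩
    · refine ⟨-(algebraMap ℚ⟮a⟯ K) ((minpoly ℚ⟮a⟯ y).coeff 1) - y, ?_⟩
      rw [map_sub, map_neg, ← hu]
      apply Complex.ext
      · simp only [Complex.sub_re, Complex.neg_re, Complex.conj_re]; linarith
      · simp only [Complex.sub_im, Complex.neg_im, Complex.conj_im, h5]; ring

lemma exists_conj_hom (K : Type*) [Field K] (φ : K →+* ℂ)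
    (hφ : ∀ y : K, ∃ y' : K, φ y' = (starRingEnd ℂ) (φ y)) :
    ∃ c : K →+* K, ∀ y, φ (c y) = (starRingEnd ℂ) (φ y) := by
  choose g hg using hφ
  refine ⟨{ toFun := g, map_one' := ?_, map_mul' := ?_, map_zero' := ?_, map_add' := ?_ }, hg⟩
  · exact φ.injective (by rw [hg]; simp)
  · intro x y; exact φ.injective (by rw [hg, map_mul, map_mul, map_mul, hg, hg])
  · exact φ.injective (by rw [hg]; simp)
  · intro x y; exact φ.injective (by rw [hg, map_add, map_add, map_add, hg, hg])

/-- the generator of a field that is stable under conjugation -/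
lemma gen_of_conj (K : Type*) [Field K] [NumberField K] (φ : K →+* ℂ)
    (hφ : ∀ y : K, ∃ y' : K, φ y' = (starRingEnd ℂ) (φ y)) (a : 𝓞 K) (ha : a ≠ 0) (T : ℝ)
    (h1 : ∀ w : InfinitePlace K, w ≠ mk φ → w a < 1 / 2) (h2 : |(φ a).re| < 1)
    (h3 : |(φ a).im| < T) :
    ∃ b : 𝓞 K, ℚ⟮(b : K)⟯ = ⊤ ∧ (∀ w : InfinitePlace K, w ≠ mk φ → w b ≤ 1) ∧
      mk φ b < 2 * T ∧ ∃ c : K →+* K, c b = - (b : K) := by
  obtain ⟨c, hc⟩ := exists_conj_hom K φ hφ
  have hcc : ∀ y, c (c y) = y := fun y => φ.injective (by rw [hc, hc]; simp)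
  have hint : IsIntegral ℤ ((a : K) - c a) := by
    refine a.isIntegral_coe.sub ?_
    exact a.isIntegral_coe.map c.toIntAlgHom
  obtain ⟨b, hb⟩ : ∃ b : 𝓞 K, (b : K) = (a : K) - c a := ⟨⟨_, hint⟩, rfl⟩
  have hφb : φ b = 2 * (φ a).im * Complex.I := by
    rw [hb, map_sub, hc, Complex.sub_conj]
    push_cast; ring
  have hne : ∀ w : InfinitePlace K, w ≠ mk φ → mk (w.embedding.comp c) ≠ mk φ := by
    intro w hw h4
    apply hw
    rw [← mk_embedding w]
    rw [mk_eq_iff] at h4 ⊢
    rcases h4 with h4 | h4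
    · right
      have h5 : ∀ y, w.embedding y = (starRingEnd ℂ) (φ y) := by
        intro y
        have := RingHom.congr_fun h4 (c y)
        rw [RingHom.comp_apply, hcc, hc] at this
        exact this
      ext y
      rw [ComplexEmbedding.conjugate_coe_eq, h5]; simp
    · left
      ext y
      have := RingHom.congr_fun h4 (c y)
      rw [ComplexEmbedding.conjugate_coe_eq, RingHom.comp_apply, hcc, hc] at this
      have h6 := congrArg (starRingEnd ℂ) this
      simpa using h6
  have hlt : ∀ w : InfinitePlace K, w ≠ mk φ → w b < 1 := by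
    intro w hw
    have h4 := h1 w hw
    have h5 := h1 _ (hne w hw)
    rw [NumberField.InfinitePlace.apply] at h5
    rw [← norm_embedding_eq] at h4 ⊢
    rw [hb, map_sub]
    refine (norm_sub_le _ _).trans_lt ?_
    have h6 : ‖w.embedding (c a)‖ < 1 / 2 := h5
    linarith
  have ha1 : 1 ≤ mk φ a := one_le_of_lt_one ha fun w hw => (h1 w hw).trans (by norm_num)
  have him : (φ a).im ≠ 0 := by
    intro h4
    rw [NumberField.InfinitePlace.apply] at ha1
    have h5 : ‖φ a‖ = |(φ a).re| := by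
      conv_lhs => rw [← Complex.re_add_im (φ a), h4]
      simp
    have : (φ (a : K)) = φ ((algebraMap (𝓞 K) K) a) := rfl
    rw [h5] at ha1
    linarith
  have hb0 : b ≠ 0 := by
    intro h4
    rw [h4] at hφb
    have h5 := congrArg Complex.im hφb
    simp at h5
    exact him h5
  refine ⟨b, ?_, fun w hw => (hlt w hw).le, ?_, c, ?_⟩
  · refine is_primitive_element_of_infinitePlace_lt (w := mk φ) hb0 (fun w hw => hlt w hw)
      (Or.inr ?_)
    rcases embedding_mk_eq φ with h4 | h4
    · rw [h4, hφb]; simp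
    · rw [h4, ComplexEmbedding.conjugate_coe_eq, hφb]; simp
  · rw [NumberField.InfinitePlace.apply, hφb]
    rw [norm_mul, norm_mul, Complex.norm_I, mul_one, Complex.norm_ofNat, Complex.norm_real,
      Real.norm_eq_abs]
    linarith
  · rw [hb, map_sub, hcc]; ring

end Pool.Agent.R337.VG
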