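import Mathlib
import Pool.Agent.R337.VG.FieldGen

set_option autoImplicit false

namespace Pool.Agent.R337.VG

open Polynomial Finset Module NumberField NumberField.InfinitePlace NumberField.mixedEmbedding
open scoped NNReal ENNReal IntermediateField
open Pool.Agent.H990R4.VJ (mm one_le_mm mm_eq coeff_le)

lemma max_pow_lt (t B : ℝ) (n : ℕ) (hB : 1 ≤ B) (h : t ^ n < B) : max 1 t ^ n ≤ B := by
  rcases le_total 1 t with h1 | h1
  · rw [max_eq_right h1]; exact h.le
  · rw [max_eq_left h1, one_pow]; exact hB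

theorem field_gen (r : ℕ) (K : IntermediateField ℚ ℂ) [NumberField K] (hr : finrank ℚ K = r)
    (Y : ℝ) (hY1 : 1 ≤ Y) (hY : |(discr K : ℝ)| ≤ Y) :
    ∃ (b : ℂ) (f : ℤ[X]), K = ℚ⟮b⟯ ∧ aeval b f = 0 ∧ f.Monic ∧ f.natDegree = r ∧
      (mm f ≤ (2 ^ r + 1) * √Y ∨
        (mm f ≤ (2 ^ (r + 1) * ((2 ^ r + 1) * √Y)) ^ 2 ∧ ∀ i, Odd (r + i) → f.coeff i = 0)) := by
  classical
  have hY0 : 0 ≤ Y := by linarith
  have hs1 : 1 ≤ √Y := Real.one_le_sqrt.2 hY1
  have hfin : finrank ℚ K = r := hr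
  set B : ℝ≥0 := ⟨(2 ^ r + 1) * √Y, by positivity⟩ with hB
  have hBr : (B : ℝ) = (2 ^ r + 1) * √Y := rfl
  have hB1 : (1 : ℝ) ≤ B := by
    rw [hBr]
    have : (1 : ℝ) ≤ 2 ^ r := one_le_pow₀ (by norm_num)
    nlinarith
  have hmk : minkowskiBound K ↑1 < B := by
    obtain ⟨Y', hY'⟩ : ∃ Y' : ℝ≥0, (Y' : ℝ) = Y := ⟨⟨Y, hY0⟩, rfl⟩
    refine (mink_le K r (by convert hfin) Y' (by rw [hY']; exact hY)).trans_lt ?_
    rw [ENNReal.coe_lt_coe, ← NNReal.coe_lt_coe, hBr]
    rw [NNReal.coe_mul, NNReal.coe_pow, NNReal.coe_ofNat, Real.coe_sqrt, hY']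
    nlinarith
  have haeval : ∀ a : 𝓞 K, aeval (((a : K) : ℂ)) (minpoly ℤ (a : K)) = 0 := by
    intro a
    exact (aeval_algebraMap_eq_zero_iff ℂ (a : K) _).mpr (minpoly.aeval ℤ (a : K))
  by_cases hreal : ∃ w₀ : InfinitePlace K, IsReal w₀
  · obtain ⟨w₀, hw₀⟩ := hreal
    obtain ⟨a, ha0, ha1, ha2⟩ := box_one K w₀ B hmk
    have hprim := is_primitive_element_of_infinitePlace_lt ha0 (fun w hw => ha1 w hw) (Or.inl hw₀)
    refine ⟨((a : K) : ℂ), minpoly ℤ (a : K), adjoin_coe K a hprim, haeval a,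
      minpoly.monic a.isIntegral_coe, minpoly_natDegree K r (by convert hfin) a hprim, Or.inl ?_⟩
    exact (mm_minpoly_le K a w₀ fun w hw => (ha1 w hw).le).trans (max_pow_lt _ _ _ hB1 ha2)
  push Not at hreal
  set φ : K →+* ℂ := (K.val : K →+* ℂ) with hφ
  obtain ⟨a, ha0, ha1, ha2⟩ := box_one K (mk φ) B hmk
  by_cases him : (φ a).im = 0
  · have hφc : ∀ y : K, ∃ y' : K, φ y' = (starRingEnd ℂ) (φ y) := by
      refine conj_stable K φ a him fun τ hτ => ?_
      have h1 : 1 ≤ mk φ a := one_le_of_lt_one ha0 ha1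
      have h2 : mk τ = mk φ := by
        by_contra h3
        have h4 := ha1 _ h3
        rw [NumberField.InfinitePlace.apply] at h4 h1
        rw [hτ] at h4
        exact absurd h1 (not_le.2 h4)
      rw [mk_eq_iff] at h2
      rcases h2 with h2 | h2
      · exact Or.inl h2
      · right
        ext y
        have := RingHom.congr_fun h2 y
        rw [ComplexEmbedding.conjugate_coe_eq] at this
        rw [RingHom.comp_apply, ← this]; simp
    have hc : IsComplex (mk φ) := by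
      rcases isReal_or_isComplex (mk φ) with h | h
      · exact absurd h (hreal _)
      · exact h
    obtain ⟨a', ha0', ha1', ha2', ha3'⟩ := box_two K (mk φ) hc r (by convert hfin) B hmk
    have hre : |(φ a').re| < 1 ∧ |(φ a').im| < 2 ^ r * B := by
      rcases embedding_mk_eq φ with h4 | h4
      · rw [h4] at ha2' ha3'; exact ⟨ha2', ha3'⟩
      · rw [h4, ComplexEmbedding.conjugate_coe_eq] at ha2' ha3'
        rw [Complex.conj_re] at ha2'
        rw [Complex.conj_im, abs_neg] at ha3'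
        exact ⟨ha2', ha3'⟩
    obtain ⟨b, hb1, hb2, hb3, c, hb4⟩ := gen_of_conj K φ hφc a' ha0' _ ha1' hre.1 hre.2
    refine ⟨((b : K) : ℂ), minpoly ℤ (b : K), adjoin_coe K b hb1, haeval b,
      minpoly.monic b.isIntegral_coe, minpoly_natDegree K r (by convert hfin) b hb1, Or.inr ⟨?_, ?_⟩⟩
    · refine (mm_minpoly_le K b (mk φ) fun w hw => hb2 w hw).trans ?_
      have h5 : max 1 (mk φ b) ≤ 2 ^ (r + 1) * ((2 ^ r + 1) * √Y) := by
        rw [← hBr]
        refine max_le ?_ ?_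
        · have : (1 : ℝ) ≤ 2 ^ (r + 1) := one_le_pow₀ (by norm_num)
          nlinarith
        · rw [pow_succ]; linarith
      have h6 : (1 : ℝ) ≤ max 1 (mk φ b) := le_max_left _ _
      have h7 : mult (mk φ) ≤ 2 := by
        rw [mult]; split_ifs <;> norm_num
      exact (pow_le_pow_right₀ h6 h7).trans (pow_le_pow_left₀ (by linarith) h5 2)
    · intro i hi
      refine minpoly_parity K b c hb4 i ?_
      rw [minpoly_natDegree K r (by convert hfin) b hb1]; exact hi
  · have him' : ((mk φ).embedding a).im ≠ 0 := by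
      rcases embedding_mk_eq φ with h4 | h4
      · rw [h4]; exact him
      · rw [h4, ComplexEmbedding.conjugate_coe_eq, Complex.conj_im]
        exact neg_ne_zero.2 him
    have hprim := prim_nonreal K ha0 (fun w hw => ha1 w hw) him'
    refine ⟨((a : K) : ℂ), minpoly ℤ (a : K), adjoin_coe K a hprim, haeval a,
      minpoly.monic a.isIntegral_coe, minpoly_natDegree K r (by convert hfin) a hprim, Or.inl ?_⟩
    exact (mm_minpoly_le K a (mk φ) fun w hw => (ha1 w hw).le).trans (max_pow_lt _ _ _ hB1 ha2)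

lemma count_monic (r : ℕ) (J : Finset ℕ) (A : ℝ) (hA : 0 ≤ A) (P : Finset ℤ[X])
    (hP : ∀ f ∈ P, f.Monic ∧ f.natDegree = r ∧ (∀ i, |(f.coeff i : ℝ)| ≤ A) ∧
      ∀ i < r, i ∉ J → f.coeff i = 0) : (P.card : ℝ) ≤ (2 * A + 1) ^ J.card := by
  classical
  have h1 : P.card ≤ (Fintype.piFinset (fun _ : J => Finset.Icc (-⌊A⌋) ⌊A⌋)).card := by
    refine Finset.card_le_card_of_injOn (fun f (i : J) => f.coeff i) ?_ ?_
    · intro f hf
      rw [Finset.mem_coe, Fintype.mem_piFinset]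
      intro i
      have h2 := (hP f hf).2.2.1 i
      rw [Finset.mem_Icc, ← abs_le, Int.le_floor]
      exact_mod_cast h2
    · intro f hf g hg hfg
      obtain ⟨hf1, hf2, hf3, hf4⟩ := hP f hf
      obtain ⟨hg1, hg2, hg3, hg4⟩ := hP g hg
      ext i
      rcases lt_trichotomy i r with h | h | h
      · by_cases hi : i ∈ J
        · exact congrFun hfg ⟨i, hi⟩
        · rw [hf4 i h hi, hg4 i h hi]
      · have e1 := hf1.coeff_natDegree
        have e2 := hg1.coeff_natDegree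
        rw [hf2] at e1
        rw [hg2] at e2
        rw [h, e1, e2]
      · rw [coeff_eq_zero_of_natDegree_lt (by omega), coeff_eq_zero_of_natDegree_lt (by omega)]
  rw [Fintype.card_piFinset, Finset.prod_const, Finset.card_univ, Fintype.card_coe,
    Int.card_Icc] at h1
  have h2 : ((⌊A⌋ + 1 - -⌊A⌋).toNat : ℝ) ≤ 2 * A + 1 := by
    have h3 : 0 ≤ ⌊A⌋ := Int.floor_nonneg.2 hA
    have h4 : ((⌊A⌋ + 1 - -⌊A⌋).toNat : ℤ) = 2 * ⌊A⌋ + 1 := by
      rw [Int.toNat_of_nonneg (by omega)]; ring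
    have h5 : ((⌊A⌋ + 1 - -⌊A⌋).toNat : ℝ) = 2 * (⌊A⌋ : ℝ) + 1 := by exact_mod_cast h4
    rw [h5]
    linarith [Int.floor_le A]
  calc (P.card : ℝ) ≤ ((⌊A⌋ + 1 - -⌊A⌋).toNat : ℝ) ^ J.card := by exact_mod_cast h1
    _ ≤ _ := pow_le_pow_left₀ (Nat.cast_nonneg _) h2 _

/-- the number of fields from the number of polynomials -/
lemma count_roots (r : ℕ) (𝒦 : Finset (IntermediateField ℚ ℂ))
    (b : IntermediateField ℚ ℂ → ℂ) (F : IntermediateField ℚ ℂ → ℤ[X])
    (h : ∀ K ∈ 𝒦, K = ℚ⟮b K⟯ ∧ aeval (b K) (F K) = 0 ∧ (F K).Monic ∧ (F K).natDegree = r)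
    (P : Finset ℤ[X]) (hP : ∀ K ∈ 𝒦, F K ∈ P) : 𝒦.card ≤ r * P.card := by
  classical
  refine Finset.card_le_mul_card_image_of_maps_to hP r fun f hf => ?_
  by_cases hne : (𝒦.filter fun K => F K = f).Nonempty
  · obtain ⟨K₁, hK₁⟩ := hne
    rw [Finset.mem_filter] at hK₁
    obtain ⟨hK1, hK2⟩ := hK₁
    obtain ⟨-, -, hm, hd⟩ := h K₁ hK1
    rw [hK2] at hm hd
    have h1 : (𝒦.filter fun K => F K = f).card ≤
        (f.map (Int.castRingHom ℂ)).roots.toFinset.card := by
      refine Finset.card_le_card_of_injOn b ?_ ?_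
      · intro K hK
        rw [Finset.mem_coe, Finset.mem_filter] at hK
        obtain ⟨-, e2, -, -⟩ := h K hK.1
        rw [hK.2] at e2
        rw [Finset.mem_coe, Multiset.mem_toFinset, mem_roots']
        refine ⟨(Polynomial.map_ne_zero_iff (Int.castRingHom ℂ).injective_int).2 hm.ne_zero, ?_⟩
        rw [IsRoot.def, eval_map, ← e2]; rfl
      · intro K hK K' hK' hb
        rw [Finset.mem_coe, Finset.mem_filter] at hK hK'
        rw [(h K hK.1).1, (h K' hK'.1).1, hb]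
    refine h1.trans ((Multiset.toFinset_card_le _).trans ((card_roots' _).trans ?_))
    rw [← hd]; exact natDegree_map_le
  · rw [Finset.not_nonempty_iff_eq_empty] at hne
    rw [hne, Finset.card_empty]; exact Nat.zero_le _

end Pool.Agent.R337.VG
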