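import Mathlib
import Pool.Agent.R337.VG.Fields

set_option autoImplicit false

namespace Pool.Agent.R337.VG

open Polynomial Finset Module NumberField
open scoped IntermediateField
open Pool.Agent.H990R4.VJ (mm one_le_mm mm_eq coeff_le)

lemma even_card (r : ℕ) : 2 * ((Finset.range r).filter fun i => ¬ Odd (r + i)).card ≤ r := by
  have h1 : ((Finset.range r).filter fun i => ¬ Odd (r + i)).card ≤ (Finset.range (r / 2)).card := by
    refine Finset.card_le_card_of_injOn (fun i => i / 2) ?_ ?_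
    · intro i hi
      rw [Finset.mem_coe, Finset.mem_filter, Finset.mem_range, Nat.not_odd_iff_even] at hi
      obtain ⟨h1, k, h2⟩ := hi
      rw [Finset.mem_coe, Finset.mem_range]
      change i / 2 < r / 2
      omega
    · intro i hi j hj hij
      rw [Finset.mem_coe, Finset.mem_filter, Finset.mem_range, Nat.not_odd_iff_even] at hi hj
      obtain ⟨h1, k, h2⟩ := hi
      obtain ⟨h3, l, h4⟩ := hj
      change i / 2 = j / 2 at hij
      omega
  rw [Finset.card_range] at h1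
  omega

theorem fields_count (r : ℕ) : ∃ C : ℝ, 0 < C ∧ ∀ Y : ℝ, 1 ≤ Y →
    ∀ 𝒦 : Finset (IntermediateField ℚ ℂ),
    (∀ K ∈ 𝒦, ∃ _ : NumberField K, finrank ℚ K = r ∧ |(discr K : ℝ)| ≤ Y) →
    (𝒦.card : ℝ) ≤ C * Y ^ ((r : ℝ) / 2) := by
  classical
  set c₁ : ℝ := 2 * (2 ^ r * (2 ^ r + 1)) + 1 with hc₁
  set c₂ : ℝ := 2 * (2 ^ r * (2 ^ (r + 1) * (2 ^ r + 1)) ^ 2) + 1 with hc₂
  have h2r : (1 : ℝ) ≤ 2 ^ r := one_le_pow₀ (by norm_num)
  have hc1 : 1 ≤ c₁ := by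
    have : (0 : ℝ) ≤ 2 * (2 ^ r * (2 ^ r + 1)) := by positivity
    linarith
  have hc2 : 1 ≤ c₂ := by
    have : (0 : ℝ) ≤ 2 * (2 ^ r * (2 ^ (r + 1) * (2 ^ r + 1)) ^ 2) := by positivity
    linarith
  refine ⟨(r + 1) * (c₁ ^ r + c₂ ^ r), by positivity, ?_⟩
  intro Y hY1 𝒦 h𝒦
  have hY0 : 0 ≤ Y := by linarith
  have hs1 : 1 ≤ √Y := Real.one_le_sqrt.2 hY1
  have hsq : √Y ^ 2 = Y := Real.sq_sqrt hY0
  have hgen : ∀ K ∈ 𝒦, ∃ (b : ℂ) (f : ℤ[X]), K = ℚ⟮b⟯ ∧ aeval b f = 0 ∧ f.Monic ∧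
      f.natDegree = r ∧ (mm f ≤ (2 ^ r + 1) * √Y ∨
        (mm f ≤ (2 ^ (r + 1) * ((2 ^ r + 1) * √Y)) ^ 2 ∧ ∀ i, Odd (r + i) → f.coeff i = 0)) := by
    intro K hK
    obtain ⟨_, h1, h2⟩ := h𝒦 K hK
    exact field_gen r K h1 Y hY1 h2
  choose! b F h1 h2 h3 h4 h5 using hgen
  set P := 𝒦.image F with hP
  set P₁ := P.filter fun f => mm f ≤ (2 ^ r + 1) * √Y with hP1
  set P₂ := P.filter fun f => ¬ mm f ≤ (2 ^ r + 1) * √Y with hP2
  have hPc : P.card = P₁.card + P₂.card := (Finset.card_filter_add_card_filter_not _).symm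
  have hK := count_roots r 𝒦 b F (fun K hK => ⟨h1 K hK, h2 K hK, h3 K hK, h4 K hK⟩) P
    (fun K hK => Finset.mem_image_of_mem F hK)
  have hYr : √Y ^ r = Y ^ ((r : ℝ) / 2) := by
    rw [Real.sqrt_eq_rpow, ← Real.rpow_natCast, ← Real.rpow_mul hY0]
    congr 1; ring
  have e1 : (P₁.card : ℝ) ≤ c₁ ^ r * Y ^ ((r : ℝ) / 2) := by
    have h6 := count_monic r (Finset.range r) (2 ^ r * ((2 ^ r + 1) * √Y)) (by positivity) P₁ ?_
    · rw [Finset.card_range] at h6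
      refine h6.trans ?_
      rw [← hYr, ← mul_pow]
      refine pow_le_pow_left₀ (by positivity) ?_ r
      rw [hc₁]; nlinarith
    · intro f hf
      obtain ⟨hf1, hf2⟩ := Finset.mem_filter.1 hf
      obtain ⟨K, hK, rfl⟩ := Finset.mem_image.1 hf1
      refine ⟨h3 K hK, h4 K hK, fun i => ?_, fun i hi hi2 => absurd (Finset.mem_range.2 hi) hi2⟩
      refine (coeff_le (F K) i).trans ?_
      rw [h4 K hK]
      exact mul_le_mul_of_nonneg_left hf2 (by positivity)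
  have e2 : (P₂.card : ℝ) ≤ c₂ ^ r * Y ^ ((r : ℝ) / 2) := by
    have h6 := count_monic r ((Finset.range r).filter fun i => ¬ Odd (r + i))
      (2 ^ r * (2 ^ (r + 1) * ((2 ^ r + 1) * √Y)) ^ 2) (by positivity) P₂ ?_
    · refine h6.trans ?_
      have h7 : 2 * (2 ^ r * (2 ^ (r + 1) * ((2 ^ r + 1) * √Y)) ^ 2) + 1 ≤ c₂ * Y := by
        have : (2 ^ (r + 1) * ((2 ^ r + 1) * √Y)) ^ 2 = (2 ^ (r + 1) * (2 ^ r + 1)) ^ 2 * Y := by
          rw [← mul_assoc, mul_pow _ (√Y), hsq]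
        rw [this, hc₂]
        have : (0 : ℝ) ≤ 2 ^ r * (2 ^ (r + 1) * (2 ^ r + 1)) ^ 2 := by positivity
        nlinarith
      have h8 : (1 : ℝ) ≤ c₂ * Y := by nlinarith
      calc (2 * (2 ^ r * (2 ^ (r + 1) * ((2 ^ r + 1) * √Y)) ^ 2) + 1) ^
            ((Finset.range r).filter fun i => ¬ Odd (r + i)).card
          ≤ (c₂ * Y) ^ ((Finset.range r).filter fun i => ¬ Odd (r + i)).card :=
            pow_le_pow_left₀ (by positivity) h7 _
        _ = c₂ ^ ((Finset.range r).filter fun i => ¬ Odd (r + i)).card *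
            √Y ^ (2 * ((Finset.range r).filter fun i => ¬ Odd (r + i)).card) := by
            rw [mul_pow, pow_mul, hsq]
        _ ≤ c₂ ^ r * √Y ^ r := by
            refine mul_le_mul (pow_le_pow_right₀ hc2 ?_) (pow_le_pow_right₀ hs1 (even_card r))
              (by positivity) (by positivity)
            have := even_card r
            omega
        _ = _ := by rw [hYr]
    · intro f hf
      obtain ⟨hf1, hf2⟩ := Finset.mem_filter.1 hf
      obtain ⟨K, hK, rfl⟩ := Finset.mem_image.1 hf1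
      have h7 := (h5 K hK).resolve_left hf2
      refine ⟨h3 K hK, h4 K hK, fun i => ?_, fun i hi hi2 => ?_⟩
      · refine (coeff_le (F K) i).trans ?_
        rw [h4 K hK]
        exact mul_le_mul_of_nonneg_left h7.1 (by positivity)
      · refine h7.2 i ?_
        rw [Finset.mem_filter, not_and, not_not] at hi2
        exact hi2 (Finset.mem_range.2 hi)
  have e3 : (𝒦.card : ℝ) ≤ r * (P₁.card + P₂.card) := by
    rw [hPc] at hK; exact_mod_cast hK
  have hYp : 0 ≤ Y ^ ((r : ℝ) / 2) := Real.rpow_nonneg hY0 _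
  have hr0 : (0 : ℝ) ≤ r := Nat.cast_nonneg r
  calc (𝒦.card : ℝ) ≤ r * (P₁.card + P₂.card) := e3
    _ ≤ r * (c₁ ^ r * Y ^ ((r : ℝ) / 2) + c₂ ^ r * Y ^ ((r : ℝ) / 2)) := by gcongr
    _ ≤ (r + 1) * (c₁ ^ r * Y ^ ((r : ℝ) / 2) + c₂ ^ r * Y ^ ((r : ℝ) / 2)) := by
        refine mul_le_mul_of_nonneg_right (by linarith) (by positivity)
    _ = _ := by ring

end Pool.Agent.R337.VG
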