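import Mathlib
import Pool.Agent.R337.VG.Data

set_option autoImplicit false

namespace Pool.Agent.R337.VG

open Polynomial Finset Module
open Pool.Agent.H990R4.VJ (mm coeff_le one_le_mm)

lemma prim_at (f : ℤ[X]) (r : ℕ) (hd : f.natDegree ≤ r) (hf : f.IsPrimitive) (p : ℕ)
    (hp : p.Prime) : ∃ i : Fin (r + 1), ¬ (p : ℤ) ∣ f.coeff i := by
  by_contra h
  push Not at h
  have h1 : C (p : ℤ) ∣ f := by
    rw [C_dvd_iff_dvd_coeff]
    intro i
    by_cases hi : i ≤ r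
    · exact h ⟨i, by omega⟩
    · rw [coeff_eq_zero_of_natDegree_lt (by omega)]; exact dvd_zero _
  have h2 := hf _ h1
  exact (Nat.prime_iff_prime_int.1 hp).not_isUnit h2

lemma mm_le (f : ℤ[X]) (r : ℕ) (hf : f.natDegree ≤ r) :
    ∃ i : Fin (r + 1), mm f ≤ (r + 1) * |((f.coeff i : ℤ) : ℝ)| ∧
    ∀ j : Fin (r + 1), |((f.coeff j : ℤ) : ℝ)| ≤ |((f.coeff i : ℤ) : ℝ)| := by
  obtain ⟨i₀, _, hi₀⟩ := Finset.exists_max_image (Finset.univ : Finset (Fin (r + 1)))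
    (fun i => |((f.coeff i : ℤ) : ℝ)|) Finset.univ_nonempty
  refine ⟨i₀, ?_, fun j => hi₀ j (Finset.mem_univ _)⟩
  have h1 := mahlerMeasure_le_sum_norm_coeff (f.map (Int.castRingHom ℂ))
  rw [sum_over_range' _ (by simp) (r + 1) (by
    rw [natDegree_map_eq_of_injective (RingHom.injective_int _)]; omega)] at h1
  refine h1.trans ?_
  have h2 : ∑ a ∈ range (r + 1), ‖(f.map (Int.castRingHom ℂ)).coeff a‖ ≤
      ∑ _a ∈ range (r + 1), |((f.coeff i₀ : ℤ) : ℝ)| := by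
    refine Finset.sum_le_sum fun a ha => ?_
    rw [coeff_map]
    have h3 := hi₀ ⟨a, Finset.mem_range.1 ha⟩ (Finset.mem_univ _)
    have h4 : ‖(Int.castRingHom ℂ) (f.coeff a)‖ = |((f.coeff a : ℤ) : ℝ)| := by
      simp
    rw [h4]
    exact h3
  rw [Finset.sum_const, Finset.card_range, nsmul_eq_mul] at h2
  push_cast at h2
  exact h2

lemma min_sum {ι : Type*} (I : Finset ι) (M : ℝ) (x y : ι → ℝ) (h : ∀ i ∈ I, min M (x i) ≤ y i)
    (h0 : ∀ i ∈ I, 0 ≤ y i) : min M (∑ i ∈ I, x i) ≤ ∑ i ∈ I, y i := by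
  by_cases hM : ∃ i ∈ I, M ≤ x i
  · obtain ⟨i, hi, hMi⟩ := hM
    have h1 := h i hi
    rw [min_eq_left hMi] at h1
    exact (min_le_left _ _).trans (h1.trans (Finset.single_le_sum h0 hi))
  · push Not at hM
    refine (min_le_right _ _).trans (Finset.sum_le_sum fun i hi => ?_)
    have h1 := h i hi
    rwa [min_eq_right (hM i hi).le] at h1

lemma min_add {M x x' y y' : ℝ} (h : min M x ≤ y) (h' : min M x' ≤ y') (hy : 0 ≤ y)
    (hy' : 0 ≤ y') : min M (x + x') ≤ y + y' := by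
  rcases le_total M x with h1 | h1
  · rw [min_eq_left h1] at h
    exact (min_le_left _ _).trans (by linarith)
  · rw [min_eq_right h1] at h
    rcases le_total M x' with h2 | h2
    · rw [min_eq_left h2] at h'
      exact (min_le_left _ _).trans (by linarith)
    · rw [min_eq_right h2] at h'
      exact (min_le_right _ _).trans (by linarith)

lemma key_aux (r c : ℕ) (hr : 2 ≤ r) (hc : c < r) (ε : ℝ) (hε : 0 < ε) (hε2 : ε ≤ 2) :
    ((r : ℝ) + 1 - c) * (c + 1) - (2 + ε) - (2 * r - 2 - ε) / (r + 1) ≤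
      (c + 1) * (r * (2 * r - 2 - ε) / (2 * (r + 1))) := by
  have hr' : (2 : ℝ) ≤ r := by exact_mod_cast hr
  have hc0 : (0 : ℝ) ≤ c := Nat.cast_nonneg _
  have hmain : 0 ≤ ((c : ℝ) - 1) * (2 * r * (c - 1) + 2 * (c + 1) - ε * r) := by
    rcases Nat.eq_zero_or_pos c with rfl | h
    · push_cast; nlinarith
    · rcases Nat.lt_or_ge c 2 with h2 | h2
      · obtain rfl : c = 1 := by omega
        simp
      · have hc2 : (2 : ℝ) ≤ c := by exact_mod_cast h2
        have h3 : 0 ≤ 2 * (r : ℝ) * (c - 1) + 2 * (c + 1) - ε * r := by nlinarith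
        exact mul_nonneg (by linarith) h3
  have hr1 : (0 : ℝ) < 2 * (r + 1) := by linarith
  rw [← sub_nonneg]
  have e1 : (c + 1) * (r * (2 * r - 2 - ε) / (2 * (r + 1))) -
      (((r : ℝ) + 1 - c) * (c + 1) - (2 + ε) - (2 * r - 2 - ε) / (r + 1)) =
      (((c : ℝ) - 1) * (2 * r * (c - 1) + 2 * (c + 1) - ε * r)) / (2 * (r + 1)) := by
    field_simp
    ring
  rw [e1]
  positivity

lemma key_ineq (r c : ℕ) (hr : 2 ≤ r) (hc : c < r) (ε x L : ℝ) (hε : 0 < ε) (hε2 : ε ≤ 2)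
    (hx : 0 ≤ x) (hxL : x ≤ L) :
    ((r : ℝ) + 1 - c) * (c + 1) * x - ((2 + ε) * x + (2 * r - 2 - ε) / (r + 1) * L) ≤
      (c + 1) * (r * (2 * r - 2 - ε) / (2 * (r + 1))) * L := by
  have h1 := key_aux r c hr hc ε hε hε2
  have hr' : (2 : ℝ) ≤ r := by exact_mod_cast hr
  have hc0 : (0 : ℝ) ≤ c := Nat.cast_nonneg _
  have hL : 0 ≤ L := hx.trans hxL
  set A := ((r : ℝ) + 1 - c) * (c + 1) - (2 + ε) with hA
  set τ := (2 * (r : ℝ) - 2 - ε) / (r + 1) with hτ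
  have hτ0 : 0 ≤ τ := div_nonneg (by linarith) (by linarith)
  have he0 : 0 ≤ (c + 1) * (r * (2 * r - 2 - ε) / (2 * (r + 1))) := by
    have : 0 ≤ 2 * (r : ℝ) - 2 - ε := by linarith
    positivity
  rcases le_total 0 A with h | h
  · have h2 : A * x ≤ A * L := mul_le_mul_of_nonneg_left hxL h
    nlinarith
  · have h2 : A * x ≤ 0 := mul_nonpos_of_nonpos_of_nonneg h hx
    nlinarith [mul_nonneg hτ0 hL, mul_nonneg he0 hL]

end Pool.Agent.R337.VG
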