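import Mathlib
import Pool.Agent.R337.VG.Ineq

set_option autoImplicit false

namespace Pool.Agent.R337.VG

open Polynomial Finset Module
open Pool.Agent.H990R4.VJ (mm coeff_le one_le_mm)
open Pool.Agent.W226.VQ (av av_nonneg av_le_one av_pos av_eq_one)

/-- extension of a function on `S` -/
def ext {α : Type*} (S : Finset ℕ) (d : α) (g : S → α) (p : ℕ) : α :=
  if h : p ∈ S then g ⟨p, h⟩ else d

lemma ext_of_mem {α : Type*} {S : Finset ℕ} (d : α) (g : S → α) {p : ℕ} (h : p ∈ S) :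
    ext S d g p = g ⟨p, h⟩ := by
  unfold ext; rw [dif_pos h]

theorem fiber (r : ℕ) (hr : 2 ≤ r) (ε L x B₁ B₂ A CL : ℝ)
    (hε : 0 < ε) (hε2 : ε ≤ 2) (hx : 0 ≤ x) (hxL : x ≤ L) (hB₁ : 0 ≤ B₁)
    (hB₂ : 0 ≤ B₂) (hCL : 1 ≤ CL)
    (hA : (2 + ε) * x + (2 * r - 2 - ε) / (r + 1) * L - B₁ ≤ A) (n : ℕ) (c : ℕ) (hc : c < r)
    (h : (n : ℝ) ^ (c + 1) ≤ CL * (Real.exp (x + B₂) ^ ((r + 1 - c) * (c + 1)) *
      Real.exp (-A))) :
    (n : ℝ) ≤ Real.exp (r * (2 * r - 2 - ε) / (2 * (r + 1)) * L + (Real.log CL + B₁ +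
      (r + 1) * B₂)) := by
  rcases Nat.eq_zero_or_pos n with rfl | hn
  · simp [Real.exp_nonneg]
  have hn0 : (0 : ℝ) < n := by exact_mod_cast hn
  have hCL0 : 0 < CL := by linarith
  have hc0 : (0 : ℝ) ≤ c := Nat.cast_nonneg _
  have hcr : ((r + 1 - c : ℕ) : ℝ) = (r : ℝ) + 1 - c := by
    rw [Nat.cast_sub (by omega)]; push_cast; ring
  have h1 := Real.log_le_log (by positivity) h
  rw [Real.log_pow, Real.log_mul hCL0.ne' (by positivity), Real.log_mul (by positivity)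
    (by positivity), Real.log_pow, Real.log_exp, Real.log_exp] at h1
  push_cast at h1
  rw [hcr] at h1
  have h2 := key_ineq r c hr hc ε x L hε hε2 hx hxL
  set e := (r : ℝ) * (2 * r - 2 - ε) / (2 * (r + 1)) with he
  set τ := (2 * (r : ℝ) - 2 - ε) / (r + 1) with hτ
  have hlogCL : 0 ≤ Real.log CL := Real.log_nonneg hCL
  have hr' : (c : ℝ) < r := by exact_mod_cast hc
  have h3 : ((r : ℝ) + 1 - c) * (c + 1) * B₂ ≤ (c + 1) * ((r + 1) * B₂) := by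
    have : ((r : ℝ) + 1 - c) * B₂ ≤ (r + 1) * B₂ := mul_le_mul_of_nonneg_right (by linarith) hB₂
    nlinarith
  have h4 : ((c : ℝ) + 1) * Real.log n ≤ (c + 1) * (e * L + (Real.log CL + B₁ + (r + 1) * B₂)) := by
    have h5 : Real.log CL + B₁ ≤ (c + 1) * (Real.log CL + B₁) := by
      nlinarith
    nlinarith
  have h6 : Real.log n ≤ e * L + (Real.log CL + B₁ + (r + 1) * B₂) :=
    le_of_mul_le_mul_left h4 (by linarith)
  calc (n : ℝ) = Real.exp (Real.log n) := (Real.exp_log hn0).symm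
    _ ≤ _ := Real.exp_le_exp.2 h6

/-- the total saving of one polynomial -/
lemma saving (r q : ℕ) (hr : 2 ≤ r) (S : Finset ℕ) (hS : ∀ p ∈ S, p.Prime) (R : ℤ) (hR : R ≠ 0)
    (M lm ε K₁ L lam x W y : ℝ) (Wp yp : ℕ → ℝ) (hM1 : 1 ≤ M) (hε : 0 < ε) (hK₁ : 0 < K₁)
    (hlam : 0 < lam) (hL : 0 ≤ L) (hW : 0 ≤ W) (hWp : ∀ p ∈ S, 0 ≤ Wp p)
    (h3 : min lm (q * Real.log M - q * Real.log (r + 1) - Real.log |(R : ℝ)| - q * lam - W) ≤ y)
    (h4 : ∀ p ∈ S, min lm (- Real.log (av p R) - q * lam - Wp p) ≤ yp p) (hy : 0 ≤ y)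
    (hyp : ∀ p ∈ S, 0 ≤ yp p)
    (hviol : |(R : ℝ)| * (∏ p ∈ S, av p R) * Real.exp ((2 * r - 2 - ε) / (r + 1) * L) ≤
      K₁ * M ^ ((q : ℝ) - 2 - ε)) (hx : x ≤ Real.log M) (hxL : x ≤ L)
    (hτ : 0 ≤ (2 * (r : ℝ) - 2 - ε) / (r + 1))
    (hlm : (2 + ε + (2 * (r : ℝ) - 2 - ε) / (r + 1)) * (L + 1) ≤ lm) :
    (2 + ε) * x + (2 * (r : ℝ) - 2 - ε) / (r + 1) * L - ((|Real.log K₁| + q * Real.log (r + 1) +
      W + ∑ p ∈ S, Wp p) + q * ((S.card : ℝ) + 1) * lam) ≤ y + ∑ p ∈ S, yp p := by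
  have h5 := min_add h3 (min_sum S lm _ yp h4 hyp) hy (Finset.sum_nonneg hyp)
  refine le_trans ?_ h5
  have hr' : (2 : ℝ) ≤ r := by exact_mod_cast hr
  have hRpos : (0 : ℝ) < |(R : ℝ)| := abs_pos.2 (by exact_mod_cast hR)
  have havp : ∀ p ∈ S, 0 < av p R := fun p hp => av_pos p (hS p hp) hR
  have hprod : 0 < ∏ p ∈ S, av p R := Finset.prod_pos havp
  have hM0 : 0 < M := by linarith
  have h6 := Real.log_le_log (mul_pos (mul_pos hRpos hprod) (Real.exp_pos _)) hviol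
  rw [Real.log_mul (mul_pos hRpos hprod).ne' (Real.exp_pos _).ne', Real.log_mul hRpos.ne' hprod.ne',
    Real.log_prod fun p hp => (havp p hp).ne', Real.log_exp, Real.log_mul hK₁.ne'
    (Real.rpow_pos_of_pos hM0 _).ne', Real.log_rpow hM0] at h6
  have h8 : ∑ p ∈ S, (- Real.log (av p R) - q * lam - Wp p) =
      - ∑ p ∈ S, Real.log (av p R) - (S.card : ℝ) * (q * lam) - ∑ p ∈ S, Wp p := by
    rw [Finset.sum_sub_distrib, Finset.sum_sub_distrib, Finset.sum_neg_distrib,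
      Finset.sum_const, nsmul_eq_mul]
  rw [h8]
  have h9 := le_abs_self (Real.log K₁)
  have h9' := abs_nonneg (Real.log K₁)
  have hWp0 : 0 ≤ ∑ p ∈ S, Wp p := Finset.sum_nonneg hWp
  have hlogr : 0 ≤ Real.log ((r : ℝ) + 1) := Real.log_nonneg (by linarith)
  have hq0 : (0 : ℝ) ≤ q := Nat.cast_nonneg _
  have hs0 : (0 : ℝ) ≤ S.card := Nat.cast_nonneg _
  have h13 : 0 ≤ q * Real.log ((r : ℝ) + 1) := mul_nonneg hq0 hlogr
  have h11 : 0 ≤ q * ((S.card : ℝ) + 1) * lam := by positivity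
  set τ := (2 * (r : ℝ) - 2 - ε) / (r + 1) with hτd
  clear_value τ
  refine le_min ?_ ?_
  · have h12 : (2 + ε) * x ≤ (2 + ε) * L := mul_le_mul_of_nonneg_left hxL (by linarith)
    have h14 : (2 + ε + τ) * (L + 1) = (2 + ε) * L + τ * L + (2 + ε + τ) := by ring
    linarith
  · have h12 : (2 + ε) * x ≤ (2 + ε) * Real.log M :=
      mul_le_mul_of_nonneg_left hx (by linarith)
    have h15 : ((q : ℝ) - 2 - ε) * Real.log M = q * Real.log M - (2 + ε) * Real.log M := by ring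
    have h16 : q * ((S.card : ℝ) + 1) * lam = (S.card : ℝ) * (q * lam) + q * lam := by ring
    rw [h15] at h6
    linarith

lemma prod_exp {q : ℕ} (S : Finset ℕ) (lam : ℝ) (J : Finset (Fin q)) (a : Fin q → ℕ)
    (Jp : ℕ → Finset (Fin q)) (ap : ℕ → Fin q → ℕ) :
    (∏ j ∈ J, Real.exp (-(lam * a j))) * ∏ p ∈ S, ∏ j ∈ Jp p, Real.exp (-(lam * ap p j)) =
      Real.exp (-(∑ j ∈ J, lam * a j + ∑ p ∈ S, ∑ j ∈ Jp p, lam * ap p j)) := by
  rw [← Real.exp_sum, Finset.prod_congr rfl fun p _ => (Real.exp_sum _ _).symm,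
    ← Real.exp_sum, ← Real.exp_add]
  congr 1
  rw [Finset.sum_neg_distrib, Finset.sum_congr rfl fun p _ => Finset.sum_neg_distrib _,
    Finset.sum_neg_distrib]
  ring

/-- the bound for one class -/
lemma class_bound (r q : ℕ) (hr : 2 ≤ r) (S : Finset ℕ) (hS : ∀ p ∈ S, p.Prime) (G : ℤ[X])
    (ε K₁ L lam lm W CL : ℝ) (Wp : ℕ → ℝ) (hε : 0 < ε) (hε2 : ε ≤ 2) (hK₁ : 0 < K₁)
    (hL : 0 ≤ L) (hlam : 0 < lam) (hW : 0 ≤ W) (hWp : ∀ p ∈ S, 0 ≤ Wp p) (hCL1 : 1 ≤ CL)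
    (hlm : (2 + ε + (2 * (r : ℝ) - 2 - ε) / (r + 1)) * (L + 1) ≤ lm)
    (ν : ℤ[X] → Fin q → ℝ) (νp : ℕ → ℤ[X] → Fin q → ℝ)
    (J : Finset (Fin q)) (a : Fin q → ℕ) (Jp : ℕ → Finset (Fin q)) (ap : ℕ → Fin q → ℕ) (n : ℕ)
    (hCL : ∀ (K : Finset ℤ[X]) (Y : ℝ) (t : Fin q → ℝ)
        (tp : ℕ → Fin q → ℝ), 0 ≤ Y → (∀ j, 0 ≤ t j) → (∀ p j, 0 ≤ tp p j) →
        (∀ f ∈ K, Irreducible f ∧ f.natDegree = r ∧ (∀ a, |((f.coeff a : ℤ) : ℝ)| ≤ Y) ∧
        (∀ j ∈ J, ν f j ≤ Y * t j) ∧ ∀ p ∈ S, ∀ j ∈ Jp p, νp p f j ≤ tp p j) →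
      K.card ≤ 2 ∨ ∃ c, c < r ∧ (K.card : ℝ) ^ (c + 1) ≤
        CL * (Y ^ ((r + 1 - c) * (c + 1)) * ((∏ j ∈ J, t j) *
          ∏ p ∈ S, ∏ j ∈ Jp p, tp p j)))
    (K : Finset ℤ[X])
    (hK : ∀ f ∈ K, Irreducible f ∧ f.natDegree = r ∧ Real.log (mm f) ≤ L ∧
      resultant f G r q ≠ 0 ∧
        |((resultant f G r q : ℤ) : ℝ)| * (∏ p ∈ S, av p (resultant f G r q)) *
          Real.exp ((2 * r - 2 - ε) / (r + 1) * L) ≤ K₁ * mm f ^ ((q : ℝ) - 2 - ε))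
    (hn : ∀ f ∈ K, n * lam ≤ Real.log (mm f) ∧ Real.log (mm f) ≤ n * lam + lam)
    (hJ : ∀ f ∈ K, (∀ j ∈ J, ν f j ≤ (2 ^ r * mm f) * Real.exp (-(lam * a j))) ∧
      min lm (q * Real.log (mm f) - q * Real.log (r + 1) -
        Real.log |((resultant f G r q : ℤ) : ℝ)| - q * lam - W) ≤ ∑ j ∈ J, lam * a j)
    (hJp : ∀ f ∈ K, ∀ p ∈ S, (∀ j ∈ Jp p, νp p f j ≤ Real.exp (-(lam * ap p j))) ∧
      min lm (- Real.log (av p (resultant f G r q)) - q * lam - Wp p) ≤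
        ∑ j ∈ Jp p, lam * ap p j) :
    (K.card : ℝ) ≤ 2 ∨ (K.card : ℝ) ≤ Real.exp (r * (2 * r - 2 - ε) / (2 * (r + 1)) * L +
      (Real.log CL + ((|Real.log K₁| + q * Real.log (r + 1) +
      W + ∑ p ∈ S, Wp p) + q * ((S.card : ℝ) + 1) * lam) +
      (r + 1) * (lam + r * Real.log 2))) := by
  classical
  rcases K.eq_empty_or_nonempty with rfl | ⟨f₀, hf₀⟩
  · left; simp
  have hr' : (2 : ℝ) ≤ r := by exact_mod_cast hr
  have hτ0 : 0 ≤ (2 * (r : ℝ) - 2 - ε) / (r + 1) := div_nonneg (by linarith) (by linarith)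
  have hlog2 : 0 ≤ Real.log 2 := Real.log_nonneg (by norm_num)
  have hterm : ∀ m : ℕ, 0 ≤ lam * (m : ℝ) := fun m => mul_nonneg hlam.le (Nat.cast_nonneg _)
  obtain ⟨hirr, hdeg, hmm, hR, hviol⟩ := hK f₀ hf₀
  have hx0 : 0 ≤ (n : ℝ) * lam := mul_nonneg (Nat.cast_nonneg _) hlam.le
  have hxL : (n : ℝ) * lam ≤ L := (hn f₀ hf₀).1.trans hmm
  have hsave := saving r q hr S hS (resultant f₀ G r q) hR (mm f₀) lm ε K₁ L lam (n * lam) W
    (∑ j ∈ J, lam * a j) Wp (fun p => ∑ j ∈ Jp p, lam * ap p j) (one_le_mm hirr.ne_zero) hε hK₁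
    hlam hL hW hWp (hJ f₀ hf₀).2 (fun p hp => (hJp f₀ hf₀ p hp).2)
    (Finset.sum_nonneg fun j _ => hterm _)
    (fun p _ => Finset.sum_nonneg fun j _ => hterm _) hviol (hn f₀ hf₀).1 hxL hτ0 hlm
  have hYle : ∀ f ∈ K, 2 ^ r * mm f ≤ Real.exp (n * lam + (lam + r * Real.log 2)) := by
    intro f hf
    have hM1 : 1 ≤ mm f := one_le_mm (hK f hf).1.ne_zero
    have h3 := (hn f hf).2
    have hpos : (0 : ℝ) < 2 ^ r * mm f := mul_pos (by positivity) (by linarith)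
    rw [← Real.exp_log hpos]
    refine Real.exp_le_exp.2 ?_
    rw [Real.log_mul (by positivity) (by linarith), Real.log_pow]
    linarith
  have h3 := hCL K (Real.exp (n * lam + (lam + r * Real.log 2)))
    (fun j => Real.exp (-(lam * a j))) (fun p j => Real.exp (-(lam * ap p j)))
    (Real.exp_nonneg _) (fun j => Real.exp_nonneg _) (fun p j => Real.exp_nonneg _) (by
      intro f hf
      obtain ⟨hirr, hdeg, hmm, hR, hviol⟩ := hK f hf
      refine ⟨hirr, hdeg, ?_, ?_, ?_⟩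
      · intro i
        refine le_trans ?_ (hYle f hf)
        have := coeff_le f i
        rw [hdeg] at this
        exact_mod_cast this
      · intro j hj
        exact ((hJ f hf).1 j hj).trans (mul_le_mul_of_nonneg_right (hYle f hf) (Real.exp_nonneg _))
      · intro p hp j hj
        exact (hJp f hf p hp).1 j hj)
  rcases h3 with h3 | ⟨c, hcr, h3⟩
  · left; exact_mod_cast h3
  · right
    rw [prod_exp] at h3
    have hlogr : 0 ≤ Real.log ((r : ℝ) + 1) := Real.log_nonneg (by linarith)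
    have hWs : 0 ≤ ∑ p ∈ S, Wp p := Finset.sum_nonneg hWp
    exact fiber r hr ε L (n * lam) _ (lam + r * Real.log 2) _ CL hε hε2 hx0 hxL
      (by positivity) (by positivity) hCL1 hsave K.card c hcr h3

theorem typeII (r q : ℕ) (hr : 2 ≤ r) (hq : 2 ≤ q) (G : ℤ[X]) (hG : G ≠ 0)
    (hsep : (G.map (Int.castRingHom ℚ)).Separable) (h1 : G.natDegree ≤ q)
    (h2 : q ≤ G.natDegree + 1) (S : Finset ℕ) (hS : ∀ p ∈ S, p.Prime) (ε K₁ δ : ℝ)
    (hε : 0 < ε) (hε2 : ε ≤ 2) (hK₁ : 0 < K₁) (hδ : 0 < δ) :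
    ∃ C : ℝ, 0 < C ∧ ∀ L : ℝ, 0 ≤ L → ∀ E : Finset ℤ[X],
      (∀ f ∈ E, Irreducible f ∧ f.natDegree = r ∧ Real.log (mm f) ≤ L ∧ resultant f G r q ≠ 0 ∧
        |((resultant f G r q : ℤ) : ℝ)| * (∏ p ∈ S, av p (resultant f G r q)) *
          Real.exp ((2 * r - 2 - ε) / (r + 1) * L) ≤ K₁ * mm f ^ ((q : ℝ) - 2 - ε)) →
      (E.card : ℝ) ≤ C * Real.exp ((r * (2 * r - 2 - ε) / (2 * (r + 1)) + δ) * L) := by
  classical
  obtain ⟨ν, W, hW0, hGood, hcl⟩ := data_complex r q hq G hG hsep h1 h2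
  have hdp : ∀ p ∈ S, ∃ (ν : ℤ[X] → Fin q → ℝ) (W : ℝ), PlaceData r q G (av p) ν W ∧
      (∀ (f g : ℤ[X]) (j : Fin q), ν (f + g) j ≤ max (ν f j) (ν g j)) ∧
      (∀ (n : ℤ) (f : ℤ[X]) (j : Fin q), ν (n • f) j ≤ ν f j) ∧ (∀ j : Fin q, ν 0 j ≤ 0) :=
    fun p hp => data_padic p (hS p hp) r q hq G hG hsep h1 h2
  choose! νp Wp hdat using hdp
  have hr' : (2 : ℝ) ≤ r := by exact_mod_cast hr
  have hτ0 : 0 ≤ (2 * (r : ℝ) - 2 - ε) / (r + 1) := div_nonneg (by linarith) (by linarith)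
  obtain ⟨η, hη0, hηc⟩ : ∃ η : ℝ, 0 < η ∧ ((r : ℝ) + 1 + q * ((S.card : ℝ) + 1)) * η = δ := by
    have hcη0 : (0 : ℝ) < (r : ℝ) + 1 + q * ((S.card : ℝ) + 1) := by positivity
    exact ⟨δ / ((r : ℝ) + 1 + q * ((S.card : ℝ) + 1)), div_pos hδ hcη0, by field_simp⟩
  obtain ⟨N₀, hN₀⟩ : ∃ N₀ : ℕ, 2 + ε + (2 * (r : ℝ) - 2 - ε) / (r + 1) ≤ N₀ * η := by
    refine ⟨⌈(2 + ε + (2 * (r : ℝ) - 2 - ε) / (r + 1)) / η⌉₊, ?_⟩
    have := Nat.le_ceil ((2 + ε + (2 * (r : ℝ) - 2 - ε) / (r + 1)) / η)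
    rwa [div_le_iff₀ hη0] at this
  obtain ⟨N₁, hN₁⟩ : ∃ N₁ : ℕ, 1 / η ≤ N₁ := ⟨_, Nat.le_ceil _⟩
  -- the lattice count for all choices of the near points
  have hlc : ∀ (J : Finset (Fin q)) (Jp : S → Finset (Fin q)), ∃ C : ℝ, 1 ≤ C ∧
      (J.card ≤ r → (∀ p, (Jp p).card ≤ r) → ∀ (K : Finset ℤ[X]) (Y : ℝ) (t : Fin q → ℝ)
        (tp : ℕ → Fin q → ℝ), 0 ≤ Y → (∀ j, 0 ≤ t j) → (∀ p j, 0 ≤ tp p j) →
        (∀ f ∈ K, Irreducible f ∧ f.natDegree = r ∧ (∀ a, |((f.coeff a : ℤ) : ℝ)| ≤ Y) ∧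
        (∀ j ∈ J, ν f j ≤ Y * t j) ∧ ∀ p ∈ S, ∀ j ∈ ext S ∅ Jp p, νp p f j ≤ tp p j) →
      K.card ≤ 2 ∨ ∃ c, c < r ∧ (K.card : ℝ) ^ (c + 1) ≤
        C * (Y ^ ((r + 1 - c) * (c + 1)) * ((∏ j ∈ J, t j) *
          ∏ p ∈ S, ∏ j ∈ ext S ∅ Jp p, tp p j))) := by
    intro J Jp
    by_cases h : J.card ≤ r ∧ ∀ p, (Jp p).card ≤ r
    · obtain ⟨C, hC1, hC⟩ := lc r q (by omega) S hS ν J (hGood J h.1) νp (ext S ∅ Jp)
        (fun p hp => by
          rw [ext_of_mem ∅ Jp hp]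
          exact (hdat p hp).1.2.1 _ (h.2 _)) (fun p hp => (hdat p hp).2.1)
        (fun p hp => (hdat p hp).2.2.1) (fun p hp => (hdat p hp).2.2.2)
      exact ⟨C, hC1, fun _ _ => hC⟩
    · exact ⟨1, le_rfl, fun h3 h4 => absurd ⟨h3, h4⟩ h⟩
  choose CL hCL1 hCL using hlc
  obtain ⟨CT, hCT⟩ : ∃ CT : ℝ, ∀ J Jp, CL J Jp ≤ CT := by
    refine ⟨∑ J : Finset (Fin q), ∑ Jp : S → Finset (Fin q), CL J Jp, fun J Jp => ?_⟩
    have h3 : CL J Jp ≤ ∑ Jp : S → Finset (Fin q), CL J Jp :=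
      Finset.single_le_sum (f := fun Jp => CL J Jp) (fun Jp _ => by linarith [hCL1 J Jp])
        (mem_univ Jp)
    exact h3.trans (Finset.single_le_sum (f := fun J => ∑ Jp : S → Finset (Fin q), CL J Jp)
        (fun J _ => Finset.sum_nonneg fun Jp _ => by linarith [hCL1 J Jp]) (mem_univ J))
  have hCT1 : 1 ≤ CT := (hCL1 ∅ fun _ => ∅).trans (hCT _ _)
  obtain ⟨W₂, hW₂⟩ : ∃ W₂ : ℝ, W₂ = |Real.log K₁| + q * Real.log (r + 1) + W +
    ∑ p ∈ S, Wp p := ⟨_, rfl⟩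
  have hWp : ∀ p ∈ S, 0 ≤ Wp p := fun p hp => (hdat p hp).1.1
  obtain ⟨W₃, hW₃⟩ : ∃ W₃ : ℝ, W₃ = Real.log CT + W₂ + (r + 1) * (r * Real.log 2) := ⟨_, rfl⟩
  refine ⟨(2 + Real.exp (δ + W₃)) * (Fintype.card (Fin (N₁ + 1) × (Finset (Fin q) ×
    (Fin q → Fin (N₀ + 1))) × (S → Finset (Fin q) × (Fin q → Fin (N₀ + 1)))) : ℝ), by
    have : 0 < Fintype.card (Fin (N₁ + 1) × (Finset (Fin q) ×
      (Fin q → Fin (N₀ + 1))) × (S → Finset (Fin q) × (Fin q → Fin (N₀ + 1)))) := Fintype.card_pos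
    positivity, ?_⟩
  intro L hL E hE
  obtain ⟨lam, hlam⟩ : ∃ lam : ℝ, lam = η * (L + 1) := ⟨_, rfl⟩
  have hlam0 : 0 < lam := by rw [hlam]; positivity
  have hr0 : (0 : ℝ) < (r : ℝ) + 1 := by linarith
  -- classes at infinity
  have hc1 : ∀ f : ℤ[X], ∃ (J : Finset (Fin q)) (a : Fin q → ℕ), f ∈ E → J.card ≤ r ∧
      (∀ j, a j ≤ N₀) ∧ (∀ j ∈ J, ν f j ≤ (2 ^ r * mm f) * Real.exp (-(lam * a j))) ∧
      min (N₀ * lam) (q * Real.log (mm f) - q * Real.log (r + 1) -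
        Real.log |((resultant f G r q : ℤ) : ℝ)| - q * lam - W) ≤ ∑ j ∈ J, lam * a j := by
    intro f
    by_cases hf : f ∈ E
    · obtain ⟨hirr, hdeg, hmm, hR, -⟩ := hE f hf
      obtain ⟨i₀, hi₀, hi₁⟩ := mm_le f r hdeg.le
      have hM1 : 1 ≤ mm f := one_le_mm hirr.ne_zero
      have hs0 : 0 < |((f.coeff i₀ : ℤ) : ℝ)| := by
        by_contra hcon
        push Not at hcon
        have : (r + 1 : ℝ) * |((f.coeff i₀ : ℤ) : ℝ)| ≤ 0 :=
          mul_nonpos_of_nonneg_of_nonpos hr0.le hcon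
        linarith
      obtain ⟨J, a, h3, h4, h5, h6⟩ := hcl f hdeg.le hR _ hs0 hi₁ ⟨i₀, le_rfl⟩ lam N₀ hlam0
      refine ⟨J, a, fun _ => ⟨h3, h4, fun j hj => (h5 j hj).trans ?_, le_trans ?_ h6⟩⟩
      · refine mul_le_mul_of_nonneg_right ?_ (Real.exp_nonneg _)
        have := coeff_le f i₀
        rw [hdeg] at this
        exact_mod_cast this
      · refine min_le_min le_rfl ?_
        have h7 := Real.log_le_log (by linarith) hi₀
        rw [Real.log_mul hr0.ne' hs0.ne'] at h7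
        have h8 : (q : ℝ) * Real.log (mm f) ≤ q * (Real.log (r + 1) +
            Real.log |((f.coeff i₀ : ℤ) : ℝ)|) := mul_le_mul_of_nonneg_left h7 (Nat.cast_nonneg _)
        simp only at h8 ⊢
        linarith
    · exact ⟨∅, fun _ => 0, fun h => absurd h hf⟩
  choose Jf af hJa using hc1
  -- classes at the primes
  have hc2 : ∀ (f : ℤ[X]) (p : ℕ), ∃ (J : Finset (Fin q)) (a : Fin q → ℕ), f ∈ E → p ∈ S →
      J.card ≤ r ∧ (∀ j, a j ≤ N₀) ∧ (∀ j ∈ J, νp p f j ≤ Real.exp (-(lam * a j))) ∧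
      min (N₀ * lam) (- Real.log (av p (resultant f G r q)) - q * lam - Wp p) ≤
        ∑ j ∈ J, lam * a j := by
    intro f p
    by_cases hf : f ∈ E ∧ p ∈ S
    · obtain ⟨hf, hp⟩ := hf
      obtain ⟨hirr, hdeg, hmm, hR, -⟩ := hE f hf
      obtain ⟨i, hi⟩ := prim_at f r hdeg.le (hirr.isPrimitive (by omega)) p (hS p hp)
      obtain ⟨J, a, h3, h4, h5, h6⟩ := (hdat p hp).1.2.2 f hdeg.le hR 1 one_pos
        (fun i => av_le_one p (hS p hp) _) ⟨i, (av_eq_one p (hS p hp) hi).ge⟩ lam N₀ hlam0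
      refine ⟨J, a, fun _ _ => ⟨h3, h4, fun j hj => by
        have := h5 j hj
        rwa [one_mul] at this, le_trans ?_ h6⟩⟩
      rw [Real.log_one, mul_zero, zero_sub]
    · exact ⟨∅, fun _ => 0, fun h h' => absurd ⟨h, h'⟩ hf⟩
  choose Jpf apf hJap using hc2
  have hfloor : ∀ f ∈ E, ⌊Real.log (mm f) / lam⌋₊ ≤ N₁ ∧
      (⌊Real.log (mm f) / lam⌋₊ : ℝ) * lam ≤ Real.log (mm f) ∧
      Real.log (mm f) ≤ (⌊Real.log (mm f) / lam⌋₊ : ℝ) * lam + lam := by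
    intro f hf
    have hM1 : 1 ≤ mm f := one_le_mm (hE f hf).1.ne_zero
    have hlog0 : 0 ≤ Real.log (mm f) := Real.log_nonneg hM1
    have h0 : 0 ≤ Real.log (mm f) / lam := div_nonneg hlog0 hlam0.le
    have h3 := Nat.floor_le h0
    have h4 := Nat.lt_floor_add_one (Real.log (mm f) / lam)
    have h5 : ⌊Real.log (mm f) / lam⌋₊ ≤ N₁ := by
      refine Nat.floor_le_of_le (le_trans ?_ hN₁)
      rw [div_le_div_iff₀ hlam0 hη0, hlam]
      have h6 := (hE f hf).2.2.1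
      have h7 : Real.log (mm f) * η ≤ (L + 1) * η :=
        mul_le_mul_of_nonneg_right (by linarith) hη0.le
      linarith
    rw [le_div_iff₀ hlam0] at h3
    rw [div_lt_iff₀ hlam0] at h4
    exact ⟨h5, h3, by linarith⟩
  let lab : ℤ[X] → Fin (N₁ + 1) × (Finset (Fin q) × (Fin q → Fin (N₀ + 1))) ×
      (S → Finset (Fin q) × (Fin q → Fin (N₀ + 1))) := fun f =>
    (⟨min N₁ ⌊Real.log (mm f) / lam⌋₊, by omega⟩,
      (Jf f, fun j => ⟨min N₀ (af f j), by omega⟩),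
      fun p => (Jpf f p, fun j => ⟨min N₀ (apf f p j), by omega⟩))
  have hlab : ∀ f ∈ E, ∀ g ∈ E, lab f = lab g →
      ⌊Real.log (mm f) / lam⌋₊ = ⌊Real.log (mm g) / lam⌋₊ ∧ Jf f = Jf g ∧ af f = af g ∧
      ∀ p ∈ S, Jpf f p = Jpf g p ∧ apf f p = apf g p := by
    intro f hf g hg hfg
    simp only [lab, Prod.mk.injEq, Fin.mk.injEq] at hfg
    obtain ⟨h3, ⟨h4, h5⟩, h6⟩ := hfg
    refine ⟨?_, h4, ?_, ?_⟩
    · rw [min_eq_right (hfloor f hf).1, min_eq_right (hfloor g hg).1] at h3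
      exact h3
    · ext j
      have h7 := congrFun h5 j
      rw [Fin.mk.injEq, min_eq_right ((hJa f hf).2.1 j), min_eq_right ((hJa g hg).2.1 j)] at h7
      exact h7
    · intro p hp
      have h7 := congrFun h6 ⟨p, hp⟩
      rw [Prod.mk.injEq] at h7
      refine ⟨h7.1, ?_⟩
      ext j
      have h8 := congrFun h7.2 j
      rw [Fin.mk.injEq, min_eq_right ((hJap f p hf hp).2.1 j),
        min_eq_right ((hJap g p hg hp).2.1 j)] at h8
      exact h8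
  have hexp1 : 1 ≤ Real.exp ((r * (2 * r - 2 - ε) / (2 * (r + 1)) + δ) * L) := by
    refine Real.one_le_exp (mul_nonneg (add_nonneg ?_ hδ.le) hL)
    exact div_nonneg (mul_nonneg (by linarith) (by linarith)) (by linarith)
  have hlm : (2 + ε + (2 * (r : ℝ) - 2 - ε) / (r + 1)) * (L + 1) ≤ N₀ * lam := by
    rw [hlam, ← mul_assoc]
    exact mul_le_mul_of_nonneg_right hN₀ (by linarith)
  have hfib : ∀ l, ((E.filter fun f => lab f = l).card : ℝ) ≤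
      (2 + Real.exp (δ + W₃)) *
        Real.exp ((r * (2 * r - 2 - ε) / (2 * (r + 1)) + δ) * L) := by
    intro l
    have hpos : 0 < Real.exp (δ + W₃) := Real.exp_pos _
    rcases (E.filter fun f => lab f = l).eq_empty_or_nonempty with hK0 | ⟨f₀, hf₀⟩
    · rw [hK0, Finset.card_empty, Nat.cast_zero]
      exact mul_nonneg (by linarith) (by linarith)
    have hf₀' := Finset.mem_filter.1 hf₀
    have hall : ∀ f ∈ E.filter fun f => lab f = l, f ∈ E ∧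
        ⌊Real.log (mm f) / lam⌋₊ = ⌊Real.log (mm f₀) / lam⌋₊ ∧ Jf f = Jf f₀ ∧ af f = af f₀ ∧
      ∀ p ∈ S, Jpf f p = Jpf f₀ p ∧ apf f p = apf f₀ p := by
      intro f hf
      have hf' := Finset.mem_filter.1 hf
      exact ⟨hf'.1, hlab f hf'.1 f₀ hf₀'.1 (hf'.2.trans hf₀'.2.symm)⟩
    have hS1 := (hJa f₀ hf₀'.1).1
    have hcl := class_bound r q hr S hS G ε K₁ L lam (N₀ * lam) W CT Wp hε hε2 hK₁ hL hlam0 hW0
      hWp hCT1 hlm ν νp (Jf f₀) (af f₀) (ext S ∅ fun p => Jpf f₀ p) (apf f₀)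
      ⌊Real.log (mm f₀) / lam⌋₊ (by
        intro K Y t tp hY ht htp hK
        have h3 := hCL (Jf f₀) (fun p => Jpf f₀ p) hS1
          (fun p => (hJap f₀ p hf₀'.1 p.2).1) K Y t tp hY ht htp hK
        rcases h3 with h3 | ⟨c, hc, h3⟩
        · left; exact h3
        · right
          refine ⟨c, hc, h3.trans (mul_le_mul_of_nonneg_right (hCT _ _) ?_)⟩
          refine mul_nonneg (pow_nonneg hY _) (mul_nonneg (Finset.prod_nonneg fun j _ => ht j) ?_)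
          exact Finset.prod_nonneg fun p _ => Finset.prod_nonneg fun j _ => htp p j)
      (E.filter fun f => lab f = l) (fun f hf => hE f (hall f hf).1) (by
        intro f hf
        obtain ⟨h3, h4, -⟩ := hall f hf
        rw [← h4]
        exact (hfloor f h3).2) (by
        intro f hf
        obtain ⟨h3, -, h4, h5, -⟩ := hall f hf
        rw [← h4, ← h5]
        exact (hJa f h3).2.2) (by
        intro f hf p hp
        obtain ⟨h3, -, -, -, h4⟩ := hall f hf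
        rw [ext_of_mem _ _ hp]
        simp only
        rw [← (h4 p hp).1, ← (h4 p hp).2]
        exact (hJap f p h3 hp).2.2)
    rcases hcl with h3 | h3
    · refine h3.trans ?_
      calc (2 : ℝ) ≤ (2 + Real.exp (δ + W₃)) * 1 := by linarith
        _ ≤ _ := mul_le_mul_of_nonneg_left hexp1 (by linarith)
    · refine h3.trans ?_
      rw [← hW₂]
      have h6 : (r : ℝ) * (2 * r - 2 - ε) / (2 * (r + 1)) * L + (Real.log CT +
          (W₂ + q * ((S.card : ℝ) + 1) * lam) + (r + 1) * (lam + r * Real.log 2)) =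
          (δ + W₃) + (r * (2 * r - 2 - ε) / (2 * (r + 1)) + δ) * L := by
        have h7 : ((r : ℝ) + 1 + q * ((S.card : ℝ) + 1)) * lam = δ * (L + 1) := by
          rw [hlam, ← mul_assoc, hηc]
        rw [hW₃]
        linear_combination h7
      rw [h6, Real.exp_add]
      refine mul_le_mul_of_nonneg_right ?_ (Real.exp_nonneg _)
      linarith
  have hM0 : 0 ≤ (2 + Real.exp (δ + W₃)) *
      Real.exp ((r * (2 * r - 2 - ε) / (2 * (r + 1)) + δ) * L) :=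
    mul_nonneg (by linarith [Real.exp_pos (δ + W₃)]) (by linarith)
  have h3 := Finset.card_le_mul_card_image (f := lab) E ⌊(2 + Real.exp (δ + W₃)) *
      Real.exp ((r * (2 * r - 2 - ε) / (2 * (r + 1)) + δ) * L)⌋₊
      (fun l _ => Nat.le_floor (hfib l))
  have h4 := Finset.card_le_univ (E.image lab)
  have h5 := h3.trans (Nat.mul_le_mul_left _ h4)
  have h6 : (E.card : ℝ) ≤ (⌊(2 + Real.exp (δ + W₃)) *
      Real.exp ((r * (2 * r - 2 - ε) / (2 * (r + 1)) + δ) * L)⌋₊ : ℝ) *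
      (Fintype.card (Fin (N₁ + 1) × (Finset (Fin q) × (Fin q → Fin (N₀ + 1))) ×
        (S → Finset (Fin q) × (Fin q → Fin (N₀ + 1)))) : ℝ) := by
    exact_mod_cast h5
  refine h6.trans ?_
  rw [mul_right_comm]
  exact mul_le_mul_of_nonneg_right (Nat.floor_le hM0) (Nat.cast_nonneg _)

end Pool.Agent.R337.VG
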