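import Mathlib
import Pool.Agent.R337.VG.TypeII

set_option autoImplicit false

namespace Pool.Agent.R337.VG

open Polynomial Finset Module IntermediateField
open Pool.Agent.H990R4.VJ.Red (fm)

section field

variable {F : Type*} [NormedField F]

/-- the projective distance of `z` from the point `P` -/
noncomputable def dd (P : F × F) (z : F) : ℝ := ‖P.1 - z * P.2‖ / max 1 ‖z‖

lemma one_le_mx (z : F) : 1 ≤ max 1 ‖z‖ := le_max_left _ _

lemma mx_pos (z : F) : 0 < max 1 ‖z‖ := lt_of_lt_of_le one_pos (one_le_mx z)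

lemma dd_nonneg (P : F × F) (z : F) : 0 ≤ dd P z := div_nonneg (norm_nonneg _) (mx_pos z).le

lemma mul_dd (P : F × F) (z : F) : max 1 ‖z‖ * dd P z = ‖P.1 - z * P.2‖ := by
  unfold dd
  rw [mul_div_cancel₀ _ (mx_pos z).ne']

lemma sep (P Q : F × F) (h : P.1 * Q.2 ≠ Q.1 * P.2) :
    ∃ κ : ℝ, 0 < κ ∧ κ ≤ 1 ∧ ∀ z, κ ≤ max (dd P z) (dd Q z) := by
  set D : ℝ := ‖P.1 * Q.2 - Q.1 * P.2‖ with hD
  have hD0 : 0 < D := norm_pos_iff.2 (sub_ne_zero.2 h)
  set N : ℝ := ‖P.1‖ + ‖P.2‖ + ‖Q.1‖ + ‖Q.2‖ + 1 with hN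
  have hN0 : 0 < N := by positivity
  refine ⟨min 1 (D / (2 * N)), by positivity, min_le_left _ _, fun z => ?_⟩
  refine (min_le_right _ _).trans ?_
  set M := max (dd P z) (dd Q z) with hM
  have hM0 : 0 ≤ M := (dd_nonneg P z).trans (le_max_left _ _)
  have h1 : ‖P.1 - z * P.2‖ ≤ max 1 ‖z‖ * M := by
    rw [← mul_dd]; exact mul_le_mul_of_nonneg_left (le_max_left _ _) (mx_pos z).le
  have h2 : ‖Q.1 - z * Q.2‖ ≤ max 1 ‖z‖ * M := by
    rw [← mul_dd]; exact mul_le_mul_of_nonneg_left (le_max_right _ _) (mx_pos z).le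
  have e1 : P.1 * Q.2 - Q.1 * P.2 = (P.1 - z * P.2) * Q.2 - (Q.1 - z * Q.2) * P.2 := by ring
  have e2 : z * (P.1 * Q.2 - Q.1 * P.2) = Q.1 * (P.1 - z * P.2) - P.1 * (Q.1 - z * Q.2) := by ring
  have hp1 := norm_nonneg P.1
  have hp2 := norm_nonneg P.2
  have hq1 := norm_nonneg Q.1
  have hq2 := norm_nonneg Q.2
  have hmM : 0 ≤ max 1 ‖z‖ * M := mul_nonneg (mx_pos z).le hM0
  have h3 : D ≤ max 1 ‖z‖ * M * (2 * N) := by
    rw [hD, e1]
    refine (norm_sub_le _ _).trans ?_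
    rw [norm_mul, norm_mul]
    nlinarith
  have h4 : ‖z‖ * D ≤ max 1 ‖z‖ * M * (2 * N) := by
    rw [hD, ← norm_mul, e2]
    refine (norm_sub_le _ _).trans ?_
    rw [norm_mul, norm_mul]
    nlinarith
  have h5 : max 1 ‖z‖ * D ≤ max 1 ‖z‖ * M * (2 * N) := by
    rcases max_choice 1 ‖z‖ with h | h
    · rw [h] at h3 ⊢; linarith
    · rw [h] at h4 ⊢; exact h4
  have h6 : D ≤ M * (2 * N) := by
    have := mx_pos z
    rw [mul_assoc] at h5
    exact le_of_mul_le_mul_left h5 this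
  rw [div_le_iff₀ (by positivity)]
  exact h6

/-- the nearest point carries the proximity of one conjugate -/
lemma near {q : ℕ} (hq : 1 ≤ q) (P : Fin q → F × F)
    (hdist : ∀ i j, i ≠ j → (P i).1 * (P j).2 ≠ (P j).1 * (P i).2) :
    ∃ κ : ℝ, 0 < κ ∧ κ ≤ 1 ∧ ∀ z, ∃ j, κ * dd (P j) z ≤ ∏ i, dd (P i) z := by
  classical
  have h1 : ∀ i j : Fin q, ∃ κ : ℝ, 0 < κ ∧ κ ≤ 1 ∧
      (i ≠ j → ∀ z, κ ≤ max (dd (P i) z) (dd (P j) z)) := by
    intro i j
    by_cases h : i = j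
    · exact ⟨1, one_pos, le_rfl, fun h' => absurd h h'⟩
    · obtain ⟨κ, h1, h2, h3⟩ := sep (P i) (P j) (hdist i j h)
      exact ⟨κ, h1, h2, fun _ => h3⟩
  choose κ hκ0 hκ1 hκ using h1
  set μ : ℝ := ∏ i, ∏ j, κ i j with hμ
  have hμ0 : 0 < μ := Finset.prod_pos fun i _ => Finset.prod_pos fun j _ => hκ0 i j
  have hμle : ∀ i j, μ ≤ κ i j := by
    intro i j
    have h2 : ∏ j, κ i j ≤ κ i j := by
      rw [← Finset.mul_prod_erase _ _ (mem_univ j)]
      exact mul_le_of_le_one_right (hκ0 i j).le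
        (Finset.prod_le_one (fun j _ => (hκ0 i j).le) fun j _ => hκ1 i j)
    have h3 : μ ≤ ∏ j, κ i j := by
      rw [hμ, ← Finset.mul_prod_erase _ _ (mem_univ i)]
      refine mul_le_of_le_one_right (Finset.prod_nonneg fun j _ => (hκ0 i j).le) ?_
      exact Finset.prod_le_one (fun i _ => Finset.prod_nonneg fun j _ => (hκ0 i j).le)
        fun i _ => Finset.prod_le_one (fun j _ => (hκ0 i j).le) fun j _ => hκ1 i j
    exact h3.trans h2
  have hμ1 : μ ≤ 1 := (hμle ⟨0, hq⟩ ⟨0, hq⟩).trans (hκ1 _ _)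
  refine ⟨μ ^ q, by positivity, pow_le_one₀ hμ0.le hμ1, fun z => ?_⟩
  have : Nonempty (Fin q) := ⟨⟨0, hq⟩⟩
  obtain ⟨j₀, _, hj₀⟩ := Finset.exists_min_image (Finset.univ : Finset (Fin q))
    (fun j => dd (P j) z) Finset.univ_nonempty
  refine ⟨j₀, ?_⟩
  rw [← Finset.mul_prod_erase _ _ (mem_univ j₀), mul_comm]
  refine mul_le_mul_of_nonneg_left ?_ (dd_nonneg _ _)
  have h2 : μ ^ q ≤ μ ^ (Finset.univ.erase j₀).card := by
    refine pow_le_pow_of_le_one hμ0.le hμ1 ?_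
    rw [Finset.card_erase_of_mem (mem_univ _), Finset.card_univ, Fintype.card_fin]; omega
  refine h2.trans ?_
  rw [← Finset.prod_const]
  refine Finset.prod_le_prod (fun _ _ => hμ0.le) fun j hj => ?_
  have h3 := hκ j₀ j (Finset.ne_of_mem_erase hj).symm z
  rw [max_eq_right (hj₀ j (mem_univ _))] at h3
  exact (hμle _ _).trans h3

lemma pair (P : F × F) (hP : P ≠ 0) : ∃ C : ℝ, 1 ≤ C ∧ ∀ (z w : F) (t : ℝ), dd P z ≤ t →
    dd P w ≤ t → ‖z - w‖ ≤ C * (max 1 ‖z‖ * max 1 ‖w‖ * t) := by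
  have h0 : 0 < max ‖P.1‖ ‖P.2‖ := by
    by_contra hcon
    push Not at hcon
    have h1 : ‖P.1‖ ≤ 0 := (le_max_left _ _).trans hcon
    have h2 : ‖P.2‖ ≤ 0 := (le_max_right _ _).trans hcon
    exact hP (Prod.ext (norm_le_zero_iff.1 h1) (norm_le_zero_iff.1 h2))
  refine ⟨1 + 2 / max ‖P.1‖ ‖P.2‖, by
    have : 0 ≤ 2 / max ‖P.1‖ ‖P.2‖ := by positivity
    linarith, fun z w t hz hw => ?_⟩
  have ht0 : 0 ≤ t := (dd_nonneg P z).trans hz
  have hz1 : ‖P.1 - z * P.2‖ ≤ max 1 ‖z‖ * t := by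
    rw [← mul_dd]; exact mul_le_mul_of_nonneg_left hz (mx_pos z).le
  have hw1 : ‖P.1 - w * P.2‖ ≤ max 1 ‖w‖ * t := by
    rw [← mul_dd]; exact mul_le_mul_of_nonneg_left hw (mx_pos w).le
  have e1 : (z - w) * P.1 = z * (P.1 - w * P.2) - w * (P.1 - z * P.2) := by ring
  have e2 : (z - w) * P.2 = (P.1 - w * P.2) - (P.1 - z * P.2) := by ring
  have hz2 := one_le_mx z
  have hw2 := one_le_mx w
  have hz3 := le_max_right 1 ‖z‖
  have hw3 := le_max_right 1 ‖w‖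
  have hz4 := norm_nonneg z
  have hw4 := norm_nonneg w
  set A := max 1 ‖z‖ with hA
  set B := max 1 ‖w‖ with hB
  have hA0 : 0 ≤ A := by linarith
  have hB0 : 0 ≤ B := by linarith
  have h1 : ‖z - w‖ * ‖P.1‖ ≤ 2 * (A * B * t) := by
    rw [← norm_mul, e1]
    refine (norm_sub_le _ _).trans ?_
    rw [norm_mul, norm_mul]
    have h3 : ‖z‖ * ‖P.1 - w * P.2‖ ≤ A * (B * t) := mul_le_mul hz3 hw1 (norm_nonneg _) hA0
    have h4 : ‖w‖ * ‖P.1 - z * P.2‖ ≤ B * (A * t) := mul_le_mul hw3 hz1 (norm_nonneg _) hB0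
    linarith
  have h2 : ‖z - w‖ * ‖P.2‖ ≤ 2 * (A * B * t) := by
    rw [← norm_mul, e2]
    refine (norm_sub_le _ _).trans ?_
    have h3 : B * t ≤ A * B * t := by
      have : B * t ≤ A * (B * t) := le_mul_of_one_le_left (by positivity) hz2
      linarith
    have h4 : A * t ≤ A * B * t := by
      have : A * t ≤ B * (A * t) := le_mul_of_one_le_left (by positivity) hw2
      linarith
    linarith
  have h3 : ‖z - w‖ * max ‖P.1‖ ‖P.2‖ ≤ 2 * (A * B * t) := by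
    rcases max_choice ‖P.1‖ ‖P.2‖ with h | h <;> rw [h]
    · exact h1
    · exact h2
  have h4 : ‖z - w‖ ≤ 2 / max ‖P.1‖ ‖P.2‖ * (A * B * t) := by
    rw [div_mul_eq_mul_div, le_div_iff₀ h0]; exact h3
  have h5 : 0 ≤ A * B * t := by positivity
  linarith

end field

section roots

variable {F : Type*} [Field F] [IsAlgClosed F] [CharZero F] {K : Type*} [Field K] [Algebra ℚ K]
  [FiniteDimensional ℚ K]

omit [IsAlgClosed F] [FiniteDimensional ℚ K] in
lemma root_emb (f : ℤ[X]) (ξ : K) (hf : aeval ξ f = 0) (σ : K →ₐ[ℚ] F) :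
    (f.map (Int.castRingHom F)).eval (σ ξ) = 0 := by
  have h1 : σ (aeval ξ f) = 0 := by rw [hf, map_zero]
  have h2 : (σ.toRingHom.comp (algebraMap ℤ K)) = Int.castRingHom F := RingHom.ext_int _ _
  rw [eval_map, ← h2, ← h1]
  rw [aeval_def]
  exact (hom_eval₂ f (algebraMap ℤ K) σ.toRingHom ξ).symm

lemma roots_eq (f : ℤ[X]) (ξ : K) (hξ : ℚ⟮ξ⟯ = ⊤) (hf : aeval ξ f = 0) (hf0 : f ≠ 0)
    (hd : f.natDegree = finrank ℚ K) :
    (f.map (Int.castRingHom F)).roots =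
      (Finset.univ : Finset (K →ₐ[ℚ] F)).val.map (fun σ => σ ξ) := by
  classical
  have hinj : Function.Injective (fun σ : K →ₐ[ℚ] F => σ ξ) := by
    intro σ τ h
    have h1 : Algebra.adjoin ℚ {ξ} = ⊤ := by
      rw [← IntermediateField.adjoin_simple_toSubalgebra_of_isAlgebraic
        (Algebra.IsAlgebraic.isAlgebraic ξ), hξ, IntermediateField.top_toSubalgebra]
    refine AlgHom.ext_of_adjoin_eq_top h1 ?_
    intro x hx
    rw [Set.mem_singleton_iff] at hx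
    rw [hx]; exact h
  have hfF : f.map (Int.castRingHom F) ≠ 0 :=
    (Polynomial.map_ne_zero_iff (RingHom.injective_int _)).2 hf0
  have hnd : ((Finset.univ : Finset (K →ₐ[ℚ] F)).val.map (fun σ => σ ξ)).Nodup :=
    (Multiset.nodup_map_iff_of_injective hinj).2 Finset.univ.nodup
  symm
  refine Multiset.eq_of_le_of_card_le ?_ ?_
  · rw [Multiset.le_iff_subset hnd]
    intro z hz
    obtain ⟨σ, _, rfl⟩ := Multiset.mem_map.1 hz
    rw [mem_roots hfF]
    exact root_emb f ξ hf σ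
  · rw [Multiset.card_map]
    have h1 : (Finset.univ : Finset (K →ₐ[ℚ] F)).val.card = finrank ℚ K := by
      rw [← AlgHom.card ℚ K F]; rfl
    rw [h1, ← hd]
    refine (card_roots' _).trans ?_
    exact natDegree_map_le

end roots

end Pool.Agent.R337.VG
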