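import Mathlib
import Pool.Agent.R337.VG.GapLoc

set_option autoImplicit false

namespace Pool.Agent.R337.VG

open Polynomial Finset Module IntermediateField
open Pool.Agent.H990R4.VJ.Red (fm)

section fmprod

variable {F : Type*} [NormedField F] [IsAlgClosed F] [CharZero F]

omit [CharZero F] in
lemma fm_eq_multiset (r : ℕ) (f : ℤ[X]) (hd : f.natDegree = r)
    (hd' : (f.map (Int.castRingHom F)).natDegree = r) (P : F × F) :
    fm r f P = (f.leadingCoeff : F) *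
      ((f.map (Int.castRingHom F)).roots.map fun z => P.1 - z * P.2).prod := by
  set g := f.map (Int.castRingHom F) with hg
  have hlc : g.leadingCoeff = (f.leadingCoeff : F) := by
    rw [leadingCoeff, hd', hg, coeff_map, leadingCoeff, hd]; rfl
  have hsplit := (IsAlgClosed.splits g).eq_prod_roots
  have hcard : g.roots.card = r := by
    rw [← (IsAlgClosed.splits g).natDegree_eq_card_roots, hd']
  by_cases hP : P.2 = 0
  · have h1 : fm r f P = (f.coeff r : F) * P.1 ^ r := by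
      unfold fm
      rw [Finset.sum_eq_single (Fin.last r)]
      · simp
      · intro i _ hi
        have : (i.rev : ℕ) ≠ 0 := by
          rw [Fin.val_rev]
          have h1 : (i : ℕ) ≠ r := fun h => hi (Fin.ext (by simpa using h))
          have h2 := i.2
          omega
        rw [hP, zero_pow this]; ring
      · intro h; exact absurd (Finset.mem_univ _) h
    rw [h1, leadingCoeff, hd]
    congr 1
    have h2 : (g.roots.map fun z => P.1 - z * P.2) = Multiset.replicate r P.1 := by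
      rw [hP]
      simp only [mul_zero, sub_zero]
      rw [Multiset.map_const', hcard]
    rw [h2, Multiset.prod_replicate]
  · have h1 : fm r f P = P.2 ^ r * g.eval (P.1 / P.2) := by
      unfold fm
      rw [eval_eq_sum_range' (n := r + 1) (by rw [hd']; omega), Finset.sum_range, Finset.mul_sum]
      refine Finset.sum_congr rfl fun i _ => ?_
      have h2 : P.2 ^ r = P.2 ^ (i.rev : ℕ) * P.2 ^ (i : ℕ) := by
        rw [← pow_add, Fin.val_rev]; congr 1; have := i.2; omega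
      rw [hg, coeff_map, h2, div_pow]
      have h3 : P.2 ^ (i : ℕ) ≠ 0 := pow_ne_zero _ hP
      field_simp
      exact mul_comm _ _
    rw [h1]
    conv_lhs => rw [hsplit]
    rw [hlc, eval_mul, eval_C, eval_multiset_prod, Multiset.map_map]
    have h2 : (g.roots.map fun z => P.1 - z * P.2) =
        g.roots.map fun z => P.2 * (P.1 / P.2 - z) := by
      refine Multiset.map_congr rfl fun z _ => ?_
      field_simp
    rw [h2, Multiset.prod_map_mul, Multiset.map_const', Multiset.prod_replicate, hcard]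
    have h3 : (g.roots.map (eval (P.1 / P.2) ∘ fun a => X - C a)) =
        g.roots.map fun z => P.1 / P.2 - z := by
      refine Multiset.map_congr rfl fun z _ => ?_
      simp
    rw [h3]; ring

variable {K : Type} [Field K] [Algebra ℚ K] [FiniteDimensional ℚ K]

/-- `ξ` generates `K` and `f` is an integral polynomial of degree `r = [K : ℚ]` with root `ξ` -/
def Gen (r : ℕ) (ξ : K) (f : ℤ[X]) : Prop :=
  ℚ⟮ξ⟯ = ⊤ ∧ aeval ξ f = 0 ∧ f ≠ 0 ∧ f.natDegree = r

lemma fm_eq_emb (r : ℕ) (hK : finrank ℚ K = r) (ξ : K) (f : ℤ[X]) (h : Gen r ξ f) (P : F × F) :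
    fm r f P = (f.leadingCoeff : F) * ∏ σ : K →ₐ[ℚ] F, (P.1 - σ ξ * P.2) := by
  obtain ⟨h1, h2, h3, h4⟩ := h
  rw [fm_eq_multiset r f h4 (by
    rw [natDegree_map_eq_of_injective (RingHom.injective_int _), h4]),
    roots_eq f ξ h1 h2 h3 (by rw [hK, h4]), Multiset.map_map]
  rfl

/-- the size of `f` at the place -/
noncomputable def sz (F : Type*) [NormedField F] [CharZero F] [IsAlgClosed F] (ξ : K)
    (f : ℤ[X]) : ℝ :=
  ‖(f.leadingCoeff : F)‖ * ∏ σ : K →ₐ[ℚ] F, max 1 ‖σ ξ‖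

lemma sz_pos (ξ : K) (f : ℤ[X]) (hf : f ≠ 0) : 0 < sz F ξ f := by
  unfold sz
  refine mul_pos (norm_pos_iff.2 ?_) (Finset.prod_pos fun σ _ => mx_pos _)
  exact_mod_cast leadingCoeff_ne_zero.2 hf

lemma norm_fm (r : ℕ) (hK : finrank ℚ K = r) (ξ : K) (f : ℤ[X]) (h : Gen r ξ f) (P : F × F) :
    ‖fm r f P‖ = sz F ξ f * ∏ σ : K →ₐ[ℚ] F, dd P (σ ξ) := by
  rw [fm_eq_emb r hK ξ f h, norm_mul, norm_prod, sz, mul_assoc, ← Finset.prod_mul_distrib]
  congr 1
  exact Finset.prod_congr rfl fun σ _ => (mul_dd P (σ ξ)).symm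

/-- the label of one point at one place -/
lemma gap_one (r q : ℕ) (hq : 1 ≤ q) (G : ℤ[X]) (P : Fin q → F × F)
    (hdist : ∀ i j, i ≠ j → (P i).1 * (P j).2 ≠ (P j).1 * (P i).2) (c : F) (hc : c ≠ 0)
    (hres : ∀ f : ℤ[X], f.natDegree ≤ r →
        ((resultant f G r q : ℤ) : F) = c * ∏ j, fm r f (P j)) :
    ∃ W U : ℝ, 0 ≤ W ∧ 1 ≤ U ∧ ∀ (K : Type) [Field K] [Algebra ℚ K] [FiniteDimensional ℚ K],
      finrank ℚ K = r → ∀ (N₀ : ℕ) (ξ : K) (f : ℤ[X]) (lam : ℝ), Gen r ξ f →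
      resultant f G r q ≠ 0 → 0 < lam → ∃ (j : (K →ₐ[ℚ] F) → Fin q) (b : (K →ₐ[ℚ] F) → ℕ),
        (∀ σ, b σ ≤ N₀) ∧ (∀ σ, dd (P (j σ)) (σ ξ) ≤ U * Real.exp (-(lam * b σ))) ∧
        min (N₀ * lam) (q * Real.log (sz F ξ f) - Real.log ‖((resultant f G r q : ℤ) : F)‖ -
          r * lam - W) ≤ ∑ σ, lam * b σ := by
  classical
  obtain ⟨κ, hκ0, hκ1, hκ⟩ := near hq P hdist
  set U : ℝ := 1 + ∑ j, (‖(P j).1‖ + ‖(P j).2‖) with hU
  have hU1 : 1 ≤ U := by
    have : 0 ≤ ∑ j, (‖(P j).1‖ + ‖(P j).2‖) := by positivity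
    linarith
  have hddU : ∀ j z, dd (P j) z ≤ U := by
    intro j z
    have h1 : dd (P j) z ≤ ‖(P j).1‖ + ‖(P j).2‖ := by
      unfold dd
      rw [div_le_iff₀ (mx_pos z)]
      refine (norm_sub_le _ _).trans ?_
      rw [norm_mul]
      have h2 := one_le_mx z
      have h3 := le_max_right 1 ‖z‖
      have h4 := norm_nonneg (P j).1
      have h5 := norm_nonneg (P j).2
      nlinarith
    have h2 : ‖(P j).1‖ + ‖(P j).2‖ ≤ ∑ j, (‖(P j).1‖ + ‖(P j).2‖) :=
      Finset.single_le_sum (f := fun j => ‖(P j).1‖ + ‖(P j).2‖) (fun _ _ => by positivity)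
        (mem_univ j)
    linarith
  refine ⟨|Real.log ‖c‖| + r * |Real.log κ|, U, by positivity, hU1, ?_⟩
  intro K _ _ _ hK N₀ ξ f lam hgen hR hlam
  choose j₀ hj₀ using hκ
  have hszpos : 0 < sz F ξ f := sz_pos ξ f hgen.2.2.1
  have hRF : ((resultant f G r q : ℤ) : F) ≠ 0 := by exact_mod_cast hR
  have hRF' := hRF
  rw [hres f hgen.2.2.2.le] at hRF'
  have hfmne : ∀ j, fm r f (P j) ≠ 0 := fun j =>
    (Finset.prod_ne_zero_iff.1 (right_ne_zero_of_mul hRF')) j (mem_univ _)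
  have hddpos : ∀ j (σ : K →ₐ[ℚ] F), 0 < dd (P j) (σ ξ) := by
    intro j σ
    have h1 := norm_fm (F := F) r hK ξ f hgen (P j)
    have h2 : 0 < ‖fm r f (P j)‖ := norm_pos_iff.2 (hfmne j)
    rw [h1] at h2
    refine lt_of_le_of_ne (dd_nonneg _ _) fun h3 => ?_
    rw [Finset.prod_eq_zero (mem_univ σ) h3.symm, mul_zero] at h2
    exact lt_irrefl _ h2
  set y : (K →ₐ[ℚ] F) → ℝ := fun σ => -Real.log (dd (P (j₀ (σ ξ))) (σ ξ)) with hy
  set b : (K →ₐ[ℚ] F) → ℕ := fun σ => min N₀ ⌊y σ / lam⌋₊ with hb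
  refine ⟨fun σ => j₀ (σ ξ), b, fun σ => min_le_left _ _, ?_, ?_⟩
  · intro σ
    rcases le_total 0 (y σ) with h | h
    · have h1 : lam * b σ ≤ y σ := by
        have h2 : (b σ : ℝ) ≤ y σ / lam := by
          refine le_trans ?_ (Nat.floor_le (div_nonneg h hlam.le))
          exact_mod_cast min_le_right _ _
        rw [le_div_iff₀ hlam] at h2
        linarith
      have h2 : dd (P (j₀ (σ ξ))) (σ ξ) ≤ Real.exp (-(lam * b σ)) := by
        rw [← Real.log_le_log_iff (hddpos _ σ) (Real.exp_pos _), Real.log_exp]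
        simp only [hy] at h1
        linarith
      exact h2.trans (le_mul_of_one_le_left (Real.exp_nonneg _) hU1)
    · have h1 : b σ = 0 := by
        have h2 : ⌊y σ / lam⌋₊ = 0 := Nat.floor_of_nonpos (div_nonpos_of_nonpos_of_nonneg h hlam.le)
        simp only [hb, h2]; simp
      rw [h1, Nat.cast_zero, mul_zero, neg_zero, Real.exp_zero, mul_one]
      exact hddU _ _
  · have hsum0 : ∀ σ ∈ (Finset.univ : Finset (K →ₐ[ℚ] F)), 0 ≤ lam * (b σ : ℝ) :=
      fun σ _ => mul_nonneg hlam.le (Nat.cast_nonneg _)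
    by_cases hcap : ∃ σ, b σ = N₀
    · obtain ⟨σ, hσ⟩ := hcap
      refine (min_le_left _ _).trans ?_
      have h1 := Finset.single_le_sum hsum0 (mem_univ σ)
      rw [hσ] at h1
      linarith
    · push Not at hcap
      refine (min_le_right _ _).trans ?_
      have h1 : ∀ σ, y σ - lam ≤ lam * b σ := by
        intro σ
        have h2 : b σ = ⌊y σ / lam⌋₊ := by
          have := hcap σ
          simp only [hb] at this ⊢
          omega
        have h3 := Nat.lt_floor_add_one (y σ / lam)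
        rw [← h2, div_lt_iff₀ hlam] at h3
        linarith
      have h2 : ∀ σ : K →ₐ[ℚ] F, -∑ j, Real.log (dd (P j) (σ ξ)) - |Real.log κ| ≤ y σ := by
        intro σ
        have h3 := Real.log_le_log (mul_pos hκ0 (hddpos _ σ)) (hj₀ (σ ξ))
        rw [Real.log_mul hκ0.ne' (hddpos _ σ).ne', Real.log_prod fun j _ => (hddpos j σ).ne'] at h3
        have h4 := neg_abs_le (Real.log κ)
        simp only [hy]; linarith
      have h3 : ∑ σ : K →ₐ[ℚ] F, (-∑ j, Real.log (dd (P j) (σ ξ)) - |Real.log κ| - lam) ≤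
          ∑ σ, lam * b σ := Finset.sum_le_sum fun σ _ => by linarith [h1 σ, h2 σ]
      refine le_trans ?_ h3
      have hcard : ((Finset.univ : Finset (K →ₐ[ℚ] F)).card : ℝ) = r := by
        rw [Finset.card_univ, AlgHom.card ℚ K F, hK]
      rw [Finset.sum_sub_distrib, Finset.sum_sub_distrib, Finset.sum_neg_distrib,
        Finset.sum_const, Finset.sum_const, nsmul_eq_mul, nsmul_eq_mul, hcard, Finset.sum_comm]
      have h4 : ∀ j, ∑ σ : K →ₐ[ℚ] F, Real.log (dd (P j) (σ ξ)) =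
          Real.log ‖fm r f (P j)‖ - Real.log (sz F ξ f) := by
        intro j
        rw [norm_fm (F := F) r hK ξ f hgen (P j), Real.log_mul hszpos.ne'
          (Finset.prod_ne_zero_iff.2 fun σ _ => (hddpos j σ).ne'),
          Real.log_prod fun σ _ => (hddpos j σ).ne']
        ring
      have h5 : ∑ j, ∑ σ : K →ₐ[ℚ] F, Real.log (dd (P j) (σ ξ)) =
          Real.log ‖((resultant f G r q : ℤ) : F)‖ - Real.log ‖c‖ - q * Real.log (sz F ξ f) := by
        rw [Finset.sum_congr rfl fun j _ => h4 j, Finset.sum_sub_distrib, Finset.sum_const,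
          Finset.card_univ, Fintype.card_fin, nsmul_eq_mul, hres f hgen.2.2.2.le, norm_mul,
          norm_prod, Real.log_mul (norm_pos_iff.2 hc).ne'
          (Finset.prod_ne_zero_iff.2 fun j _ => (norm_pos_iff.2 (hfmne j)).ne'),
          Real.log_prod fun j _ => (norm_pos_iff.2 (hfmne j)).ne']
        ring
      rw [h5]
      have h6 := neg_abs_le (Real.log ‖c‖)
      linarith

/-- two points with the same label are close to each other -/
lemma gap_two (r q : ℕ) (P : Fin q → F × F) (hP0 : ∀ i, P i ≠ 0) (U : ℝ) (hU : 1 ≤ U) :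
    ∃ C : ℝ, 1 ≤ C ∧ ∀ (K : Type) [Field K] [Algebra ℚ K] [FiniteDimensional ℚ K],
      finrank ℚ K = r → ∀ (ξ ξ' : K) (f f' : ℤ[X]) (t : (K →ₐ[ℚ] F) → ℝ)
        (j : (K →ₐ[ℚ] F) → Fin q), (∀ σ, 0 ≤ t σ) → (∀ σ, dd (P (j σ)) (σ ξ) ≤ U * t σ) →
        (∀ σ, dd (P (j σ)) (σ ξ') ≤ U * t σ) →
        ‖(f.leadingCoeff : F) * (f'.leadingCoeff : F) * ∏ σ : K →ₐ[ℚ] F, (σ ξ - σ ξ')‖ ≤
          C * (sz F ξ f * sz F ξ' f') * ∏ σ, t σ := by
  choose C hC1 hC using fun i => pair (P i) (hP0 i)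
  set A : ℝ := 1 + ∑ i, C i with hA
  have hAi : ∀ i, C i ≤ A := by
    intro i
    have := Finset.single_le_sum (f := C) (fun i _ => by linarith [hC1 i]) (mem_univ i)
    linarith
  have hA1 : 1 ≤ A := by
    have : 0 ≤ ∑ i, C i := Finset.sum_nonneg fun i _ => by linarith [hC1 i]
    linarith
  refine ⟨(A * U) ^ r, one_le_pow₀ (by nlinarith), ?_⟩
  intro K _ _ _ hK ξ ξ' f f' t j ht h1 h2
  rw [norm_mul, norm_mul, norm_prod]
  have h3 : ∏ σ : K →ₐ[ℚ] F, ‖σ ξ - σ ξ'‖ ≤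
      ∏ σ : K →ₐ[ℚ] F, ((A * U) * (max 1 ‖σ ξ‖ * max 1 ‖σ ξ'‖ * t σ)) := by
    refine Finset.prod_le_prod (fun _ _ => norm_nonneg _) fun σ _ => ?_
    have h4 := hC (j σ) (σ ξ) (σ ξ') (U * t σ) (h1 σ) (h2 σ)
    have h5 : 0 ≤ max 1 ‖σ ξ‖ * max 1 ‖σ ξ'‖ * (U * t σ) :=
      mul_nonneg (mul_nonneg (mx_pos _).le (mx_pos _).le) (mul_nonneg (by linarith) (ht σ))
    have h6 := mul_le_mul_of_nonneg_right (hAi (j σ)) h5
    calc ‖σ ξ - σ ξ'‖ ≤ _ := h4
      _ ≤ A * (max 1 ‖σ ξ‖ * max 1 ‖σ ξ'‖ * (U * t σ)) := h6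
      _ = _ := by ring
  have h4 : ∏ σ : K →ₐ[ℚ] F, ((A * U) * (max 1 ‖σ ξ‖ * max 1 ‖σ ξ'‖ * t σ)) =
      (A * U) ^ r * (((∏ σ : K →ₐ[ℚ] F, max 1 ‖σ ξ‖) * ∏ σ : K →ₐ[ℚ] F, max 1 ‖σ ξ'‖) *
        ∏ σ, t σ) := by
    rw [Finset.prod_mul_distrib, Finset.prod_const, Finset.card_univ, AlgHom.card ℚ K F, hK,
      Finset.prod_mul_distrib, Finset.prod_mul_distrib]
  rw [h4] at h3
  unfold sz
  calc ‖(f.leadingCoeff : F)‖ * ‖(f'.leadingCoeff : F)‖ * ∏ σ : K →ₐ[ℚ] F, ‖σ ξ - σ ξ'‖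
      ≤ ‖(f.leadingCoeff : F)‖ * ‖(f'.leadingCoeff : F)‖ * ((A * U) ^ r *
        (((∏ σ : K →ₐ[ℚ] F, max 1 ‖σ ξ‖) * ∏ σ : K →ₐ[ℚ] F, max 1 ‖σ ξ'‖) * ∏ σ, t σ)) :=
        mul_le_mul_of_nonneg_left h3 (by positivity)
    _ = _ := by ring

end fmprod

end Pool.Agent.R337.VG
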