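import Mathlib
import Pool.Agent.R337.VG.GapField

set_option autoImplicit false

namespace Pool.Agent.R337.VG

open Polynomial Finset Module IntermediateField
open Pool.Agent.H990R4.VJ (mm one_le_mm mm_eq)
open Pool.Agent.H990R4.VJ.Red (fm exists_points)
open Pool.Agent.W226.VQ (av av_nonneg av_le_one av_pos av_eq_one)

lemma sz_complex {K : Type} [Field K] [Algebra ℚ K] [FiniteDimensional ℚ K] (r : ℕ)
    (hK : finrank ℚ K = r) (ξ : K) (f : ℤ[X]) (h : Gen r ξ f) : sz ℂ ξ f = mm f := by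
  obtain ⟨h1, h2, h3, h4⟩ := h
  rw [mm_eq, roots_eq f ξ h1 h2 h3 (by rw [hK, h4]), Multiset.map_map, sz]
  congr 1
  rw [Complex.norm_intCast]

section padic

variable (p : ℕ) [hp : Fact p.Prime]

lemma gauss_lin (z : PadicAlgCl p) :
    (X - C z).gaussNorm (NormedField.toAbsoluteValue (PadicAlgCl p)) 1 = max 1 ‖z‖ := by
  set v := NormedField.toAbsoluteValue (PadicAlgCl p) with hv
  have hv' : ∀ x, v x = ‖x‖ := fun x => rfl
  apply le_antisymm
  · obtain ⟨i, hi⟩ := (X - C z : (PadicAlgCl p)[X]).exists_eq_gaussNorm v 1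
    rw [hi, one_pow, mul_one, hv']
    rcases i with _ | _ | i
    · rw [coeff_sub, coeff_X_zero, coeff_C_zero, zero_sub, norm_neg]; exact le_max_right _ _
    · rw [coeff_sub, coeff_X_one, coeff_C, if_neg (by norm_num), sub_zero, norm_one]
      exact le_max_left _ _
    · rw [coeff_sub, coeff_X, coeff_C, if_neg (by omega), if_neg (by omega), sub_zero, norm_zero]
      exact le_trans zero_le_one (le_max_left _ _)
  · refine max_le ?_ ?_
    · have h1 := (X - C z : (PadicAlgCl p)[X]).le_gaussNorm v zero_le_one 1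
      rwa [coeff_sub, coeff_X_one, coeff_C, if_neg (by norm_num), sub_zero, hv', norm_one,
        one_pow, mul_one] at h1
    · have h1 := (X - C z : (PadicAlgCl p)[X]).le_gaussNorm v zero_le_one 0
      rwa [coeff_sub, coeff_X_zero, coeff_C_zero, zero_sub, hv', norm_neg, pow_zero, mul_one] at h1

lemma gauss_prod (s : Multiset (PadicAlgCl p)) :
    ((s.map fun z => X - C z).prod).gaussNorm (NormedField.toAbsoluteValue (PadicAlgCl p)) 1 =
      (s.map fun z => max 1 ‖z‖).prod := by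
  have hna : IsNonarchimedean (NormedField.toAbsoluteValue (PadicAlgCl p)) := by
    intro x y
    exact IsUltrametricDist.norm_add_le_max x y
  induction s using Multiset.induction_on with
  | empty =>
    rw [Multiset.map_zero, Multiset.map_zero, Multiset.prod_zero, Multiset.prod_zero, ← C_1,
      gaussNorm_C]
    exact norm_one (α := PadicAlgCl p)
  | cons z s ih =>
    rw [Multiset.map_cons, Multiset.map_cons, Multiset.prod_cons, Multiset.prod_cons,
      gaussNorm_mul hna one_pos, ih, gauss_lin]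

lemma sz_padic {K : Type} [Field K] [Algebra ℚ K] [FiniteDimensional ℚ K] (r : ℕ)
    (hK : finrank ℚ K = r) (ξ : K) (f : ℤ[X]) (h : Gen r ξ f) (hprim : f.IsPrimitive) :
    sz (PadicAlgCl p) ξ f = 1 := by
  obtain ⟨h1, h2, h3, h4⟩ := h
  set v := NormedField.toAbsoluteValue (PadicAlgCl p) with hv
  have hv' : ∀ x, v x = ‖x‖ := fun x => rfl
  have hna : IsNonarchimedean v := by
    intro x y
    exact IsUltrametricDist.norm_add_le_max x y
  set g := f.map (Int.castRingHom (PadicAlgCl p)) with hg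
  have hgn : g.gaussNorm v 1 = 1 := by
    apply le_antisymm
    · obtain ⟨i, hi⟩ := g.exists_eq_gaussNorm v 1
      rw [hi, one_pow, mul_one, hv', hg, coeff_map]
      show ‖((f.coeff i : ℤ) : PadicAlgCl p)‖ ≤ 1
      rw [norm_eq_av]
      exact av_le_one p hp.out _
    · obtain ⟨i, hi⟩ := prim_at f r h4.le hprim p hp.out
      have h5 := g.le_gaussNorm v zero_le_one (i : ℕ)
      rw [one_pow, mul_one, hv', hg, coeff_map] at h5
      have h6 : ‖((f.coeff i : ℤ) : PadicAlgCl p)‖ = 1 := by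
        rw [norm_eq_av]; exact av_eq_one p hp.out hi
      change ‖((f.coeff i : ℤ) : PadicAlgCl p)‖ ≤ _ at h5
      rwa [h6] at h5
  have hlc : g.leadingCoeff = (f.leadingCoeff : PadicAlgCl p) := by
    rw [hg, leadingCoeff_map_of_injective (RingHom.injective_int _)]; rfl
  have h5 := (IsAlgClosed.splits g).eq_prod_roots
  rw [h5, gaussNorm_mul hna one_pos, gaussNorm_C, gauss_prod, hlc, hv',
    roots_eq f ξ h1 h2 h3 (by rw [hK, h4]), Multiset.map_map] at hgn
  exact hgn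

end padic

/-- `x` is in `K` and `f` is an irreducible integral polynomial of degree `r` with root `x` -/
def Mem (r : ℕ) (K : IntermediateField ℚ ℂ) (x : ℂ) (f : ℤ[X]) : Prop :=
  x ∈ K ∧ Irreducible f ∧ f.natDegree = r ∧ aeval x f = 0

lemma Mem.gen {r : ℕ} (hr : 1 ≤ r) {K : IntermediateField ℚ ℂ} [FiniteDimensional ℚ K]
    (hK : finrank ℚ K = r) {x : ℂ} {f : ℤ[X]} (h : Mem r K x f) :
    Gen r (⟨x, h.1⟩ : K) f := by
  obtain ⟨h1, h2, h3, h4⟩ := h
  have h5 : aeval (⟨x, h1⟩ : K) f = 0 := by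
    have h6 : algebraMap K ℂ (aeval (⟨x, h1⟩ : K) f) = 0 := by
      rw [← aeval_algebraMap_apply]; exact h4
    exact (map_eq_zero _).1 h6
  refine ⟨?_, h5, h2.ne_zero, h3⟩
  rw [Field.primitive_element_iff_minpoly_natDegree_eq, hK]
  have h7 : Irreducible (f.map (Int.castRingHom ℚ)) := irr_map h2 (by omega)
  have h8 : aeval (⟨x, h1⟩ : K) (f.map (Int.castRingHom ℚ)) = 0 := by
    have h9 := aeval_map_algebraMap ℚ (⟨x, h1⟩ : K) f
    rw [h5] at h9
    exact h9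
  have h9 := minpoly.eq_of_irreducible h7 h8
  rw [← h9, natDegree_mul_C (inv_ne_zero (leadingCoeff_ne_zero.2 h7.ne_zero)),
    natDegree_map_eq_of_injective Int.cast_injective, h3]

/-- the integer attached to two points of `K` -/
noncomputable def Rho (K : IntermediateField ℚ ℂ) (x x' : K) (f f' : ℤ[X]) : ℚ :=
  (f.leadingCoeff : ℚ) * (f'.leadingCoeff : ℚ) * Algebra.norm ℚ (x - x')

lemma rho_eq {F : Type*} [NormedField F] [IsAlgClosed F] [CharZero F]
    (K : IntermediateField ℚ ℂ) [FiniteDimensional ℚ K] (x x' : K) (f f' : ℤ[X]) :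
    algebraMap ℚ F (Rho K x x' f f') = (f.leadingCoeff : F) * (f'.leadingCoeff : F) *
      ∏ σ : K →ₐ[ℚ] F, (σ x - σ x') := by
  unfold Rho
  rw [map_mul, map_mul, map_intCast, map_intCast, Algebra.norm_eq_prod_embeddings ℚ F]
  congr 1
  exact Finset.prod_congr rfl fun σ _ => map_sub σ x x'

lemma exists_int (r : ℕ) (hr : 1 ≤ r) (K : IntermediateField ℚ ℂ) [FiniteDimensional ℚ K]
    (hK : finrank ℚ K = r) (x x' : ℂ) (f f' : ℤ[X]) (h : Mem r K x f) (h' : Mem r K x' f')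
    (hne : x ≠ x') : ∃ m : ℤ, m ≠ 0 ∧ (m : ℚ) = Rho K ⟨x, h.1⟩ ⟨x', h'.1⟩ f f' := by
  set ρ := Rho K ⟨x, h.1⟩ ⟨x', h'.1⟩ f f' with hρ
  have hρ0 : ρ ≠ 0 := by
    rw [hρ, Rho]
    refine mul_ne_zero (mul_ne_zero ?_ ?_) ?_
    · exact_mod_cast leadingCoeff_ne_zero.2 h.2.1.ne_zero
    · exact_mod_cast leadingCoeff_ne_zero.2 h'.2.1.ne_zero
    · rw [Algebra.norm_ne_zero_iff, sub_ne_zero]
      intro h1
      exact hne (congrArg Subtype.val h1)
  have hden : ρ.den = 1 := by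
    by_contra hcon
    obtain ⟨p, hp, hpd⟩ := Nat.exists_prime_and_dvd hcon
    have : Fact p.Prime := ⟨hp⟩
    have h1 : ‖algebraMap ℚ (PadicAlgCl p) ρ‖ ≤ 1 := by
      rw [hρ, rho_eq, norm_mul, norm_mul, norm_prod]
      have h2 : ∏ σ : K →ₐ[ℚ] PadicAlgCl p, ‖σ ⟨x, h.1⟩ - σ ⟨x', h'.1⟩‖ ≤
          ∏ σ : K →ₐ[ℚ] PadicAlgCl p, (max 1 ‖σ ⟨x, h.1⟩‖ * max 1 ‖σ ⟨x', h'.1⟩‖) := by
        refine Finset.prod_le_prod (fun _ _ => norm_nonneg _) fun σ _ => ?_
        have h3 : ‖σ ⟨x, h.1⟩ - σ ⟨x', h'.1⟩‖ ≤ max ‖σ ⟨x, h.1⟩‖ ‖σ ⟨x', h'.1⟩‖ := by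
          have h4 := IsUltrametricDist.norm_add_le_max (σ ⟨x, h.1⟩) (-σ ⟨x', h'.1⟩)
          rwa [norm_neg, ← sub_eq_add_neg] at h4
        refine h3.trans (max_le ?_ ?_)
        · exact (le_max_right 1 _).trans (le_mul_of_one_le_right (mx_pos _).le (one_le_mx _))
        · exact (le_max_right 1 _).trans (le_mul_of_one_le_left (mx_pos _).le (one_le_mx _))
      have h3 := sz_padic p r hK ⟨x, h.1⟩ f (h.gen hr hK)
        (h.2.1.isPrimitive (by rw [h.2.2.1]; omega))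
      have h4 := sz_padic p r hK ⟨x', h'.1⟩ f' (h'.gen hr hK)
        (h'.2.1.isPrimitive (by rw [h'.2.2.1]; omega))
      rw [Finset.prod_mul_distrib] at h2
      unfold sz at h3 h4
      calc ‖(f.leadingCoeff : PadicAlgCl p)‖ * ‖(f'.leadingCoeff : PadicAlgCl p)‖ *
            ∏ σ : K →ₐ[ℚ] PadicAlgCl p, ‖σ ⟨x, h.1⟩ - σ ⟨x', h'.1⟩‖
          ≤ ‖(f.leadingCoeff : PadicAlgCl p)‖ * ‖(f'.leadingCoeff : PadicAlgCl p)‖ *
            ((∏ σ : K →ₐ[ℚ] PadicAlgCl p, max 1 ‖σ ⟨x, h.1⟩‖) *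
              ∏ σ : K →ₐ[ℚ] PadicAlgCl p, max 1 ‖σ ⟨x', h'.1⟩‖) :=
            mul_le_mul_of_nonneg_left h2 (by positivity)
        _ = (‖(f.leadingCoeff : PadicAlgCl p)‖ *
              ∏ σ : K →ₐ[ℚ] PadicAlgCl p, max 1 ‖σ ⟨x, h.1⟩‖) *
            (‖(f'.leadingCoeff : PadicAlgCl p)‖ *
              ∏ σ : K →ₐ[ℚ] PadicAlgCl p, max 1 ‖σ ⟨x', h'.1⟩‖) := by ring
        _ = 1 := by rw [h3, h4, one_mul]
        _ ≤ 1 := le_rfl
    have h2 : ‖(ρ : ℚ_[p])‖ ≤ 1 := by
      have h3 : algebraMap ℚ (PadicAlgCl p) ρ = ((ρ : ℚ_[p]) : PadicAlgCl p) := by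
        rw [eq_ratCast]
        exact (map_ratCast (algebraMap ℚ_[p] (PadicAlgCl p)) ρ).symm
      rw [h3, PadicAlgCl.norm_extends] at h1
      exact h1
    have h3 := PadicInt.isUnit_den ρ h2
    rw [PadicInt.isUnit_iff, ← Nat.cast_id ρ.den] at h3
    have h4 : ‖((ρ.den : ℤ) : ℤ_[p])‖ < 1 := by
      rw [PadicInt.norm_intCast_lt_one_iff]
      exact_mod_cast hpd
    simp only [Nat.cast_id, Int.cast_natCast] at h3 h4
    linarith
  refine ⟨ρ.num, Rat.num_ne_zero.2 hρ0, ?_⟩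
  exact (Rat.den_eq_one_iff ρ).1 hden

end Pool.Agent.R337.VG
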