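import Mathlib
import Pool.Agent.R337.VG.GapPlace

set_option autoImplicit false

namespace Pool.Agent.R337.VG

open Polynomial Finset Module IntermediateField
open Pool.Agent.H990R4.VJ (mm one_le_mm mm_eq)
open Pool.Agent.H990R4.VJ.Red (fm exists_points)
open Pool.Agent.W226.VQ (av av_nonneg av_le_one av_pos av_eq_one prod_formula)

/-- labels of the points of a field at one place -/
def LabProp (r q : ℕ) (G : ℤ[X]) (nv : ℤ → ℝ) (szv : ℤ[X] → ℝ) (C W : ℝ) : Prop :=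
  1 ≤ C ∧ 0 ≤ W ∧ ∀ (K : IntermediateField ℚ ℂ) [FiniteDimensional ℚ K], finrank ℚ K = r →
    ∀ N₀ : ℕ, ∃ (lab : ℂ → ℤ[X] → ℝ → Fin ((q * (N₀ + 1)) ^ r))
      (tot : Fin ((q * (N₀ + 1)) ^ r) → ℕ),
    (∀ (x : ℂ) (f : ℤ[X]) (lam : ℝ), Mem r K x f → resultant f G r q ≠ 0 → 0 < lam →
      min (N₀ * lam) (q * Real.log (szv f) - Real.log (nv (resultant f G r q)) - r * lam - W) ≤
        lam * tot (lab x f lam)) ∧
    (∀ (x : ℂ) (f : ℤ[X]) (lam : ℝ) (x' : ℂ) (f' : ℤ[X]) (lam' : ℝ),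
      ∀ (h : Mem r K x f) (h' : Mem r K x' f'), resultant f G r q ≠ 0 →
      resultant f' G r q ≠ 0 → 0 < lam → lam ≤ lam' → lab x f lam = lab x' f' lam' →
      ∀ m : ℤ, (m : ℚ) = Rho K ⟨x, h.1⟩ ⟨x', h'.1⟩ f f' →
        nv m ≤ C * (szv f * szv f') * Real.exp (-(lam * tot (lab x f lam))))

lemma lab_field {F : Type*} [NormedField F] [IsAlgClosed F] [CharZero F] (r q : ℕ) (hr : 1 ≤ r)
    (hq : 2 ≤ q) (G : ℤ[X]) (hG : G ≠ 0) (hsep : (G.map (Int.castRingHom ℚ)).Separable)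
    (h1 : G.natDegree ≤ q) (h2 : q ≤ G.natDegree + 1) (nv : ℤ → ℝ) (hnv : ∀ n, nv n = ‖(n : F)‖)
    (szv : ℤ[X] → ℝ) (hsz : ∀ (K : IntermediateField ℚ ℂ) [FiniteDimensional ℚ K],
      finrank ℚ K = r → ∀ (ξ : K) (f : ℤ[X]), Gen r ξ f → f.IsPrimitive → sz F ξ f = szv f) :
    ∃ C W : ℝ, LabProp r q G nv szv C W := by
  classical
  obtain ⟨P, hdist, c, hc, hres⟩ := exists_points (F := F) G hG hsep q h1 h2 r
  have hP0 := ne_zero_of_dist hq P hdist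
  obtain ⟨W, U, hW0, hU1, hone⟩ := gap_one r q (by omega) G P hdist c hc hres
  obtain ⟨C, hC1, htwo⟩ := gap_two r q P hP0 U hU1
  refine ⟨C, W, hC1, hW0, ?_⟩
  intro K _ hK N₀
  have hcard : Fintype.card ((K →ₐ[ℚ] F) → Fin q × Fin (N₀ + 1)) = (q * (N₀ + 1)) ^ r := by
    rw [Fintype.card_fun, Fintype.card_prod, Fintype.card_fin, Fintype.card_fin,
      AlgHom.card ℚ K F, hK]
  let e : ((K →ₐ[ℚ] F) → Fin q × Fin (N₀ + 1)) ≃ Fin ((q * (N₀ + 1)) ^ r) :=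
    Fintype.equivFinOfCardEq hcard
  have hex : ∀ (x : ℂ) (f : ℤ[X]) (lam : ℝ), ∃ (j : (K →ₐ[ℚ] F) → Fin q)
      (b : (K →ₐ[ℚ] F) → ℕ), ∀ (h : Mem r K x f), resultant f G r q ≠ 0 → 0 < lam →
        (∀ σ, b σ ≤ N₀) ∧ (∀ σ, dd (P (j σ)) (σ ⟨x, h.1⟩) ≤ U * Real.exp (-(lam * b σ))) ∧
        min (N₀ * lam) (q * Real.log (szv f) - Real.log (nv (resultant f G r q)) -
          r * lam - W) ≤ ∑ σ, lam * b σ := by
    intro x f lam
    by_cases h : Mem r K x f ∧ resultant f G r q ≠ 0 ∧ 0 < lam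
    · obtain ⟨h3, h4, h5⟩ := h
      obtain ⟨j, b, h6, h7, h8⟩ := hone K hK N₀ ⟨x, h3.1⟩ f lam (h3.gen hr hK) h4 h5
      refine ⟨j, b, fun _ _ _ => ⟨h6, h7, ?_⟩⟩
      rw [hsz K hK ⟨x, h3.1⟩ f (h3.gen hr hK) (h3.2.1.isPrimitive (by rw [h3.2.2.1]; omega)),
        ← hnv] at h8
      exact h8
    · exact ⟨fun _ => ⟨0, by omega⟩, fun _ => 0, fun h3 h4 h5 => absurd ⟨h3, h4, h5⟩ h⟩
  choose jf bf hjb using hex
  let lab : ℂ → ℤ[X] → ℝ → Fin ((q * (N₀ + 1)) ^ r) := fun x f lam =>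
    e (fun σ => (jf x f lam σ, ⟨min N₀ (bf x f lam σ), by omega⟩))
  let tot : Fin ((q * (N₀ + 1)) ^ r) → ℕ := fun l => ∑ σ, ((e.symm l σ).2 : ℕ)
  have htot : ∀ x f lam, Mem r K x f → resultant f G r q ≠ 0 → 0 < lam →
      lam * (tot (lab x f lam) : ℝ) = ∑ σ, lam * (bf x f lam σ : ℝ) := by
    intro x f lam h3 h4 h5
    simp only [tot, lab, Equiv.symm_apply_apply]
    rw [Nat.cast_sum, Finset.mul_sum]
    refine Finset.sum_congr rfl fun σ _ => ?_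
    rw [min_eq_right ((hjb x f lam h3 h4 h5).1 σ)]
  refine ⟨lab, tot, ?_, ?_⟩
  · intro x f lam h3 h4 h5
    rw [htot x f lam h3 h4 h5]
    exact (hjb x f lam h3 h4 h5).2.2
  · intro x f lam x' f' lam' h h' hR hR' hlam hlam' hlab m hm
    have hlab' := e.injective hlab
    have h3 : ∀ σ, jf x f lam σ = jf x' f' lam' σ ∧ bf x f lam σ = bf x' f' lam' σ := by
      intro σ
      have h4 := congrFun hlab' σ
      rw [Prod.mk.injEq] at h4
      refine ⟨h4.1, ?_⟩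
      have h5 := congrArg Fin.val h4.2
      simp only at h5
      rwa [min_eq_right ((hjb x f lam h hR hlam).1 σ),
        min_eq_right ((hjb x' f' lam' h' hR' (lt_of_lt_of_le hlam hlam')).1 σ)] at h5
    have h4 := htwo K hK ⟨x, h.1⟩ ⟨x', h'.1⟩ f f' (fun σ => Real.exp (-(lam * bf x f lam σ)))
      (jf x f lam) (fun σ => Real.exp_nonneg _) (fun σ => (hjb x f lam h hR hlam).2.1 σ) (by
        intro σ
        have h5 := (hjb x' f' lam' h' hR' (lt_of_lt_of_le hlam hlam')).2.1 σ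
        rw [(h3 σ).1]
        refine h5.trans (mul_le_mul_of_nonneg_left ?_ (by linarith))
        rw [(h3 σ).2]
        refine Real.exp_le_exp.2 (neg_le_neg ?_)
        exact mul_le_mul_of_nonneg_right hlam' (Nat.cast_nonneg _))
    rw [← rho_eq, ← hm, hsz K hK ⟨x, h.1⟩ f (h.gen hr hK)
      (h.2.1.isPrimitive (by rw [h.2.2.1]; omega)), hsz K hK ⟨x', h'.1⟩ f' (h'.gen hr hK)
      (h'.2.1.isPrimitive (by rw [h'.2.2.1]; omega)), ← Real.exp_sum] at h4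
    rw [hnv, htot x f lam h hR hlam, ← Finset.sum_neg_distrib]
    have h6 : algebraMap ℚ F ((m : ℤ) : ℚ) = (m : F) := by rw [map_intCast]
    rw [h6] at h4
    exact h4

lemma lab_complex (r q : ℕ) (hr : 1 ≤ r)
    (hq : 2 ≤ q) (G : ℤ[X]) (hG : G ≠ 0) (hsep : (G.map (Int.castRingHom ℚ)).Separable)
    (h1 : G.natDegree ≤ q) (h2 : q ≤ G.natDegree + 1) :
    ∃ C W : ℝ, LabProp r q G (fun n => |(n : ℝ)|) mm C W :=
  lab_field (F := ℂ) r q hr hq G hG hsep h1 h2 _ (fun n => (Complex.norm_intCast n).symm) mm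
    (fun _ _ hK ξ f h _ => sz_complex r hK ξ f h)

lemma lab_padic (p : ℕ) (hp : p.Prime) (r q : ℕ) (hr : 1 ≤ r)
    (hq : 2 ≤ q) (G : ℤ[X]) (hG : G ≠ 0) (hsep : (G.map (Int.castRingHom ℚ)).Separable)
    (h1 : G.natDegree ≤ q) (h2 : q ≤ G.natDegree + 1) :
    ∃ C W : ℝ, LabProp r q G (av p) (fun _ => 1) C W := by
  have : Fact p.Prime := ⟨hp⟩
  exact lab_field (F := PadicAlgCl p) r q hr hq G hG hsep h1 h2 _
    (fun n => (norm_eq_av p n).symm) (fun _ => 1)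
    (fun _ _ hK ξ f h hprim => sz_padic p r hK ξ f h hprim)

end Pool.Agent.R337.VG
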