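import Mathlib
import Pool.Agent.R337.VG.GapMain

set_option autoImplicit false

namespace Pool.Agent.R337.VG

open Polynomial Finset Module IntermediateField
open Pool.Agent.H990R4.VJ (mm one_le_mm mm_eq)
open Pool.Agent.W226.VQ (av av_nonneg av_le_one av_pos av_eq_one prod_formula)

/-- the lower bound for the total label of one point -/
lemma total (r q : ℕ) (S : Finset ℕ) (hS : ∀ p ∈ S, p.Prime) (R : ℤ) (hR : R ≠ 0)
    (m ε K₁ lam W N y : ℝ) (Wp yp : ℕ → ℝ) (hm1 : 1 ≤ m) (hK₁ : 0 < K₁)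
    (h3 : min N (q * Real.log m - Real.log |(R : ℝ)| - r * lam - W) ≤ y)
    (h4 : ∀ p ∈ S, min N (q * Real.log 1 - Real.log (av p R) - r * lam - Wp p) ≤ yp p)
    (hy : 0 ≤ y) (hyp : ∀ p ∈ S, 0 ≤ yp p)
    (hviol : |(R : ℝ)| * (∏ p ∈ S, av p R) ≤ K₁ * m ^ ((q : ℝ) - 2 - ε)) :
    min N ((2 + ε) * Real.log m - |Real.log K₁| - W - ∑ p ∈ S, Wp p -
      r * ((S.card : ℝ) + 1) * lam) ≤ y + ∑ p ∈ S, yp p := by
  have h5 := min_add h3 (min_sum S N _ yp h4 hyp) hy (Finset.sum_nonneg hyp)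
  refine le_trans (min_le_min le_rfl ?_) h5
  have hRpos : (0 : ℝ) < |(R : ℝ)| := abs_pos.2 (by exact_mod_cast hR)
  have havp : ∀ p ∈ S, 0 < av p R := fun p hp => av_pos p (hS p hp) hR
  have hprod : 0 < ∏ p ∈ S, av p R := Finset.prod_pos havp
  have hM0 : 0 < m := by linarith
  have h6 := Real.log_le_log (mul_pos hRpos hprod) hviol
  rw [Real.log_mul hRpos.ne' hprod.ne',
    Real.log_prod fun p hp => (havp p hp).ne', Real.log_mul hK₁.ne'
    (Real.rpow_pos_of_pos hM0 _).ne', Real.log_rpow hM0] at h6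
  have h8 : ∑ p ∈ S, (q * Real.log 1 - Real.log (av p R) - r * lam - Wp p) =
      - ∑ p ∈ S, Real.log (av p R) - (S.card : ℝ) * (r * lam) - ∑ p ∈ S, Wp p := by
    simp only [Real.log_one, mul_zero, zero_sub]
    rw [Finset.sum_sub_distrib, Finset.sum_sub_distrib, Finset.sum_neg_distrib,
      Finset.sum_const, nsmul_eq_mul]
  rw [h8]
  have h9 := le_abs_self (Real.log K₁)
  have h15 : ((q : ℝ) - 2 - ε) * Real.log m = q * Real.log m - (2 + ε) * Real.log m := by ring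
  rw [h15] at h6
  have h16 : r * ((S.card : ℝ) + 1) * lam = (S.card : ℝ) * (r * lam) + r * lam := by ring
  linarith

/-- the gap principle for two points -/
lemma gap_pair (S : Finset ℕ) (hS : ∀ p ∈ S, p.Prime) (n : ℤ) (hn : n ≠ 0) (m m' C t : ℝ)
    (Cp tp : ℕ → ℝ) (hm : 1 ≤ m) (hm' : 1 ≤ m') (hC : 1 ≤ C) (hCp : ∀ p ∈ S, 1 ≤ Cp p)
    (h1 : |(n : ℝ)| ≤ C * (m * m') * Real.exp (-t))
    (h2 : ∀ p ∈ S, av p n ≤ Cp p * (1 * 1) * Real.exp (-(tp p))) :
    t + ∑ p ∈ S, tp p ≤ Real.log C + ∑ p ∈ S, Real.log (Cp p) + Real.log m + Real.log m' := by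
  have h3 := prod_formula S hS n hn
  have hprod : 0 < ∏ p ∈ S, av p n := Finset.prod_pos fun p hp => av_pos p (hS p hp) hn
  have hnpos : (0 : ℝ) < |(n : ℝ)| := abs_pos.2 (by exact_mod_cast hn)
  have h4 := Real.log_nonneg h3
  rw [Real.log_mul hnpos.ne' hprod.ne', Real.log_prod fun p hp => (av_pos p (hS p hp) hn).ne'] at h4
  have h5 := Real.log_le_log hnpos h1
  rw [Real.log_mul (by positivity) (Real.exp_pos _).ne', Real.log_mul (by positivity)
    (by positivity), Real.log_mul (by positivity) (by positivity), Real.log_exp] at h5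
  have h6 : ∑ p ∈ S, Real.log (av p n) ≤ ∑ p ∈ S, (Real.log (Cp p) - tp p) := by
    refine Finset.sum_le_sum fun p hp => ?_
    have h7 := Real.log_le_log (av_pos p (hS p hp) hn) (h2 p hp)
    have h8 : 0 < Cp p := by linarith [hCp p hp]
    rw [Real.log_mul (by positivity) (Real.exp_pos _).ne', mul_one, mul_one, Real.log_exp] at h7
    linarith
  rw [Finset.sum_sub_distrib] at h6
  linarith

theorem field_count (r q : ℕ) (hr : 1 ≤ r) (hq : 2 ≤ q) (G : ℤ[X]) (hG : G ≠ 0)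
    (hsep : (G.map (Int.castRingHom ℚ)).Separable) (h1 : G.natDegree ≤ q)
    (h2 : q ≤ G.natDegree + 1) (S : Finset ℕ) (hS : ∀ p ∈ S, p.Prime) (ε K₁ : ℝ)
    (hε : 0 < ε) (hK₁ : 0 < K₁) :
    ∃ C M₀ : ℝ, 0 < C ∧ 0 < M₀ ∧ ∀ (K : IntermediateField ℚ ℂ) [FiniteDimensional ℚ K],
      finrank ℚ K = r → ∀ L : ℝ, 0 ≤ L → ∀ E : Finset ℂ,
      (∀ x ∈ E, ∃ f, Mem r K x f ∧ M₀ ≤ Real.log (mm f) ∧ Real.log (mm f) ≤ L ∧
        resultant f G r q ≠ 0 ∧
        |((resultant f G r q : ℤ) : ℝ)| * (∏ p ∈ S, av p (resultant f G r q)) ≤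
          K₁ * mm f ^ ((q : ℝ) - 2 - ε)) → (E.card : ℝ) ≤ C * (1 + L) := by
  classical
  obtain ⟨C, W, hC1, hW0, hlab⟩ := lab_complex r q hr hq G hG hsep h1 h2
  have hdp : ∀ p ∈ S, ∃ C W : ℝ, LabProp r q G (av p) (fun _ => 1) C W :=
    fun p hp => lab_padic p (hS p hp) r q hr hq G hG hsep h1 h2
  choose! Cp Wp hlabp using hdp
  have hr0 : (0 : ℝ) < r := by exact_mod_cast hr
  have hs0 : (0 : ℝ) ≤ S.card := Nat.cast_nonneg _
  obtain ⟨η, hη0, hηc⟩ : ∃ η : ℝ, 0 < η ∧ r * ((S.card : ℝ) + 1) * η = ε / 4 := by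
    have : (0 : ℝ) < r * ((S.card : ℝ) + 1) := by positivity
    exact ⟨ε / 4 / (r * ((S.card : ℝ) + 1)), by positivity, by field_simp⟩
  obtain ⟨N₀, hN₀⟩ : ∃ N₀ : ℕ, 2 + ε ≤ N₀ * η := by
    refine ⟨⌈(2 + ε) / η⌉₊, ?_⟩
    have := Nat.le_ceil ((2 + ε) / η)
    rwa [div_le_iff₀ hη0] at this
  obtain ⟨W', hW'⟩ : ∃ W' : ℝ, W' = |Real.log K₁| + W + ∑ p ∈ S, Wp p + Real.log C +
    ∑ p ∈ S, Real.log (Cp p) := ⟨_, rfl⟩
  have hW'0 : 0 ≤ W' := by
    have e1 : 0 ≤ ∑ p ∈ S, Wp p := Finset.sum_nonneg fun p hp => (hlabp p hp).2.1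
    have e2 : 0 ≤ ∑ p ∈ S, Real.log (Cp p) :=
      Finset.sum_nonneg fun p hp => Real.log_nonneg (hlabp p hp).1
    have e3 : 0 ≤ Real.log C := Real.log_nonneg hC1
    have e4 := abs_nonneg (Real.log K₁)
    rw [hW']; linarith
  obtain ⟨M₀, hM₀⟩ : ∃ M₀ : ℝ, M₀ = 4 / ε * W' + 1 := ⟨_, rfl⟩
  have hM₀1 : 1 ≤ M₀ := by
    have : 0 ≤ 4 / ε * W' := by positivity
    linarith
  have hWM : ∀ M, M₀ ≤ M → W' ≤ ε / 4 * M := by
    intro M hM
    have h3 : 4 / ε * W' ≤ M := by linarith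
    have h4 := mul_le_mul_of_nonneg_left h3 (show 0 ≤ ε / 4 by positivity)
    have h5 : ε / 4 * (4 / ε * W') = W' := by field_simp
    linarith
  obtain ⟨ℓ, hℓ⟩ : ∃ ℓ : ℝ, ℓ = Real.log (1 + ε / 2) := ⟨_, rfl⟩
  have hℓ0 : 0 < ℓ := by rw [hℓ]; exact Real.log_pos (by linarith)
  set n : ℕ := (q * (N₀ + 1)) ^ r with hn
  have hn0 : 0 < n := by positivity
  refine ⟨(n : ℝ) * (n : ℝ) ^ S.card * (2 + 1 / ℓ), M₀, by positivity, by linarith, ?_⟩
  intro K _ hK L hL E hE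
  obtain ⟨lab, tot, hl1, hl2⟩ := hlab K hK N₀
  have hlp : ∀ p ∈ S, ∃ (lab : ℂ → ℤ[X] → ℝ → Fin n) (tot : Fin n → ℕ),
    (∀ (x : ℂ) (f : ℤ[X]) (lam : ℝ), Mem r K x f → resultant f G r q ≠ 0 → 0 < lam →
      min (N₀ * lam) (q * Real.log 1 - Real.log (av p (resultant f G r q)) - r * lam - Wp p) ≤
        lam * tot (lab x f lam)) ∧
    (∀ (x : ℂ) (f : ℤ[X]) (lam : ℝ) (x' : ℂ) (f' : ℤ[X]) (lam' : ℝ),
      ∀ (h : Mem r K x f) (h' : Mem r K x' f'), resultant f G r q ≠ 0 →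
      resultant f' G r q ≠ 0 → 0 < lam → lam ≤ lam' → lab x f lam = lab x' f' lam' →
      ∀ m : ℤ, (m : ℚ) = Rho K ⟨x, h.1⟩ ⟨x', h'.1⟩ f f' →
        av p m ≤ Cp p * (1 * 1) * Real.exp (-(lam * tot (lab x f lam)))) :=
    fun p hp => (hlabp p hp).2.2 K hK N₀
  have : Nonempty (Fin n) := ⟨⟨0, hn0⟩⟩
  choose! labp totp hlp1 hlp2 using hlp
  choose! F hF using hE
  have hMpos : ∀ x ∈ E, 0 < Real.log (mm (F x)) := fun x hx => by
    have := (hF x hx).2.1; linarith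
  -- the main estimate
  have key : ∀ x ∈ E, ∀ y ∈ E, x ≠ y → Real.log (mm (F x)) ≤ Real.log (mm (F y)) →
      lab x (F x) (η * Real.log (mm (F x))) = lab y (F y) (η * Real.log (mm (F y))) →
      (∀ p ∈ S, labp p x (F x) (η * Real.log (mm (F x))) =
        labp p y (F y) (η * Real.log (mm (F y)))) →
      (1 + ε / 2) * Real.log (mm (F x)) ≤ Real.log (mm (F y)) := by
    intro x hx y hy hxy hle hlabe hlabpe
    obtain ⟨hmem, hM, hML, hR, hviol⟩ := hF x hx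
    obtain ⟨hmem', hM', hML', hR', hviol'⟩ := hF y hy
    have hlam0 : 0 < η * Real.log (mm (F x)) := mul_pos hη0 (hMpos x hx)
    have hlamle : η * Real.log (mm (F x)) ≤ η * Real.log (mm (F y)) :=
      mul_le_mul_of_nonneg_left hle hη0.le
    obtain ⟨m, hm0, hm⟩ := exists_int r hr K hK x y (F x) (F y) hmem hmem' hxy
    have e1 := hl2 x (F x) _ y (F y) _ hmem hmem' hR hR' hlam0 hlamle hlabe m hm
    have e2 := fun p (hp : p ∈ S) => hlp2 p hp x (F x) _ y (F y) _ hmem hmem' hR hR' hlam0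
      hlamle (hlabpe p hp) m hm
    have e3 := gap_pair S hS m hm0 (mm (F x)) (mm (F y)) C _ Cp _
      (one_le_mm hmem.2.1.ne_zero) (one_le_mm hmem'.2.1.ne_zero) hC1
      (fun p hp => (hlabp p hp).1) e1 e2
    have e4 := total r q S hS (resultant (F x) G r q) hR (mm (F x)) ε K₁
      (η * Real.log (mm (F x))) W (N₀ * (η * Real.log (mm (F x)))) _ Wp
      (fun p => η * Real.log (mm (F x)) * (totp p (labp p x (F x) (η * Real.log (mm (F x)))) : ℝ))
      (one_le_mm hmem.2.1.ne_zero) hK₁ (hl1 x (F x) _ hmem hR hlam0)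
      (fun p hp => hlp1 p hp x (F x) _ hmem hR hlam0)
      (mul_nonneg hlam0.le (Nat.cast_nonneg _))
      (fun p _ => mul_nonneg hlam0.le (Nat.cast_nonneg _)) hviol
    have e5 := e4.trans e3
    have hM0 := hMpos x hx
    set M := Real.log (mm (F x)) with hMd
    set M' := Real.log (mm (F y)) with hMd'
    clear_value M M'
    have h5 : r * ((S.card : ℝ) + 1) * (η * M) = ε / 4 * M := by rw [← mul_assoc, hηc]
    have h6 : (2 + ε) * M ≤ N₀ * (η * M) := by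
      rw [← mul_assoc]; exact mul_le_mul_of_nonneg_right hN₀ hM0.le
    have h7 := hWM M hM
    have h8 : (2 + ε) * M - |Real.log K₁| - W - ∑ p ∈ S, Wp p - ε / 4 * M ≤
        Real.log C + ∑ p ∈ S, Real.log (Cp p) + M + M' := by
      refine le_trans (le_min ?_ ?_) e5
      · have e6 : 0 ≤ ∑ p ∈ S, Wp p := Finset.sum_nonneg fun p hp => (hlabp p hp).2.1
        have e7 := abs_nonneg (Real.log K₁)
        have e8 : 0 ≤ ε / 4 * M := by positivity
        linarith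
      · rw [h5]
    rw [hW'] at h7
    linarith
  set N₂ : ℕ := ⌊L / ℓ⌋₊ with hN₂
  have hidx : ∀ x ∈ E, ⌊Real.log (Real.log (mm (F x)) / M₀) / ℓ⌋₊ ≤ N₂ := by
    intro x hx
    refine Nat.floor_le_floor ?_
    refine div_le_div_of_nonneg_right ?_ hℓ0.le
    have h3 := (hF x hx).2.2.1
    have h4 := hMpos x hx
    refine (Real.log_le_sub_one_of_pos (by positivity)).trans ?_
    have h5 : Real.log (mm (F x)) / M₀ ≤ Real.log (mm (F x)) :=
      div_le_self h4.le hM₀1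
    linarith
  let Lb : ℂ → Fin n × (S → Fin n) × Fin (N₂ + 1) := fun x =>
    (lab x (F x) (η * Real.log (mm (F x))), fun p => labp p x (F x) (η * Real.log (mm (F x))),
      ⟨min N₂ ⌊Real.log (Real.log (mm (F x)) / M₀) / ℓ⌋₊, by omega⟩)
  have hLb : ∀ x ∈ E, ∀ y ∈ E, Lb x = Lb y → Real.log (mm (F x)) ≤ Real.log (mm (F y)) →
      x = y := by
    intro x hx y hy hxy hle
    by_contra hne
    simp only [Lb, Prod.mk.injEq] at hxy
    obtain ⟨e1, e2, e3⟩ := hxy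
    have e4 := key x hx y hy hne hle e1 (fun p hp => congrFun e2 ⟨p, hp⟩)
    have e5 := congrArg Fin.val e3
    simp only at e5
    rw [min_eq_right (hidx x hx), min_eq_right (hidx y hy)] at e5
    have hx0 := hMpos x hx
    have hy0 := hMpos y hy
    have hM₀0 : 0 < M₀ := by linarith
    have hxM : 0 ≤ Real.log (Real.log (mm (F x)) / M₀) / ℓ := by
      refine div_nonneg (Real.log_nonneg ?_) hℓ0.le
      rw [one_le_div hM₀0]; exact (hF x hx).2.1
    have e6 := Nat.lt_floor_add_one (Real.log (Real.log (mm (F y)) / M₀) / ℓ)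
    rw [← e5] at e6
    have e7 := Nat.floor_le hxM
    have e8 : Real.log (Real.log (mm (F y)) / M₀) / ℓ <
        Real.log (Real.log (mm (F x)) / M₀) / ℓ + 1 := by linarith
    rw [div_lt_iff₀ hℓ0, add_mul, div_mul_cancel₀ _ hℓ0.ne', one_mul,
      Real.log_div hy0.ne' hM₀0.ne', Real.log_div hx0.ne' hM₀0.ne'] at e8
    have e9 := Real.log_le_log (by positivity) e4
    rw [Real.log_mul (by positivity) hx0.ne', ← hℓ] at e9
    linarith
  have hinj : Set.InjOn Lb E := by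
    intro x hx y hy hxy
    rcases le_total (Real.log (mm (F x))) (Real.log (mm (F y))) with h | h
    · exact hLb x hx y hy hxy h
    · exact (hLb y hy x hx hxy.symm h).symm
  have hcard := Finset.card_le_card_of_injOn Lb (t := Finset.univ) (fun x _ => mem_univ _) hinj
  have hc2 : (Finset.univ : Finset (Fin n × (S → Fin n) × Fin (N₂ + 1))).card =
      n * (n ^ S.card * (N₂ + 1)) := by
    rw [Finset.card_univ, Fintype.card_prod, Fintype.card_prod, Fintype.card_fin,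
      Fintype.card_fun, Fintype.card_fin, Fintype.card_fin, Fintype.card_coe]
  rw [hc2] at hcard
  have h3 : (E.card : ℝ) ≤ n * (n ^ S.card * (N₂ + 1)) := by exact_mod_cast hcard
  have h4 : (N₂ : ℝ) ≤ L / ℓ := Nat.floor_le (by positivity)
  have h5 : (N₂ : ℝ) + 1 ≤ (2 + 1 / ℓ) * (1 + L) := by
    have : L / ℓ = 1 / ℓ * L := by ring
    have h6 : 0 < 1 / ℓ := by positivity
    nlinarith
  calc (E.card : ℝ) ≤ n * (n ^ S.card * (N₂ + 1)) := h3
    _ ≤ n * (n ^ S.card * ((2 + 1 / ℓ) * (1 + L))) := by gcongr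
    _ = _ := by ring

end Pool.Agent.R337.VG
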