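import Mathlib
import Pool.Agent.R337.VG.TypeII
import Pool.Agent.R337.VG.Gap
import Pool.Agent.R337.VG.FieldsCount

set_option autoImplicit false

namespace Pool.Agent.R337.VG

open Polynomial Finset Module NumberField
open scoped IntermediateField
open Pool.Agent.H990R4.VJ (mm one_le_mm mm_eq coeff_le)
open Pool.Agent.W226.VQ (av av_nonneg av_le_one av_pos av_eq_one prod_formula)

/-- the degree of the field generated by a root -/
lemma finrank_adjoin_root (r : ℕ) (hr : 1 ≤ r) (x : ℂ) (f : ℤ[X]) (hf : Irreducible f)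
    (hd : f.natDegree = r) (hx : aeval x f = 0) :
    FiniteDimensional ℚ ℚ⟮x⟯ ∧ finrank ℚ ℚ⟮x⟯ = r := by
  have hprim : f.IsPrimitive := hf.isPrimitive (by omega)
  have hirr : Irreducible (f.map (algebraMap ℤ ℚ)) :=
    (hprim.irreducible_iff_irreducible_map_fraction_map).1 hf
  have hx' : aeval x (f.map (algebraMap ℤ ℚ)) = 0 := by rw [aeval_map_algebraMap]; exact hx
  have hint : IsIntegral ℚ x := by
    rw [← isAlgebraic_iff_isIntegral]
    exact ⟨f.map (algebraMap ℤ ℚ), hirr.ne_zero, hx'⟩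
  have hm : minpoly ℚ x ∣ f.map (algebraMap ℤ ℚ) := minpoly.dvd ℚ x hx'
  have hass : Associated (minpoly ℚ x) (f.map (algebraMap ℤ ℚ)) :=
    (minpoly.irreducible hint).associated_of_dvd hirr hm
  refine ⟨IntermediateField.adjoin.finiteDimensional hint, ?_⟩
  rw [IntermediateField.adjoin.finrank hint, natDegree_eq_of_degree_eq
    (degree_eq_degree_of_associated hass),
    natDegree_map_eq_of_injective (RingHom.injective_int (algebraMap ℤ ℚ)), hd]

/-- finitely many points of small height -/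
lemma small (r : ℕ) (M : ℝ) : ∃ N : ℕ, ∀ E : Finset ℂ, (∀ x ∈ E, ∃ f : ℤ[X], f ≠ 0 ∧
    f.natDegree = r ∧ aeval x f = 0 ∧ Real.log (mm f) ≤ M) → E.card ≤ N := by
  classical
  have hfin := Polynomial.finite_mahlerMeasure_le r ⟨Real.exp M, (Real.exp_pos M).le⟩
  refine ⟨r * hfin.toFinset.card, fun E hE => ?_⟩
  choose! F hF using hE
  have hmaps : ∀ x ∈ E, F x ∈ hfin.toFinset := by
    intro x hx
    obtain ⟨h1, h2, h3, h4⟩ := hF x hx
    rw [Set.Finite.mem_toFinset]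
    refine ⟨h2.le, ?_⟩
    have h5 : mm (F x) ≤ Real.exp M := by
      rw [← Real.log_le_iff_le_exp (by linarith [one_le_mm h1])]; exact h4
    exact h5
  refine Finset.card_le_mul_card_image_of_maps_to hmaps r fun f hf => ?_
  by_cases hne : (E.filter fun x => F x = f).Nonempty
  · obtain ⟨x₁, hx₁⟩ := hne
    rw [Finset.mem_filter] at hx₁
    obtain ⟨h0, hd, -, -⟩ := hF x₁ hx₁.1
    rw [hx₁.2] at h0 hd
    have h1 : (E.filter fun x => F x = f) ⊆ (f.map (Int.castRingHom ℂ)).roots.toFinset := by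
      intro x hx
      rw [Finset.mem_filter] at hx
      obtain ⟨-, -, e3, -⟩ := hF x hx.1
      rw [hx.2] at e3
      rw [Multiset.mem_toFinset, mem_roots']
      refine ⟨(Polynomial.map_ne_zero_iff (Int.castRingHom ℂ).injective_int).2 h0, ?_⟩
      rw [IsRoot.def, eval_map, ← e3]; rfl
    refine (Finset.card_le_card h1).trans ((Multiset.toFinset_card_le _).trans
      ((card_roots' _).trans ?_))
    rw [← hd]; exact natDegree_map_le
  · rw [Finset.not_nonempty_iff_eq_empty] at hne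
    rw [hne, Finset.card_empty]; exact Nat.zero_le _

/-- every polynomial of degree `r` has at most `r` roots -/
lemma card_le_roots (r : ℕ) (E : Finset ℂ) (F : ℂ → ℤ[X])
    (hF : ∀ x ∈ E, F x ≠ 0 ∧ (F x).natDegree = r ∧ aeval x (F x) = 0) :
    E.card ≤ r * (E.image F).card := by
  classical
  refine Finset.card_le_mul_card_image E r fun f hf => ?_
  obtain ⟨x₁, hx₁, rfl⟩ := Finset.mem_image.1 hf
  obtain ⟨h0, hd, -⟩ := hF x₁ hx₁
  have h1 : (E.filter fun x => F x = F x₁) ⊆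
      ((F x₁).map (Int.castRingHom ℂ)).roots.toFinset := by
    intro x hx
    rw [Finset.mem_filter] at hx
    obtain ⟨-, -, e3⟩ := hF x hx.1
    rw [hx.2] at e3
    rw [Multiset.mem_toFinset, mem_roots']
    refine ⟨(Polynomial.map_ne_zero_iff (Int.castRingHom ℂ).injective_int).2 h0, ?_⟩
    rw [IsRoot.def, eval_map, ← e3]; rfl
  refine (Finset.card_le_card h1).trans ((Multiset.toFinset_card_le _).trans
    ((card_roots' _).trans ?_))
  rw [← hd]; exact natDegree_map_le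

/-- the violation of the inequality at `x`, with `D` the logarithm of the discriminant of the
field -/
def Viol (r q : ℕ) (G : ℤ[X]) (S : Finset ℕ) (ε K₁ L D : ℝ) (x : ℂ) (f : ℤ[X]) : Prop :=
  Irreducible f ∧ f.natDegree = r ∧ aeval x f = 0 ∧ Real.log (mm f) ≤ L ∧
    resultant f G r q ≠ 0 ∧
    |((resultant f G r q : ℤ) : ℝ)| * (∏ p ∈ S, av p (resultant f G r q)) * Real.exp D ≤
      K₁ * mm f ^ ((q : ℝ) - 2 - ε)

lemma one_add_le (δ L : ℝ) (hδ : 0 < δ) (hL : 0 ≤ L) :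
    1 + L ≤ (1 + 1 / δ) * Real.exp (δ * L) := by
  have h1 := Real.add_one_le_exp (δ * L)
  have h2 : 0 < 1 / δ := by positivity
  have h3 : 1 / δ * (δ * L) = L := by field_simp
  have h4 := Real.one_le_exp (show 0 ≤ δ * L by positivity)
  nlinarith

theorem main (r q : ℕ) (hr : 2 ≤ r) (hq : 2 ≤ q) (G : ℤ[X]) (hG : G ≠ 0)
    (hsep : (G.map (Int.castRingHom ℚ)).Separable) (h1 : G.natDegree ≤ q)
    (h2 : q ≤ G.natDegree + 1) (S : Finset ℕ) (hS : ∀ p ∈ S, p.Prime) (ε K₁ δ : ℝ)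
    (hε : 0 < ε) (hε2 : ε ≤ 2) (hK₁ : 0 < K₁) (hδ : 0 < δ) :
    ∃ C : ℝ, 0 < C ∧ ∀ L : ℝ, 0 ≤ L → ∀ (E : Finset ℂ) (D : ℂ → ℝ),
      (∀ x ∈ E, 0 ≤ D x ∧ (∃ _ : NumberField ℚ⟮x⟯, |(discr ℚ⟮x⟯ : ℝ)| = Real.exp (D x)) ∧
        ∃ f, Viol r q G S ε K₁ L (D x) x f) →
      (E.card : ℝ) ≤ C * Real.exp ((r * (2 * r - 2 - ε) / (2 * (r + 1)) + δ) * L) := by
  classical
  obtain ⟨C₁, M₀, hC₁, hM₀, hfc⟩ := field_count r q (by omega) hq G hG hsep h1 h2 S hS ε K₁ hε hK₁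
  obtain ⟨C₂, hC₂, htII⟩ := typeII r q hr hq G hG hsep h1 h2 S hS ε K₁ δ hε hε2 hK₁ hδ
  obtain ⟨C₃, hC₃, hfields⟩ := fields_count r
  obtain ⟨N, hN⟩ := small r M₀
  have hr' : (2 : ℝ) ≤ r := by exact_mod_cast hr
  obtain ⟨e, he⟩ : ∃ e : ℝ, e = r * (2 * r - 2 - ε) / (2 * (r + 1)) := ⟨_, rfl⟩
  obtain ⟨τ, hτ⟩ : ∃ τ : ℝ, τ = (2 * (r : ℝ) - 2 - ε) / (r + 1) := ⟨_, rfl⟩
  have hτ0 : 0 ≤ τ := by rw [hτ]; exact div_nonneg (by linarith) (by linarith)
  have heτ : e = τ * (r / 2) := by rw [he, hτ]; field_simp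
  have he0 : 0 ≤ e := by rw [heτ]; positivity
  rw [← he]
  refine ⟨N + C₃ * C₁ * (1 + 1 / δ) + r * C₂, by positivity, ?_⟩
  intro L hL E D hE
  have hE1 : ∀ x ∈ E, 0 ≤ D x := fun x hx => (hE x hx).1
  have hE2 : ∀ x ∈ E, ∃ _ : NumberField ℚ⟮x⟯, |(discr ℚ⟮x⟯ : ℝ)| = Real.exp (D x) :=
    fun x hx => (hE x hx).2.1
  have hE3 : ∀ x ∈ E, ∃ f, Viol r q G S ε K₁ L (D x) x f := fun x hx => (hE x hx).2.2
  choose! F hF using hE3
  set E₀ := E.filter fun x => Real.log (mm (F x)) < M₀ with hE₀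
  set E' := E.filter fun x => ¬ Real.log (mm (F x)) < M₀ with hE'
  set E₁ := E'.filter fun x => D x ≤ τ * L with hE₁
  set E₂ := E'.filter fun x => ¬ D x ≤ τ * L with hE₂
  have hc : E.card = E₀.card + (E₁.card + E₂.card) := by
    rw [hE₁, hE₂, Finset.card_filter_add_card_filter_not, hE₀, hE',
      Finset.card_filter_add_card_filter_not]
  have hb0 : E₀.card ≤ N := by
    refine hN E₀ fun x hx => ?_
    obtain ⟨hx1, hx2⟩ := Finset.mem_filter.1 hx
    obtain ⟨a1, a2, a3, a4, a5, a6⟩ := hF x hx1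
    exact ⟨F x, a1.ne_zero, a2, a3, hx2.le⟩
  have hexp : (1 : ℝ) ≤ Real.exp ((e + δ) * L) := Real.one_le_exp (by positivity)
  -- small discriminant
  have hb1 : (E₁.card : ℝ) ≤ C₃ * C₁ * (1 + 1 / δ) * Real.exp ((e + δ) * L) := by
    set 𝒦 := E₁.image fun x => ℚ⟮x⟯ with h𝒦
    have hY1 : 1 ≤ Real.exp (τ * L) := Real.one_le_exp (by positivity)
    have hk1 := hfields (Real.exp (τ * L)) hY1 𝒦 ?_
    · have hk2 : ∀ K ∈ 𝒦, ((E₁.filter fun x => ℚ⟮x⟯ = K).card : ℝ) ≤ C₁ * (1 + L) := by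
        intro K hK
        obtain ⟨x₁, hx₁, rfl⟩ := Finset.mem_image.1 hK
        obtain ⟨hx1, hx2⟩ := Finset.mem_filter.1 hx₁
        obtain ⟨hx3, hx4⟩ := Finset.mem_filter.1 hx1
        obtain ⟨a1, a2, a3, a4, a5, a6⟩ := hF x₁ hx3
        obtain ⟨hfd, hfr⟩ := finrank_adjoin_root r (by omega) x₁ (F x₁) a1 a2 a3
        refine hfc ℚ⟮x₁⟯ hfr L hL _ fun x hx => ?_
        obtain ⟨hx5, hx6⟩ := Finset.mem_filter.1 hx
        obtain ⟨hx7, hx8⟩ := Finset.mem_filter.1 hx5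
        obtain ⟨hx9, hx10⟩ := Finset.mem_filter.1 hx7
        obtain ⟨b1, b2, b3, b4, b5, b6⟩ := hF x hx9
        refine ⟨F x, ⟨?_, b1, b2, b3⟩, not_lt.1 hx10, b4, b5, ?_⟩
        · rw [← hx6]; exact IntermediateField.mem_adjoin_simple_self ℚ x
        · refine le_trans ?_ b6
          refine le_mul_of_one_le_right ?_ (Real.one_le_exp (hE1 x hx9))
          exact mul_nonneg (abs_nonneg _) (Finset.prod_nonneg fun p _ => av_nonneg p _)
      have hk3 : (E₁.card : ℝ) ≤ 𝒦.card * (C₁ * (1 + L)) := by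
        rw [Finset.card_eq_sum_card_image (fun x => ℚ⟮x⟯) E₁]
        push_cast
        calc ∑ K ∈ 𝒦, ((E₁.filter fun x => ℚ⟮x⟯ = K).card : ℝ)
            ≤ ∑ K ∈ 𝒦, C₁ * (1 + L) := Finset.sum_le_sum hk2
          _ = _ := by rw [Finset.sum_const, nsmul_eq_mul]
      have hk4 : Real.exp (τ * L) ^ ((r : ℝ) / 2) = Real.exp (e * L) := by
        rw [← Real.exp_mul, heτ]; congr 1; ring
      rw [hk4] at hk1
      have hk5 := one_add_le δ L hδ hL
      calc (E₁.card : ℝ) ≤ 𝒦.card * (C₁ * (1 + L)) := hk3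
        _ ≤ (C₃ * Real.exp (e * L)) * (C₁ * ((1 + 1 / δ) * Real.exp (δ * L))) := by gcongr
        _ = _ := by rw [show (e + δ) * L = e * L + δ * L by ring, Real.exp_add]; ring
    · intro K hK
      obtain ⟨x₁, hx₁, rfl⟩ := Finset.mem_image.1 hK
      obtain ⟨hx1, hx2⟩ := Finset.mem_filter.1 hx₁
      obtain ⟨hx3, hx4⟩ := Finset.mem_filter.1 hx1
      obtain ⟨a1, a2, a3, a4, a5, a6⟩ := hF x₁ hx3
      obtain ⟨hnf, hdisc⟩ := hE2 x₁ hx3
      obtain ⟨hfd, hfr⟩ := finrank_adjoin_root r (by omega) x₁ (F x₁) a1 a2 a3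
      refine ⟨hnf, hfr, ?_⟩
      rw [hdisc]
      exact Real.exp_le_exp.2 hx2
  -- large discriminant
  have hb2 : (E₂.card : ℝ) ≤ r * C₂ * Real.exp ((e + δ) * L) := by
    have hk1 := htII L hL (E₂.image F) ?_
    · have hk2 := card_le_roots r E₂ F fun x hx => by
        obtain ⟨hx1, hx2⟩ := Finset.mem_filter.1 hx
        obtain ⟨hx3, hx4⟩ := Finset.mem_filter.1 hx1
        obtain ⟨a1, a2, a3, a4, a5, a6⟩ := hF x hx3
        exact ⟨a1.ne_zero, a2, a3⟩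
      have hk3 : (E₂.card : ℝ) ≤ r * (E₂.image F).card := by exact_mod_cast hk2
      rw [← he] at hk1
      calc (E₂.card : ℝ) ≤ r * (E₂.image F).card := hk3
        _ ≤ r * (C₂ * Real.exp ((e + δ) * L)) := by gcongr
        _ = _ := by ring
    · intro f hf
      obtain ⟨x, hx, rfl⟩ := Finset.mem_image.1 hf
      obtain ⟨hx1, hx2⟩ := Finset.mem_filter.1 hx
      obtain ⟨hx3, hx4⟩ := Finset.mem_filter.1 hx1
      obtain ⟨a1, a2, a3, a4, a5, a6⟩ := hF x hx3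
      refine ⟨a1, a2, a4, a5, le_trans ?_ a6⟩
      rw [← hτ]
      refine mul_le_mul_of_nonneg_left (Real.exp_le_exp.2 (not_le.1 hx2).le) ?_
      exact mul_nonneg (abs_nonneg _) (Finset.prod_nonneg fun p _ => av_nonneg p _)
  rw [hc]
  push_cast
  have hb0' : (E₀.card : ℝ) ≤ N * Real.exp ((e + δ) * L) := by
    have h3 : (E₀.card : ℝ) ≤ N := by exact_mod_cast hb0
    have h4 : (N : ℝ) ≤ N * Real.exp ((e + δ) * L) :=
      le_mul_of_one_le_right (Nat.cast_nonneg _) hexp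
    linarith
  calc (E₀.card : ℝ) + (E₁.card + E₂.card)
      ≤ N * Real.exp ((e + δ) * L) + (C₃ * C₁ * (1 + 1 / δ) * Real.exp ((e + δ) * L) +
        r * C₂ * Real.exp ((e + δ) * L)) := by gcongr
    _ = _ := by ring

theorem main' (r q : ℕ) (hr : 2 ≤ r) (hq : 1 ≤ q) (G : ℤ[X]) (hG : G ≠ 0)
    (hsep : (G.map (Int.castRingHom ℚ)).Separable) (h1 : G.natDegree ≤ q)
    (h2 : q ≤ G.natDegree + 1) (S : Finset ℕ) (hS : ∀ p ∈ S, p.Prime) (ε K₁ δ : ℝ)
    (hε : 0 < ε) (hε2 : ε ≤ 2) (hK₁ : 0 < K₁) (hδ : 0 < δ) :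
    ∃ C : ℝ, 0 < C ∧ ∀ L : ℝ, 0 ≤ L → ∀ (E : Finset ℂ) (D : ℂ → ℝ),
      (∀ x ∈ E, 0 ≤ D x ∧ (∃ _ : NumberField ℚ⟮x⟯, |(discr ℚ⟮x⟯ : ℝ)| = Real.exp (D x)) ∧
        ∃ f, Viol r q G S ε K₁ L (D x) x f) →
      (E.card : ℝ) ≤ C * Real.exp ((r * (2 * r - 2 - ε) / (2 * (r + 1)) + δ) * L) := by
  rcases Nat.lt_or_ge 1 q with hq2 | hq1
  · exact main r q hr hq2 G hG hsep h1 h2 S hS ε K₁ δ hε hε2 hK₁ hδ
  obtain rfl : q = 1 := le_antisymm hq1 hq
  obtain ⟨N, hN⟩ := small r |Real.log K₁|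
  have hr' : (2 : ℝ) ≤ r := by exact_mod_cast hr
  refine ⟨N + 1, by positivity, fun L hL E D hE => ?_⟩
  have h3 : E.card ≤ N := by
    refine hN E fun x hx => ?_
    obtain ⟨hD, -, f, a1, a2, a3, a4, a5, a6⟩ := hE x hx
    refine ⟨f, a1.ne_zero, a2, a3, ?_⟩
    have hm1 : 1 ≤ mm f := one_le_mm a1.ne_zero
    have hm0 : 0 < mm f := by linarith
    have h4 := prod_formula S hS (resultant f G r 1) a5
    have h5 := Real.one_le_exp hD
    have h6 : (1 : ℝ) ≤ K₁ * mm f ^ (((1 : ℕ) : ℝ) - 2 - ε) := by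
      refine le_trans ?_ a6
      nlinarith
    have h7 := Real.log_le_log one_pos h6
    rw [Real.log_one, Real.log_mul hK₁.ne' (Real.rpow_pos_of_pos hm0 _).ne',
      Real.log_rpow hm0] at h7
    push_cast at h7
    have h8 := le_abs_self (Real.log K₁)
    have h9 := Real.log_nonneg hm1
    nlinarith
  have h4 : (E.card : ℝ) ≤ N := by exact_mod_cast h3
  have h5 : 0 ≤ r * (2 * (r : ℝ) - 2 - ε) / (2 * (r + 1)) := by
    refine div_nonneg (mul_nonneg (by linarith) (by linarith)) (by linarith)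
  have h6 : (1 : ℝ) ≤ Real.exp ((r * (2 * r - 2 - ε) / (2 * (r + 1)) + δ) * L) :=
    Real.one_le_exp (by positivity)
  have h7 : (0 : ℝ) ≤ N := Nat.cast_nonneg N
  nlinarith

end Pool.Agent.R337.VG
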